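import Pool.Agent.MP_4d8271_ag.PieceAlg3Pairs

open MvPolynomial

namespace Pool.Agent.MP_4d8271_ag

namespace Frame

variable {N : ℕ} {k' K' : Type} [Field k'] [Field K'] [Algebra (ZMod 2) k'] [Algebra k' K']
variable (S : Frame N k' K')

/-- statement of `mem_chart_one` -/
def MemOne : Prop := ∀ g : K',
    g ∈ S.chart 1 ↔ S.δ g = 0 ∧ g ∈ Algebra.adjoin k' {S.X, S.Y}

/-- statement of `mem_chart_X` -/
def MemX : Prop := ∀ g : K',
    g ∈ S.chart (S.X ^ 2) ↔ S.δ g = 0 ∧ g ∈ Algebra.adjoin k' {S.Y / S.X, 1 / S.X}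

/-- statement of `mem_chart_Y` -/
def MemY : Prop := ∀ g : K',
    g ∈ S.chart (S.Y ^ 2) ↔ S.δ g = 0 ∧ g ∈ Algebra.adjoin k' {S.X / S.Y, 1 / S.Y}

omit [Algebra (ZMod 2) k'] in
lemma ne_zero_of_indep {x : Fin 2 → K'} (h : AlgebraicIndependent k' x) (i : Fin 2) : x i ≠ 0 :=
  h.ne_zero i

lemma X_ne_zero' : S.X ≠ 0 := S.indepXY.ne_zero 0

lemma Y_ne_zero' : S.Y ≠ 0 := S.indepXY.ne_zero 1

omit [Algebra (ZMod 2) k'] in
lemma mem_adjoin_fst (a b : K') : a ∈ IntermediateField.adjoin k' (Set.range ![a, b]) :=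
  IntermediateField.subset_adjoin _ _ ⟨0, rfl⟩

omit [Algebra (ZMod 2) k'] in
lemma mem_adjoin_snd (a b : K') : b ∈ IntermediateField.adjoin k' (Set.range ![a, b]) :=
  IntermediateField.subset_adjoin _ _ ⟨1, rfl⟩

/-- generation by `Y/X`, `1/X` -/
lemma genX : ∀ f : K', ∃ p q : MvPolynomial (Fin 2) k', aeval ![S.Y / S.X, 1 / S.X] q ≠ 0 ∧
    f = aeval ![S.Y / S.X, 1 / S.X] p / aeval ![S.Y / S.X, 1 / S.X] q := by
  have hX := S.X_ne_zero'
  have h1 := mem_adjoin_fst (k' := k') (S.Y / S.X) (1 / S.X)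
  have h2 := mem_adjoin_snd (k' := k') (S.Y / S.X) (1 / S.X)
  have hX' : S.X ∈ IntermediateField.adjoin k' (Set.range ![S.Y / S.X, 1 / S.X]) := by
    have h3 := inv_mem h2
    have e : (1 / S.X)⁻¹ = S.X := by rw [one_div, inv_inv]
    generalize hL : IntermediateField.adjoin k' (Set.range ![S.Y / S.X, 1 / S.X]) = L at h3
    rw [e] at h3
    exact h3
  apply gen_transfer S.genXY
  intro i
  fin_cases i
  · exact hX'
  · have := mul_mem h1 hX'
    rwa [div_mul_cancel₀ _ hX] at this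

/-- generation by `X/Y`, `1/Y` -/
lemma genY : ∀ f : K', ∃ p q : MvPolynomial (Fin 2) k', aeval ![S.X / S.Y, 1 / S.Y] q ≠ 0 ∧
    f = aeval ![S.X / S.Y, 1 / S.Y] p / aeval ![S.X / S.Y, 1 / S.Y] q := by
  have hY := S.Y_ne_zero'
  have h1 := mem_adjoin_fst (k' := k') (S.X / S.Y) (1 / S.Y)
  have h2 := mem_adjoin_snd (k' := k') (S.X / S.Y) (1 / S.Y)
  have hY' : S.Y ∈ IntermediateField.adjoin k' (Set.range ![S.X / S.Y, 1 / S.Y]) := by
    have h3 := inv_mem h2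
    have e : (1 / S.Y)⁻¹ = S.Y := by rw [one_div, inv_inv]
    generalize hL : IntermediateField.adjoin k' (Set.range ![S.X / S.Y, 1 / S.Y]) = L at h3
    rw [e] at h3
    exact h3
  apply gen_transfer S.genXY
  intro i
  fin_cases i
  · have := mul_mem h1 hY'
    rwa [div_mul_cancel₀ _ hY] at this
  · exact hY'

lemma indepX : AlgebraicIndependent k' ![S.Y / S.X, 1 / S.X] :=
  algebraicIndependent_of_gen S.indepXY S.genXY S.genX

lemma indepY : AlgebraicIndependent k' ![S.X / S.Y, 1 / S.Y] :=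
  algebraicIndependent_of_gen S.indepXY S.genXY S.genY

/-- only the constants are regular on all charts -/
theorem chart_inf_aux (h₁ : S.MemOne) (h₂ : S.MemX)
    (h₃ : ∀ c : k', S.δ (algebraMap k' K' c) = 0 → c ∈ sq k')
    (g : K') (h1 : g ∈ S.chart 1) (h2 : g ∈ S.chart (S.X ^ 2)) :
    g ∈ (algebraMap (sq k') K').range := by
  obtain ⟨hδ, h1'⟩ := (h₁ g).1 h1
  obtain ⟨_, h2'⟩ := (h₂ g).1 h2
  obtain ⟨c, rfl⟩ := inter_adjoin S.X_ne_zero' S.indepXY h1' h2'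
  exact ⟨⟨c, h₃ c hδ⟩, rfl⟩

theorem isIntegrallyClosed_chart_one_aux (h : S.MemOne) : IsIntegrallyClosed (S.chart 1) :=
  isIntegrallyClosed_of_mem_iff S.indepXY S.genXY h

theorem isIntegrallyClosed_chart_X_aux (h : S.MemX) : IsIntegrallyClosed (S.chart (S.X ^ 2)) :=
  isIntegrallyClosed_of_mem_iff S.indepX S.genX h

theorem isIntegrallyClosed_chart_Y_aux (h : S.MemY) : IsIntegrallyClosed (S.chart (S.Y ^ 2)) :=
  isIntegrallyClosed_of_mem_iff S.indepY S.genY h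

theorem ringKrullDim_chart_one_aux (h : S.MemOne) : ringKrullDim (S.chart 1) = 2 :=
  ringKrullDim_of_mem_iff S.indepXY h

theorem ringKrullDim_chart_X_aux (h : S.MemX) : ringKrullDim (S.chart (S.X ^ 2)) = 2 :=
  ringKrullDim_of_mem_iff S.indepX h

theorem ringKrullDim_chart_Y_aux (h : S.MemY) : ringKrullDim (S.chart (S.Y ^ 2)) = 2 :=
  ringKrullDim_of_mem_iff S.indepY h

/-- the kernel of `δ` is the fraction field of the chart `c = 1` -/
theorem exists_div_of_δ_eq_zero_aux (h : S.MemOne) (g : K') (hg : S.δ g = 0) :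
    ∃ a ∈ S.chart 1, ∃ b ∈ S.chart 1, b ≠ 0 ∧ g = a / b :=
  exists_div_of_mem_iff S.genXY h g hg

end Frame

end Pool.Agent.MP_4d8271_ag
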