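import Pool.Agent.MP_4d8271_ag.PieceAlg2b
import Pool.Agent.MP_4d8271_ag.PieceAlg3

open MvPolynomial

namespace Pool.Agent.MP_4d8271_ag

/-- determinant of a triangular family of vectors -/
theorem det_of_triangular {F : Type} [Field F] {M : Type} [AddCommGroup M] [Module F M]
    {ι : Type} [Fintype ι] [DecidableEq ι] (b : Module.Basis ι F M) (w : ι → M) (d : ι → F)
    (ρ : ι → ℕ) (hρ : Function.Injective ρ)
    (h : ∀ i, w i - d i • b i ∈ Submodule.span F {m | ∃ j, ρ j < ρ i ∧ m = b j}) :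
    b.det w = ∏ i, d i := by
  have hspan : ∀ i j : ι, ρ j ≤ ρ i →
      ∀ m ∈ Submodule.span F {m | ∃ l, ρ l < ρ j ∧ m = b l}, b.repr m i = 0 := by
    intro i j hij m hm
    have hle : Submodule.span F {m | ∃ l, ρ l < ρ j ∧ m = b l} ≤ LinearMap.ker (b.coord i) := by
      rw [Submodule.span_le]
      rintro m ⟨l, hl, rfl⟩
      rw [SetLike.mem_coe, LinearMap.mem_ker, Module.Basis.coord_apply, Module.Basis.repr_self,
        Finsupp.single_apply, if_neg]
      rintro rfl
      omega
    have := hle hm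
    rwa [LinearMap.mem_ker, Module.Basis.coord_apply] at this
  have hent : ∀ i j : ι, ρ j ≤ ρ i → b.repr (w j) i = if i = j then d j else 0 := by
    intro i j hij
    have h1 := hspan i j hij _ (h j)
    rw [map_sub, map_smul, Finsupp.sub_apply, Finsupp.smul_apply, Module.Basis.repr_self,
      Finsupp.single_apply, sub_eq_zero] at h1
    rw [h1]
    by_cases hij' : i = j
    · simp [hij']
    · rw [if_neg hij', if_neg (Ne.symm hij')]
      simp
  let _ : LinearOrder ι := LinearOrder.lift' ρ hρ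
  have hlt : ∀ i j : ι, i < j → ρ i < ρ j := fun i j h => h
  rw [Module.Basis.det_apply, Matrix.det_of_isUpperTriangular]
  · refine Finset.prod_congr rfl fun i _ => ?_
    rw [Module.Basis.toMatrix_apply, hent i i le_rfl, if_pos rfl]
  · intro i j hij
    have h2 := hlt _ _ hij
    simp only [id_eq] at h2
    rw [Module.Basis.toMatrix_apply, hent i j h2.le, if_neg]
    rintro rfl
    omega

theorem D_sq {F : Type} [Field F] [CharP F 2] (a : F) :
    KaehlerDifferential.D ℤ F (a ^ 2) = 0 := by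
  rw [Derivation.leibniz_pow, ← Nat.cast_smul_eq_nsmul F, Nat.cast_ofNat,
    CharTwo.two_eq_zero]
  simp

theorem D_sq_mul {F : Type} [Field F] [CharP F 2] (a c : F) :
    KaehlerDifferential.D ℤ F (a ^ 2 * c) = a ^ 2 • KaehlerDifferential.D ℤ F c := by
  rw [Derivation.leibniz, D_sq, smul_zero, add_zero]

theorem D_inv {F : Type} [Field F] [CharP F 2] (a : F) :
    KaehlerDifferential.D ℤ F (a⁻¹) = (a⁻¹) ^ 2 • KaehlerDifferential.D ℤ F a := by
  rw [Derivation.leibniz_inv, CharTwo.neg_eq]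

namespace Frame

variable {N : ℕ} {k' K' : Type} [Field k'] [Field K'] [Algebra (ZMod 2) k'] [Algebra k' K']
variable (S : Frame N k' K')

/-- `δ` maps `k'` to `M`. -/
theorem δ_mem_M (b : k') : S.δ (algebraMap k' K' b) ∈ S.M := by
  have hX2 : S.X ^ 2 ∈ S.M := Submodule.subset_span (by simp)
  have hY2 : S.Y ^ 2 ∈ S.M := Submodule.subset_span (by simp)
  have hXY : S.X * S.Y ∈ S.M := Submodule.subset_span (by simp)
  have h1 : (1 : K') ∈ S.M := Submodule.subset_span (by simp)
  have hv : ∀ i, S.δ (algebraMap k' K' (S.v i)) ∈ S.M := by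
    intro i
    cases i with
    | r => rw [S.δr]; exact h1
    | s => rw [S.δs]; exact hX2
    | t => rw [S.δt]; exact hY2
    | e i =>
      rw [S.δe]
      refine add_mem ?_ ?_
      · rw [mul_comm, ← Algebra.smul_def]
        exact S.M.smul_mem _ hXY
      · rw [mul_comm, ← Algebra.smul_def]
        exact S.M.smul_mem _ hY2
  have hp : ∀ p : MvPolynomial (Var N) (ZMod 2), S.δ (algebraMap k' K' (aeval S.v p)) ∈ S.M := by
    intro p
    induction p using MvPolynomial.induction_on with
    | C a =>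
      obtain ⟨n, rfl⟩ := ZMod.intCast_surjective a
      rw [MvPolynomial.aeval_C, map_intCast, map_intCast, Derivation.map_intCast]
      exact zero_mem _
    | add p q hp hq =>
      rw [map_add, map_add, map_add]
      exact add_mem hp hq
    | mul_X p i hp =>
      rw [map_mul, aeval_X, map_mul, Derivation.leibniz, smul_eq_mul, smul_eq_mul,
        ← Algebra.smul_def, ← Algebra.smul_def]
      exact add_mem (S.M.smul_mem _ (hv i)) (S.M.smul_mem _ hp)
  obtain ⟨p, q, hq, rfl⟩ := S.gen b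
  rw [map_div₀, Derivation.leibniz_div]
  have e : ((algebraMap k' K' (aeval S.v q)))⁻¹ ^ 2 •
      (algebraMap k' K' (aeval S.v q) • S.δ (algebraMap k' K' (aeval S.v p)) -
        algebraMap k' K' (aeval S.v p) • S.δ (algebraMap k' K' (aeval S.v q))) =
      ((aeval S.v q))⁻¹ ^ 2 • (aeval S.v q • S.δ (algebraMap k' K' (aeval S.v p)) -
        aeval S.v p • S.δ (algebraMap k' K' (aeval S.v q))) := by
    simp only [Algebra.smul_def (A := K') (R := k'), smul_eq_mul, map_inv₀, map_pow]
  rw [e]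
  exact S.M.smul_mem _ (sub_mem (S.M.smul_mem _ (hp p)) (S.M.smul_mem _ (hp q)))

theorem δ_mem_V (b : k') : S.δ (algebraMap k' K' b) ∈ S.V := ⟨S.δ_mem_M b, S.δ_δ _⟩

section Field

variable {F : Type} [Field F] (j : F →+* K') (hj : ∀ g, g ∈ j.range ↔ S.δ g = 0)

include S j in
theorem charP_F : CharP F 2 := by
  have := S.charPK
  have h2 : ((2 : ℕ) : F) = 0 := by
    apply j.injective
    rw [map_natCast, map_zero]
    exact CharP.cast_eq_zero K' 2
  exact CharTwo.of_one_ne_zero_of_two_eq_zero one_ne_zero (by exact_mod_cast h2)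

include hj in
/-- the differential of the square of `b ∈ k'` -/
theorem exists_D_sq (c : K') (hc0 : c ≠ 0) (hδc : S.δ c = 0) (u : K') (hu : S.δ u = c)
    (b : K') :
    ∃ (a h w : F), j a = b ^ 2 ∧ j w = u ^ 2 ∧ j h = S.δ b / c ∧
      KaehlerDifferential.D ℤ F a = h ^ 2 • KaehlerDifferential.D ℤ F w := by
  have := S.charPK
  have := S.charP_F j
  have h1 : S.δ (S.δ b / c) = 0 := by
    rw [Derivation.leibniz_div, S.δ_δ, hδc]
    simp
  have h2 : S.δ (b + u * (S.δ b / c)) = 0 := by
    rw [map_add, Derivation.leibniz, h1, hu, smul_zero, zero_add, smul_eq_mul,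
      div_mul_cancel₀ _ hc0, CharTwo.add_self_eq_zero]
  obtain ⟨h, hh⟩ := (hj _).2 h1
  obtain ⟨e, he⟩ := (hj _).2 h2
  obtain ⟨w, hw⟩ := (hj _).2 (S.δ_sq u)
  refine ⟨e ^ 2 + h ^ 2 * w, h, w, ?_, hw, hh, ?_⟩
  · rw [map_add, map_mul, map_pow, map_pow, he, hh, hw, CharTwo.add_sq, mul_pow]
    rw [add_assoc, mul_comm (u ^ 2), CharTwo.add_self_eq_zero, add_zero]
  · rw [map_add, D_sq, zero_add, D_sq_mul]

include hj in
theorem D_mem_span (c : K') (hc0 : c ≠ 0) (hδc : S.δ c = 0)
    (u : K') (hu : S.δ u = c) (w : AVar N → F)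
    (hw : S.chart c = Algebra.adjoin (sq k') (Set.range (fun i => j (w i))))
    (hwr : j (w (.inr .r)) = u ^ 2) (a : F) (ha : j a ∈ S.chart c) :
    KaehlerDifferential.D ℤ F a ∈ Submodule.span ((S.chart c).toSubring.comap j)
      (Set.range fun i => KaehlerDifferential.D ℤ F (w i)) := by
  have := S.charPK
  have := S.charP_F j
  set R := (S.chart c).toSubring.comap j with hR
  set P := Submodule.span R (Set.range fun i => KaehlerDifferential.D ℤ F (w i)) with hP
  have hmem : ∀ x, x ∈ R ↔ j x ∈ S.chart c := fun x => Iff.rfl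
  have smul_mem : ∀ (x : F) (m : KaehlerDifferential ℤ F), j x ∈ S.chart c → m ∈ P → x • m ∈ P :=
    fun x m hx hm => P.smul_mem (⟨x, hx⟩ : R) hm
  suffices H : ∀ y ∈ Algebra.adjoin (sq k') (Set.range (fun i => j (w i))),
      ∃ x : F, j x = y ∧ KaehlerDifferential.D ℤ F x ∈ P by
    obtain ⟨x, hx, hx'⟩ := H (j a) (hw ▸ ha)
    rwa [← j.injective hx]
  intro y hy
  induction hy using Algebra.adjoin_induction with
  | mem x hx =>
    obtain ⟨i, rfl⟩ := hx
    exact ⟨w i, rfl, Submodule.subset_span ⟨i, rfl⟩⟩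
  | algebraMap r =>
    obtain ⟨b, hb⟩ := mem_sq.1 r.2
    obtain ⟨a', h, w', ha', hw', hh, hD⟩ := S.exists_D_sq j hj c hc0 hδc u hu (algebraMap k' K' b)
    have hww : w' = w (.inr .r) := j.injective (by rw [hw', hwr])
    refine ⟨a', ?_, ?_⟩
    · rw [ha', ← map_pow, ← hb]
      rfl
    · rw [hD, hww]
      apply smul_mem
      · rw [map_pow]
        apply pow_mem
        rw [hh]
        exact Algebra.subset_adjoin ⟨_, S.δ_mem_V b, rfl⟩
      · exact Submodule.subset_span ⟨_, rfl⟩
  | add x y hx hy hx' hy' =>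
    obtain ⟨a1, h1, h1'⟩ := hx'
    obtain ⟨a2, h2, h2'⟩ := hy'
    refine ⟨a1 + a2, by rw [map_add, h1, h2], ?_⟩
    rw [map_add]
    exact add_mem h1' h2'
  | mul x y hx hy hx' hy' =>
    obtain ⟨a1, h1, h1'⟩ := hx'
    obtain ⟨a2, h2, h2'⟩ := hy'
    refine ⟨a1 * a2, by rw [map_mul, h1, h2], ?_⟩
    rw [Derivation.leibniz]
    exact add_mem (smul_mem _ _ (by rw [h1, hw]; exact hx) h2')
      (smul_mem _ _ (by rw [h2, hw]; exact hy) h1')

end Field

/-! ### Algebraic independence and generation -/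

/-- the subfield generated by the coordinates `vz` -/
def L0 : Subfield K' := Subfield.closure (Set.range S.vz)

theorem vz_mem_L0 (i : AVar N) : S.vz i ∈ S.L0 := Subfield.subset_closure ⟨i, rfl⟩

theorem X_mem_L0 : S.X ∈ S.L0 := S.vz_mem_L0 (.inl 0)

theorem Y_mem_L0 : S.Y ∈ S.L0 := S.vz_mem_L0 (.inl 1)

theorem r_mem_L0 : algebraMap k' K' (S.v .r) ^ 2 ∈ S.L0 := S.vz_mem_L0 (.inr .r)

theorem s_mem_L0 : algebraMap k' K' (S.v .s) ^ 2 ∈ S.L0 := by
  have := S.charPK
  have h : algebraMap k' K' (S.v .s) ^ 2 = S.vz (.inr .s) ^ 2 +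
      algebraMap k' K' (S.v .r) ^ 2 * (S.X ^ 2) ^ 2 := by
    simp only [vz]
    rw [CharTwo.add_sq, mul_pow, add_assoc, CharTwo.add_self_eq_zero, add_zero]
  rw [h]
  exact add_mem (pow_mem (S.vz_mem_L0 _) _)
    (mul_mem S.r_mem_L0 (pow_mem (pow_mem S.X_mem_L0 _) _))

theorem t_mem_L0 : algebraMap k' K' (S.v .t) ^ 2 ∈ S.L0 := by
  have := S.charPK
  have h : algebraMap k' K' (S.v .t) ^ 2 = S.vz (.inr .t) ^ 2 +
      algebraMap k' K' (S.v .r) ^ 2 * (S.Y ^ 2) ^ 2 := by
    simp only [vz]
    rw [CharTwo.add_sq, mul_pow, add_assoc, CharTwo.add_self_eq_zero, add_zero]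
  rw [h]
  exact add_mem (pow_mem (S.vz_mem_L0 _) _)
    (mul_mem S.r_mem_L0 (pow_mem (pow_mem S.Y_mem_L0 _) _))

theorem WB_mem_L0 : ∀ i : ℕ, i ≤ N → algebraMap k' K' (S.W i) ^ 2 ∈ S.L0 ∧
    algebraMap k' K' (S.B i) ^ 2 ∈ S.L0 ∧
    ∀ l : Fin N, (l : ℕ) < i → algebraMap k' K' (S.v (.e l)) ^ 2 ∈ S.L0 := by
  have := S.charPK
  intro i
  induction i with
  | zero =>
    intro _
    rw [S.W_zero, S.B_zero, map_one, map_zero, one_pow, zero_pow two_ne_zero]
    exact ⟨one_mem _, zero_mem _, fun l hl => absurd hl (by omega)⟩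
  | succ i ih =>
    intro hi
    obtain ⟨hW, hB, he⟩ := ih (by omega)
    have hf : S.f i ^ 2 ∈ S.L0 := by
      rw [f, CharTwo.add_sq, mul_pow, mul_pow, mul_pow]
      exact add_mem (mul_mem (mul_mem (pow_mem S.X_mem_L0 _) (pow_mem S.Y_mem_L0 _)) hW)
        (mul_mem (pow_mem (pow_mem S.Y_mem_L0 _) _) hB)
    have hei : algebraMap k' K' (S.v (.e ⟨i, hi⟩)) ^ 2 ∈ S.L0 := by
      have h : algebraMap k' K' (S.v (.e ⟨i, hi⟩)) ^ 2 = S.vz (.inr (.e ⟨i, hi⟩)) ^ 2 +
          algebraMap k' K' (S.v .r) ^ 2 * (S.f i) ^ 2 := by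
        simp only [vz]
        rw [CharTwo.add_sq, mul_pow, add_assoc, CharTwo.add_self_eq_zero, add_zero]
      rw [h]
      exact add_mem (pow_mem (S.vz_mem_L0 _) _) (mul_mem S.r_mem_L0 hf)
    refine ⟨?_, ?_, ?_⟩
    · have := S.W_succ ⟨i, hi⟩
      simp only at this
      rw [this, map_mul, mul_pow]
      exact mul_mem hei hW
    · have := S.B_succ ⟨i, hi⟩
      simp only at this
      rw [this, map_add, map_add, CharTwo.add_sq, CharTwo.add_sq, map_mul, map_mul, map_mul,
        mul_pow, mul_pow, mul_pow, map_pow, map_pow]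
      exact add_mem (add_mem (mul_mem hei hB) (mul_mem S.s_mem_L0 (pow_mem hW _)))
        (mul_mem S.t_mem_L0 (pow_mem hB _))
    · intro l hl
      rcases Nat.lt_succ_iff_lt_or_eq.1 hl with h | h
      · exact he l h
      · have : l = ⟨i, hi⟩ := Fin.ext h
        rw [this]
        exact hei

theorem v_sq_mem_L0 (i : Var N) : algebraMap k' K' (S.v i) ^ 2 ∈ S.L0 := by
  cases i with
  | r => exact S.r_mem_L0
  | s => exact S.s_mem_L0
  | t => exact S.t_mem_L0
  | e i => exact (S.WB_mem_L0 N le_rfl).2.2 i i.2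

theorem sq_mem_L0 (c : sq k') : algebraMap k' K' c ∈ S.L0 := by
  have hp : ∀ p : MvPolynomial (Var N) (ZMod 2),
      algebraMap k' K' (aeval (fun i => S.v i ^ 2) p) ∈ S.L0 := by
    intro p
    induction p using MvPolynomial.induction_on with
    | C a =>
      obtain ⟨n, rfl⟩ := ZMod.intCast_surjective a
      rw [MvPolynomial.aeval_C, map_intCast, map_intCast]
      exact intCast_mem _ n
    | add p q hp hq =>
      rw [map_add, map_add]
      exact add_mem hp hq
    | mul_X p i hp =>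
      rw [map_mul, aeval_X, map_mul, map_pow]
      exact mul_mem hp (S.v_sq_mem_L0 i)
  obtain ⟨p, q, -, h⟩ := S.sq_fg c
  rw [h, map_div₀]
  exact div_mem (hp p) (hp q)

theorem chart_one_le_L0 (g : K') (hg : g ∈ S.chart 1) : g ∈ S.L0 := by
  rw [S.chart_one_eq_adjoin] at hg
  induction hg using Algebra.adjoin_induction with
  | mem x hx => exact Subfield.subset_closure hx
  | algebraMap r => exact S.sq_mem_L0 r
  | add x y hx hy hx' hy' => exact add_mem hx' hy'
  | mul x y hx hy hx' hy' => exact mul_mem hx' hy'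

theorem mem_L0_of_δ_eq_zero (g : K') (hg : S.δ g = 0) : g ∈ S.L0 := by
  obtain ⟨a, ha, b, hb, -, rfl⟩ := S.exists_div_of_δ_eq_zero_aux S.mem_chart_one g hg
  exact div_mem (S.chart_one_le_L0 a ha) (S.chart_one_le_L0 b hb)

theorem algebraicIndependent_vz [Algebra (ZMod 2) K'] [IsScalarTower (ZMod 2) k' K'] :
    AlgebraicIndependent (ZMod 2) S.vz := by
  have h1 : AlgebraicIndependent (ZMod 2) (Sum.elim ![S.X, S.Y] (algebraMap k' K' ∘ S.v)) :=
    S.indep.sumElim_comp S.indepXY
  have h2 := h1.cardinalMk_le_trdeg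
  have alg : Algebra.IsAlgebraic (Algebra.adjoin (ZMod 2) (Set.range S.vz)) K' := by
    constructor
    have hL : ∀ y ∈ S.L0, IsAlgebraic (Algebra.adjoin (ZMod 2) (Set.range S.vz)) y := by
      intro y hy
      refine Subfield.closure_induction
        (p := fun y _ => IsAlgebraic (Algebra.adjoin (ZMod 2) (Set.range S.vz)) y)
        ?_ ?_ ?_ ?_ ?_ ?_ hy
      · intro x hx
        exact isAlgebraic_algebraMap
          (⟨x, Algebra.subset_adjoin hx⟩ : Algebra.adjoin (ZMod 2) (Set.range S.vz))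
      · exact isAlgebraic_one
      · intro x y _ _ hx hy; exact hx.add hy
      · intro x _ hx; exact hx.neg
      · intro x _ hx; exact hx.inv
      · intro x y _ _ hx hy; exact hx.mul hy
    intro z
    exact (hL _ (S.mem_L0_of_δ_eq_zero _ (S.δ_sq z))).of_pow (by norm_num)
  exact (Algebra.IsAlgebraic.isTranscendenceBasis_of_le_trdeg_of_finite (ZMod 2) S.vz h2).1

section Field2

variable {F : Type} [Field F] (j : F →+* K') (hj : ∀ g, g ∈ j.range ↔ S.δ g = 0)

include hj in
theorem exists_basis_F (vz : AVar N → F) (hvz : ∀ i, j (vz i) = S.vz i) :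
    ∃ b : Module.Basis (AVar N) F (KaehlerDifferential ℤ F),
      ∀ i, b i = KaehlerDifferential.D ℤ F (vz i) := by
  have := S.charP_F j
  let _ : Algebra (ZMod 2) F := ZMod.algebra F 2
  let _ : Algebra (ZMod 2) K' := ((algebraMap k' K').comp (algebraMap (ZMod 2) k')).toAlgebra
  have : IsScalarTower (ZMod 2) k' K' := .of_algebraMap_eq fun _ => rfl
  let φ : F →ₐ[ZMod 2] K' := { j with
    commutes' := fun r => by
      obtain ⟨n, rfl⟩ := ZMod.intCast_surjective r
      change j (algebraMap (ZMod 2) F n) = _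
      rw [map_intCast, map_intCast, map_intCast] }
  have hφ : φ ∘ vz = S.vz := funext hvz
  have h1 : AlgebraicIndependent (ZMod 2) vz := by
    apply AlgebraicIndependent.of_comp φ
    rw [hφ]
    exact S.algebraicIndependent_vz
  refine exists_basis_kaehler vz h1 ?_
  rw [forall_exists_aeval_div_iff, eq_top_iff]
  rintro c -
  have key : ∀ y ∈ S.L0, ∃ x ∈ IntermediateField.adjoin (ZMod 2) (Set.range vz), j x = y := by
    intro y hy
    refine Subfield.closure_induction
      (p := fun y _ => ∃ x ∈ IntermediateField.adjoin (ZMod 2) (Set.range vz), j x = y)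
      ?_ ?_ ?_ ?_ ?_ ?_ hy
    · rintro x ⟨i, rfl⟩
      exact ⟨vz i, IntermediateField.subset_adjoin _ _ ⟨i, rfl⟩, hvz i⟩
    · exact ⟨1, one_mem _, map_one j⟩
    · rintro x y _ _ ⟨a, ha, ha'⟩ ⟨b, hb, hb'⟩
      exact ⟨a + b, add_mem ha hb, by rw [map_add, ha', hb']⟩
    · rintro x _ ⟨a, ha, ha'⟩
      exact ⟨-a, neg_mem ha, by rw [map_neg, ha']⟩
    · rintro x _ ⟨a, ha, ha'⟩
      exact ⟨a⁻¹, inv_mem ha, by rw [map_inv₀, ha']⟩
    · rintro x y _ _ ⟨a, ha, ha'⟩ ⟨b, hb, hb'⟩
      exact ⟨a * b, mul_mem ha hb, by rw [map_mul, ha', hb']⟩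
  obtain ⟨x, hx, hx'⟩ := key (j c) (S.mem_L0_of_δ_eq_zero _ ((hj _).1 ⟨c, rfl⟩))
  rwa [← j.injective hx']

end Field2

/-! ### The coordinates -/

theorem δ_vz (i : AVar N) : S.δ (S.vz i) = 0 := by
  apply S.δ_of_mem_chart 1 (by simp)
  rw [S.chart_one_eq_adjoin]
  exact Algebra.subset_adjoin ⟨i, rfl⟩

theorem δ_vx (i : AVar N) : S.δ (S.vx i) = 0 := by
  apply S.δ_of_mem_chart (S.X ^ 2) S.δ_X_sq
  rw [S.chart_X_eq_adjoin]
  exact Algebra.subset_adjoin ⟨i, rfl⟩

theorem δ_vy (i : AVar N) : S.δ (S.vy i) = 0 := by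
  apply S.δ_of_mem_chart (S.Y ^ 2) S.δ_Y_sq
  rw [S.chart_Y_eq_adjoin]
  exact Algebra.subset_adjoin ⟨i, rfl⟩

/-- the order used for the chart `X²` -/
def ρx : AVar N → ℕ
  | .inr .r => 0
  | .inr .s => 1
  | .inr .t => 2
  | .inl 0 => 3
  | .inl 1 => 4
  | .inr (.e i) => 5 + i

/-- the order used for the chart `Y²` -/
def ρy : AVar N → ℕ
  | .inr .r => 0
  | .inr .t => 1
  | .inr .s => 2
  | .inl 1 => 3
  | .inl 0 => 4
  | .inr (.e i) => 5 + i

omit S in
theorem ρx_injective : Function.Injective (ρx : AVar N → ℕ) := by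
  rintro (a | a) (b | b) h
  · fin_cases a <;> fin_cases b <;> simp_all [ρx]
  · fin_cases a <;> cases b <;> simp_all [ρx] <;> omega
  · fin_cases b <;> cases a <;> simp_all [ρx] <;> omega
  · cases a <;> cases b <;> simp_all [ρx] <;> omega

omit S in
theorem ρy_injective : Function.Injective (ρy : AVar N → ℕ) := by
  rintro (a | a) (b | b) h
  · fin_cases a <;> fin_cases b <;> simp_all [ρy]
  · fin_cases a <;> cases b <;> simp_all [ρy] <;> omega
  · fin_cases b <;> cases a <;> simp_all [ρy] <;> omega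
  · cases a <;> cases b <;> simp_all [ρy] <;> omega

omit S in
theorem prod_AVar {F : Type} [Field F] (d : AVar N → F) (he : ∀ i, d (.inr (.e i)) = 1) :
    ∏ i, d i = d (.inl 0) * d (.inl 1) * (d (.inr .r) * d (.inr .s) * d (.inr .t)) := by
  rw [Fintype.prod_sum_type, Fin.prod_univ_two]
  congr 1
  rw [← Equiv.prod_comp (Var.equivSum N).symm, Fintype.prod_sum_type, Fin.prod_univ_three]
  have : ∀ i : Fin N, d (.inr ((Var.equivSum N).symm (.inr i))) = 1 := he
  simp only [this, Finset.prod_const_one, mul_one]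
  rfl

section Field3

variable {F : Type} [Field F] (j : F →+* K') (hj : ∀ g, g ∈ j.range ↔ S.δ g = 0)

include hj in
/-- differentials of the `f i` -/
theorem D_f_mem (vz : AVar N → F) (hvz : ∀ i, j (vz i) = S.vz i)
    (b : Module.Basis (AVar N) F (KaehlerDifferential ℤ F))
    (hb : ∀ i, b i = KaehlerDifferential.D ℤ F (vz i))
    (P : Submodule F (KaehlerDifferential ℤ F)) (i : ℕ) (hi : i ≤ N)
    (hX : b (.inl 0) ∈ P) (hY : b (.inl 1) ∈ P) (hr : b (.inr .r) ∈ P) (hs : b (.inr .s) ∈ P)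
    (ht : b (.inr .t) ∈ P) (he : ∀ l : Fin N, (l : ℕ) < i → b (.inr (.e l)) ∈ P)
    (a : F) (ha : j a = S.f i) : KaehlerDifferential.D ℤ F a ∈ P := by
  have := S.charPK
  have := S.charP_F j
  have hsq : ∀ (c : k') (a : F), j a = algebraMap k' K' c ^ 2 →
      KaehlerDifferential.D ℤ F a ∈ P := by
    intro c a ha
    obtain ⟨a', h, w, ha', hw, -, hD⟩ := S.exists_D_sq j hj 1 one_ne_zero (by simp)
      (algebraMap k' K' (S.v .r)) S.δr (algebraMap k' K' c)
    have e1 : a' = a := j.injective (by rw [ha, ha'])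
    have e2 : w = vz (.inr .r) := j.injective (by rw [hw, hvz]; rfl)
    rw [← e1, hD, e2, ← hb]
    exact P.smul_mem _ hr
  induction i generalizing a with
  | zero =>
    have e : a = vz (.inl 0) * vz (.inl 1) := by
      apply j.injective
      rw [ha, map_mul, hvz, hvz, f, S.W_zero, S.B_zero, map_zero, map_one, mul_zero, add_zero,
        mul_one]
      rfl
    rw [e, Derivation.leibniz, ← hb, ← hb]
    exact add_mem (P.smul_mem _ hY) (P.smul_mem _ hX)
  | succ i ih =>
    obtain ⟨W2, hW2⟩ := (hj _).2 (S.δ_sq (algebraMap k' K' (S.W i)))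
    obtain ⟨B2, hB2⟩ := (hj _).2 (S.δ_sq (algebraMap k' K' (S.B i)))
    obtain ⟨fi, hfi⟩ := (hj _).2 (S.δ_f i (by omega))
    have e : a = vz (.inr (.e ⟨i, hi⟩)) * fi + vz (.inl 1) ^ 2 * (vz (.inr .s) * W2 +
        vz (.inr .t) * B2) := by
      apply j.injective
      have h := S.f_succ_z ⟨i, hi⟩
      simp only at h
      rw [ha, h]
      simp only [map_add, map_mul, map_pow, hvz, hW2, hB2, hfi]
      rfl
    rw [e, map_add, D_sq_mul, map_add, Derivation.leibniz, Derivation.leibniz, Derivation.leibniz]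
    simp only [← hb]
    have h1 := hsq _ _ hW2
    have h2 := hsq _ _ hB2
    have h3 := ih (by omega) (fun l hl => he l (by omega)) fi hfi
    have h4 := he ⟨i, hi⟩ (Nat.lt_succ_self i)
    exact add_mem (add_mem (P.smul_mem _ h3) (P.smul_mem _ h4))
      (P.smul_mem _ (add_mem (add_mem (P.smul_mem _ h1) (P.smul_mem _ hs))
        (add_mem (P.smul_mem _ h2) (P.smul_mem _ ht))))

end Field3

/-! Piece Alg4: differentials of the function field `F ≅ ker δ` -/

theorem exists_coords {F : Type} [Field F] (j : F →+* K') (hj : ∀ g, g ∈ j.range ↔ S.δ g = 0) :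
    ∃ (vz vx vy : AVar N → F) (b : Module.Basis (AVar N) F (KaehlerDifferential ℤ F)) (x y : F),
      (∀ i, j (vz i) = S.vz i) ∧ (∀ i, j (vx i) = S.vx i) ∧ (∀ i, j (vy i) = S.vy i) ∧
      j x = S.X ∧ j y = S.Y ∧
      (∀ i, b i = KaehlerDifferential.D ℤ F (vz i)) ∧
      b.det (fun i => KaehlerDifferential.D ℤ F (vx i)) = x⁻¹ ∧
      b.det (fun i => KaehlerDifferential.D ℤ F (vy i)) = y⁻¹ ∧
      (∀ a, j a ∈ S.chart 1 → KaehlerDifferential.D ℤ F a ∈
        Submodule.span ((S.chart 1).toSubring.comap j)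
          (Set.range fun i => KaehlerDifferential.D ℤ F (vz i))) ∧
      (∀ a, j a ∈ S.chart (S.X ^ 2) → KaehlerDifferential.D ℤ F a ∈
        Submodule.span ((S.chart (S.X ^ 2)).toSubring.comap j)
          (Set.range fun i => KaehlerDifferential.D ℤ F (vx i))) ∧
      (∀ a, j a ∈ S.chart (S.Y ^ 2) → KaehlerDifferential.D ℤ F a ∈
        Submodule.span ((S.chart (S.Y ^ 2)).toSubring.comap j)
          (Set.range fun i => KaehlerDifferential.D ℤ F (vy i))) := by
  have cK := S.charPK
  have cF := S.charP_F j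
  have h2 : (2 : K') = 0 := CharTwo.two_eq_zero
  have hX0 := S.X_ne_zero
  have hY0 := S.Y_ne_zero
  choose vz hvz using fun i => (hj (S.vz i)).2 (S.δ_vz i)
  choose vx hvx using fun i => (hj (S.vx i)).2 (S.δ_vx i)
  choose vy hvy using fun i => (hj (S.vy i)).2 (S.δ_vy i)
  obtain ⟨b, hb⟩ := S.exists_basis_F j hj vz hvz
  set x := vz (.inl 0) with hx
  set y := vz (.inl 1) with hy
  have hjx : j x = S.X := hvz _
  have hjy : j y = S.Y := hvz _
  have hx0 : x ≠ 0 := fun h => hX0 (by rw [← hjx, h, map_zero])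
  have hy0 : y ≠ 0 := fun h => hY0 (by rw [← hjy, h, map_zero])
  have hf : ∀ i : Fin N, ∃ a : F, j a = S.f i := fun i => (hj _).2 (S.δ_f i i.2.le)
  choose fF hfF using hf
  refine ⟨vz, vx, vy, b, x, y, hvz, hvx, hvy, hjx, hjy, hb, ?_, ?_, ?_, ?_, ?_⟩
  · -- the chart `X²`
    have e0 : vx (.inl 0) = x⁻¹ := j.injective (by rw [hvx, map_inv₀, hjx]; simp [Frame.vx])
    have e1 : vx (.inl 1) = y * x⁻¹ :=
      j.injective (by rw [hvx, map_mul, map_inv₀, hjx, hjy]; simp [Frame.vx, div_eq_mul_inv])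
    have er : vx (.inr .r) = vz (.inr .s) ^ 2 + (x ^ 2) ^ 2 * vz (.inr .r) := by
      apply j.injective
      simp only [map_add, map_mul, map_pow, hvx, hvz, hjx, Frame.vx, Frame.vz]
      linear_combination (-(algebraMap k' K' (S.v .s) * algebraMap k' K' (S.v .r) * S.X ^ 2 +
        algebraMap k' K' (S.v .r) ^ 2 * S.X ^ 4)) * h2
    have es : vx (.inr .s) = (x⁻¹) ^ 2 * vz (.inr .s) := by
      apply j.injective
      simp only [map_mul, map_pow, map_inv₀, hvx, hvz, hjx, Frame.vx, Frame.vz]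
      field_simp
      ring
    have et : vx (.inr .t) = vz (.inr .t) + (y * x⁻¹) ^ 2 * vz (.inr .s) := by
      apply j.injective
      simp only [map_add, map_mul, map_pow, map_inv₀, hvx, hvz, hjx, hjy, Frame.vx, Frame.vz]
      field_simp
      linear_combination (-(S.X ^ 2 * algebraMap k' K' (S.v .r) * S.Y ^ 2)) * h2
    have ee : ∀ i, vx (.inr (.e i)) = vz (.inr (.e i)) + (x⁻¹) ^ 2 * (fF i * vz (.inr .s)) := by
      intro i
      apply j.injective
      simp only [map_add, map_mul, map_pow, map_inv₀, hvx, hvz, hjx, hfF, Frame.vx, Frame.vz]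
      field_simp
      linear_combination (-(S.X ^ 2 * algebraMap k' K' (S.v .r) * S.f i)) * h2
    let d : AVar N → F
      | .inl 0 => (x⁻¹) ^ 2
      | .inl 1 => x⁻¹
      | .inr .r => (x ^ 2) ^ 2
      | .inr .s => (x⁻¹) ^ 2
      | .inr .t => 1
      | .inr (.e i) => 1
    rw [det_of_triangular b _ d ρx ρx_injective, prod_AVar d (fun _ => rfl)]
    · simp only [d]
      field_simp
    · rintro (i | i)
      · fin_cases i
        · change KaehlerDifferential.D ℤ F (vx (.inl 0)) - (x⁻¹) ^ 2 • b (.inl 0) ∈ _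
          rw [e0, D_inv, hb, sub_self]
          exact zero_mem _
        · change KaehlerDifferential.D ℤ F (vx (.inl 1)) - (x⁻¹) • b (.inl 1) ∈ _
          rw [e1, Derivation.leibniz, D_inv, hb, add_sub_cancel_right]
          refine Submodule.smul_mem _ _ (Submodule.smul_mem _ _ (Submodule.subset_span
            ⟨.inl 0, ?_, (hb _).symm⟩))
          change 3 < 4
          norm_num
      · cases i with
        | r =>
          change KaehlerDifferential.D ℤ F (vx (.inr .r)) - (x ^ 2) ^ 2 • b (.inr .r) ∈ _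
          rw [er, map_add, D_sq, zero_add, D_sq_mul, hb, sub_self]
          exact zero_mem _
        | s =>
          change KaehlerDifferential.D ℤ F (vx (.inr .s)) - (x⁻¹) ^ 2 • b (.inr .s) ∈ _
          rw [es, D_sq_mul, hb, sub_self]
          exact zero_mem _
        | t =>
          change KaehlerDifferential.D ℤ F (vx (.inr .t)) - (1 : F) • b (.inr .t) ∈ _
          rw [et, map_add, D_sq_mul, hb, one_smul, add_sub_cancel_left]
          refine Submodule.smul_mem _ _ (Submodule.subset_span ⟨.inr .s, ?_, (hb _).symm⟩)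
          change 1 < 2
          norm_num
        | e i =>
          change KaehlerDifferential.D ℤ F (vx (.inr (.e i))) - (1 : F) • b (.inr (.e i)) ∈ _
          rw [ee, map_add, D_sq_mul, hb, one_smul, add_sub_cancel_left, Derivation.leibniz]
          have hmem : ∀ l : AVar N, ρx l < 5 + (i : ℕ) → b l ∈ Submodule.span F
              {m | ∃ l, ρx l < ρx (.inr (.e i) : AVar N) ∧ m = b l} :=
            fun l hl => Submodule.subset_span ⟨l, hl, rfl⟩
          refine Submodule.smul_mem _ _ (add_mem (Submodule.smul_mem _ _ ?_)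
            (Submodule.smul_mem _ _ ?_))
          · rw [← hb]
            exact hmem _ (by change 1 < _; omega)
          · exact S.D_f_mem j hj vz hvz b hb _ i i.2.le
              (hmem _ (by change 3 < _; omega)) (hmem _ (by change 4 < _; omega))
              (hmem _ (by change 0 < _; omega)) (hmem _ (by change 1 < _; omega))
              (hmem _ (by change 2 < _; omega))
              (fun l hl => hmem _ (by change 5 + (l : ℕ) < _; omega)) _ (hfF i)
  · -- the chart `Y²`
    have e0 : vy (.inl 0) = x * y⁻¹ :=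
      j.injective (by rw [hvy, map_mul, map_inv₀, hjx, hjy]; simp [Frame.vy, div_eq_mul_inv])
    have e1 : vy (.inl 1) = y⁻¹ := j.injective (by rw [hvy, map_inv₀, hjy]; simp [Frame.vy])
    have er : vy (.inr .r) = vz (.inr .t) ^ 2 + (y ^ 2) ^ 2 * vz (.inr .r) := by
      apply j.injective
      simp only [map_add, map_mul, map_pow, hvy, hvz, hjy, Frame.vy, Frame.vz]
      linear_combination (-(algebraMap k' K' (S.v .t) * algebraMap k' K' (S.v .r) * S.Y ^ 2 +
        algebraMap k' K' (S.v .r) ^ 2 * S.Y ^ 4)) * h2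
    have et : vy (.inr .t) = (y⁻¹) ^ 2 * vz (.inr .t) := by
      apply j.injective
      simp only [map_mul, map_pow, map_inv₀, hvy, hvz, hjy, Frame.vy, Frame.vz]
      field_simp
      ring
    have es : vy (.inr .s) = vz (.inr .s) + (x * y⁻¹) ^ 2 * vz (.inr .t) := by
      apply j.injective
      simp only [map_add, map_mul, map_pow, map_inv₀, hvy, hvz, hjx, hjy, Frame.vy, Frame.vz]
      field_simp
      linear_combination (-(S.X ^ 2 * algebraMap k' K' (S.v .r) * S.Y ^ 2)) * h2
    have ee : ∀ i, vy (.inr (.e i)) = vz (.inr (.e i)) + (y⁻¹) ^ 2 * (fF i * vz (.inr .t)) := by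
      intro i
      apply j.injective
      simp only [map_add, map_mul, map_pow, map_inv₀, hvy, hvz, hjy, hfF, Frame.vy, Frame.vz]
      field_simp
      linear_combination (-(S.Y ^ 2 * algebraMap k' K' (S.v .r) * S.f i)) * h2
    let d : AVar N → F
      | .inl 0 => y⁻¹
      | .inl 1 => (y⁻¹) ^ 2
      | .inr .r => (y ^ 2) ^ 2
      | .inr .s => 1
      | .inr .t => (y⁻¹) ^ 2
      | .inr (.e i) => 1
    rw [det_of_triangular b _ d ρy ρy_injective, prod_AVar d (fun _ => rfl)]
    · simp only [d]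
      field_simp
    · rintro (i | i)
      · fin_cases i
        · change KaehlerDifferential.D ℤ F (vy (.inl 0)) - (y⁻¹) • b (.inl 0) ∈ _
          rw [e0, Derivation.leibniz, D_inv, hb, add_sub_cancel_right]
          refine Submodule.smul_mem _ _ (Submodule.smul_mem _ _ (Submodule.subset_span
            ⟨.inl 1, ?_, (hb _).symm⟩))
          change 3 < 4
          norm_num
        · change KaehlerDifferential.D ℤ F (vy (.inl 1)) - (y⁻¹) ^ 2 • b (.inl 1) ∈ _
          rw [e1, D_inv, hb, sub_self]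
          exact zero_mem _
      · cases i with
        | r =>
          change KaehlerDifferential.D ℤ F (vy (.inr .r)) - (y ^ 2) ^ 2 • b (.inr .r) ∈ _
          rw [er, map_add, D_sq, zero_add, D_sq_mul, hb, sub_self]
          exact zero_mem _
        | s =>
          change KaehlerDifferential.D ℤ F (vy (.inr .s)) - (1 : F) • b (.inr .s) ∈ _
          rw [es, map_add, D_sq_mul, hb, one_smul, add_sub_cancel_left]
          refine Submodule.smul_mem _ _ (Submodule.subset_span ⟨.inr .t, ?_, (hb _).symm⟩)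
          change 1 < 2
          norm_num
        | t =>
          change KaehlerDifferential.D ℤ F (vy (.inr .t)) - (y⁻¹) ^ 2 • b (.inr .t) ∈ _
          rw [et, D_sq_mul, hb, sub_self]
          exact zero_mem _
        | e i =>
          change KaehlerDifferential.D ℤ F (vy (.inr (.e i))) - (1 : F) • b (.inr (.e i)) ∈ _
          rw [ee, map_add, D_sq_mul, hb, one_smul, add_sub_cancel_left, Derivation.leibniz]
          have hmem : ∀ l : AVar N, ρy l < 5 + (i : ℕ) → b l ∈ Submodule.span F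
              {m | ∃ l, ρy l < ρy (.inr (.e i) : AVar N) ∧ m = b l} :=
            fun l hl => Submodule.subset_span ⟨l, hl, rfl⟩
          refine Submodule.smul_mem _ _ (add_mem (Submodule.smul_mem _ _ ?_)
            (Submodule.smul_mem _ _ ?_))
          · rw [← hb]
            exact hmem _ (by change 1 < _; omega)
          · exact S.D_f_mem j hj vz hvz b hb _ i i.2.le
              (hmem _ (by change 4 < _; omega)) (hmem _ (by change 3 < _; omega))
              (hmem _ (by change 0 < _; omega)) (hmem _ (by change 2 < _; omega))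
              (hmem _ (by change 1 < _; omega))
              (fun l hl => hmem _ (by change 5 + (l : ℕ) < _; omega)) _ (hfF i)
  · intro a ha
    refine S.D_mem_span j hj 1 one_ne_zero (by simp) (algebraMap k' K' (S.v .r)) S.δr vz ?_ ?_ a ha
    · rw [S.chart_one_eq_adjoin]
      congr 2
      exact (funext hvz).symm
    · rw [hvz]
      rfl
  · intro a ha
    refine S.D_mem_span j hj (S.X ^ 2) (pow_ne_zero _ hX0) S.δ_X_sq (algebraMap k' K' (S.v .s))
      S.δs vx ?_ ?_ a ha
    · rw [S.chart_X_eq_adjoin]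
      congr 2
      exact (funext hvx).symm
    · rw [hvx]
      rfl
  · intro a ha
    refine S.D_mem_span j hj (S.Y ^ 2) (pow_ne_zero _ hY0) S.δ_Y_sq (algebraMap k' K' (S.v .t))
      S.δt vy ?_ ?_ a ha
    · rw [S.chart_Y_eq_adjoin]
      congr 2
      exact (funext hvy).symm
    · rw [hvy]
      rfl

end Frame

end Pool.Agent.MP_4d8271_ag
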