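import Pool.Agent.MP_4d8271_ag.PieceAlg2a
import Pool.Agent.MP_4d8271_ag.PieceAlg4

/-! The statements of the algebraic part, assembled from the pieces. -/

open MvPolynomial

namespace Pool.Agent.MP_4d8271_ag

namespace Frame

variable {N : ℕ} {k' K' : Type} [Field k'] [Field K'] [Algebra (ZMod 2) k'] [Algebra k' K']
variable (S : Frame N k' K')

/-- only the constants are regular on all charts -/
theorem chart_inf (g : K') (h1 : g ∈ S.chart 1) (h2 : g ∈ S.chart (S.X ^ 2)) :
    g ∈ (algebraMap (sq k') K').range :=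
  S.chart_inf_aux S.mem_chart_one S.mem_chart_X S.mem_sq_of_δ_eq_zero g h1 h2

theorem isIntegrallyClosed_chart_one : IsIntegrallyClosed (S.chart 1) :=
  S.isIntegrallyClosed_chart_one_aux S.mem_chart_one

theorem isIntegrallyClosed_chart_X : IsIntegrallyClosed (S.chart (S.X ^ 2)) :=
  S.isIntegrallyClosed_chart_X_aux S.mem_chart_X

theorem isIntegrallyClosed_chart_Y : IsIntegrallyClosed (S.chart (S.Y ^ 2)) :=
  S.isIntegrallyClosed_chart_Y_aux S.mem_chart_Y

theorem ringKrullDim_chart_one : ringKrullDim (S.chart 1) = 2 :=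
  S.ringKrullDim_chart_one_aux S.mem_chart_one

theorem ringKrullDim_chart_X : ringKrullDim (S.chart (S.X ^ 2)) = 2 :=
  S.ringKrullDim_chart_X_aux S.mem_chart_X

theorem ringKrullDim_chart_Y : ringKrullDim (S.chart (S.Y ^ 2)) = 2 :=
  S.ringKrullDim_chart_Y_aux S.mem_chart_Y

/-- the kernel of `δ` is the fraction field of the chart `c = 1` -/
theorem exists_div_of_δ_eq_zero (g : K') (hg : S.δ g = 0) :
    ∃ a ∈ S.chart 1, ∃ b ∈ S.chart 1, b ≠ 0 ∧ g = a / b :=
  S.exists_div_of_δ_eq_zero_aux S.mem_chart_one g hg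

end Frame

end Pool.Agent.MP_4d8271_ag
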