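import Pool.Agent.MP_4d8271_ag.Defs

open AlgebraicGeometry CategoryTheory CategoryTheory.Limits
open scoped TensorProduct

namespace Pool.Agent.MP_4d8271_ag

/-- sections on an affine open chart generate the function field -/
theorem exists_chart_map {X : Scheme.{0}} [IsIntegral X] {R : CommRingCat.{0}} (j : Spec R ⟶ X)
    [IsOpenImmersion j] [Nonempty (Spec R)] (r : Γ(X, ⊤) ⟶ R) (hr : j ≫ X.toSpecΓ = Spec.map r) :
    ∃ ρ : R →+* X.functionField,
      (∀ c : X.functionField, ∃ a s : R, ρ s ≠ 0 ∧ c * ρ s = ρ a) ∧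
      ∀ l : Γ(X, ⊤), ρ (r.hom l) = (X.presheaf.germ ⊤ (genericPoint X) trivial).hom l := by
  let U : X.Opens := j ''ᵁ ⊤
  have hU : IsAffineOpen U := (isAffineOpen_top _).image_of_isOpenImmersion j
  have : Nonempty U := by
    obtain ⟨z⟩ := ‹Nonempty (Spec R)›
    exact ⟨⟨j z, z, trivial, rfl⟩⟩
  have := functionField_isFractionRing_of_isAffineOpen X U hU
  let φ : R ≅ Γ(X, U) := (Scheme.ΓSpecIso R).symm ≪≫ (j.appIso ⊤).symm
  let ρ : R →+* X.functionField := (X.germToFunctionField U).hom.comp φ.hom.hom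
  have hφ : ∀ x, φ.hom.hom (φ.inv.hom x) = x := fun x => by
    rw [← CommRingCat.comp_apply, φ.inv_hom_id]
    rfl
  refine ⟨ρ, ?_, ?_⟩
  · intro c
    obtain ⟨⟨a, s⟩, h⟩ := IsLocalization.surj (nonZeroDivisors Γ(X, U)) c
    refine ⟨φ.inv.hom a, φ.inv.hom s, ?_, ?_⟩
    · change (X.germToFunctionField U).hom (φ.hom.hom (φ.inv.hom s)) ≠ 0
      rw [hφ]
      intro h0
      have h1 := (map_eq_zero_iff _ (Scheme.germToFunctionField_injective X U)).mp h0
      exact nonZeroDivisors.ne_zero s.2 h1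
    · change c * (X.germToFunctionField U).hom (φ.hom.hom (φ.inv.hom s)) =
        (X.germToFunctionField U).hom (φ.hom.hom (φ.inv.hom a))
      rw [hφ, hφ]
      exact h
  · intro l
    have h0 : j.appTop ≫ (Scheme.ΓSpecIso R).hom = r := by
      apply Spec.map_injective
      rw [Spec.map_comp, SpecMap_ΓSpecIso_hom, ← Scheme.toSpecΓ_naturality, hr]
    have h1 : X.presheaf.map (homOfLE le_top : U ⟶ ⊤).op = r ≫ φ.hom := by
      rw [← h0]
      simp only [φ, Iso.trans_hom, Iso.symm_hom, Category.assoc, Iso.hom_inv_id_assoc]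
      exact (j.app_appIso_inv ⊤).symm
    have h2 : (r ≫ φ.hom) ≫ X.germToFunctionField U =
        X.presheaf.germ ⊤ (genericPoint X) trivial := by
      rw [← h1]
      exact X.presheaf.germ_res _ _ _
    exact congrArg (fun g : Γ(X, ⊤) ⟶ X.functionField => g.hom l) h2

/-- one chart of the family -/
theorem chart_generators {A B : CommRingCat.{0}} (φ : A ⟶ B) {Y T : Scheme.{0}} (f : Y ⟶ T)
    (iY : Spec B ⟶ Y) (iT : Spec A ⟶ T) [IsOpenImmersion iY] [IsOpenImmersion iT]
    (h : Spec.map φ ≫ iT = iY ≫ f) (m : ℕ) (b : Fin m → B)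
    (hb : ∀ x : B, x ∈ Subring.closure (Set.range φ.hom ∪ Set.range b))
    {X : Scheme.{0}} [IsIntegral X] (hk : IsField Γ(X, ⊤)) (t : Spec Γ(X, ⊤) ⟶ T)
    (e : X ≅ pullback f t) (he : e.hom ≫ pullback.snd f t = X.toSpecΓ)
    (hx : pullback.fst f t (e.hom (genericPoint X)) ∈ Set.range iY) :
    ∃ b' : Fin m → X.functionField, ∀ c : X.functionField,
      ∃ p ∈ Subring.closure
          (Set.range (X.presheaf.germ ⊤ (genericPoint X) trivial).hom ∪ Set.range b'),
        ∃ r ∈ Subring.closure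
          (Set.range (X.presheaf.germ ⊤ (genericPoint X) trivial).hom ∪ Set.range b'),
          r ≠ 0 ∧ c * r = p := by
  let k : CommRingCat.{0} := Γ(X, ⊤)
  have hlift : Set.range t ⊆ Set.range iT := by
    rintro _ ⟨z, rfl⟩
    obtain ⟨y, hy⟩ := hx
    have h1 : z = pullback.snd f t (e.hom (genericPoint X)) := by
      have : Subsingleton (PrimeSpectrum Γ(X, ⊤)) := by
        let := hk.toField
        exact inferInstanceAs (Subsingleton (PrimeSpectrum Γ(X, ⊤)))
      exact this.elim (α := PrimeSpectrum Γ(X, ⊤)) z _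
    rw [h1, ← Scheme.Hom.comp_apply, ← pullback.condition, Scheme.Hom.comp_apply, ← hy,
      ← Scheme.Hom.comp_apply, ← h]
    exact ⟨Spec.map φ y, rfl⟩
  let t' : Spec k ⟶ Spec A := IsOpenImmersion.lift iT t hlift
  have ht' : t' ≫ iT = t := IsOpenImmersion.lift_fac _ _ _
  obtain ⟨ψ, hψ⟩ : ∃ ψ : A ⟶ k, Spec.map ψ = t' := ⟨Spec.preimage t', Spec.map_preimage _⟩
  let j0 : pullback (Spec.map φ) (Spec.map ψ) ⟶ pullback f t :=
    pullback.map _ _ _ _ iY (𝟙 _) iT h (by rw [hψ, ht', Category.id_comp])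
  let : Algebra A B := φ.hom.toAlgebra
  let : Algebra A k := ψ.hom.toAlgebra
  let R : CommRingCat.{0} := CommRingCat.of (TensorProduct A B k)
  let j : Spec R ⟶ X := (pullbackSpecIso A B k).inv ≫ j0 ≫ e.inv
  have : IsOpenImmersion j0 := inferInstanceAs (IsOpenImmersion (pullback.map _ _ _ _ iY (𝟙 _) iT h _))
  have : IsOpenImmersion j := inferInstanceAs (IsOpenImmersion (_ ≫ _ ≫ _))
  have hne : Nonempty (Spec R) := by
    have h2 : e.hom (genericPoint X) ∈ Set.range j0 := by
      rw [Scheme.Pullback.range_map]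
      refine ⟨hx, ?_⟩
      simp
    obtain ⟨w, -⟩ := h2
    exact ⟨(pullbackSpecIso A B k).hom w⟩
  let r : k ⟶ R := CommRingCat.ofHom (Algebra.TensorProduct.includeRight (R := A) (A := B) (B := k)).toRingHom
  have hr : j ≫ X.toSpecΓ = Spec.map r := by
    rw [← he]
    simp only [j, Category.assoc, Iso.inv_hom_id_assoc]
    have h3 : j0 ≫ pullback.snd f t = pullback.snd _ _ :=
      (pullback.lift_snd _ _ _).trans (Category.comp_id _)
    rw [h3]
    exact pullbackSpecIso_inv_snd A B k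
  obtain ⟨ρ, hρ1, hρ2⟩ := exists_chart_map j r hr
  let b' : Fin m → X.functionField := fun i => ρ (b i ⊗ₜ[A] (1 : k))
  let S : Subring X.functionField := Subring.closure
    (Set.range (X.presheaf.germ ⊤ (genericPoint X) trivial).hom ∪ Set.range b')
  have hS2 : ∀ l : k, ρ ((1 : B) ⊗ₜ[A] l) ∈ S := by
    intro l
    have h4 : ρ ((1 : B) ⊗ₜ[A] l) = (X.presheaf.germ ⊤ (genericPoint X) trivial).hom l := hρ2 l
    rw [h4]
    exact Subring.subset_closure (Or.inl ⟨l, rfl⟩)
  have hS1 : ∀ x : B, ρ (x ⊗ₜ[A] (1 : k)) ∈ S := by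
    intro x
    have hx' := hb x
    induction hx' using Subring.closure_induction with
    | mem y hy =>
      rcases hy with ⟨a, rfl⟩ | ⟨i, rfl⟩
      · have h5 : (φ.hom a : B) ⊗ₜ[A] (1 : k) = (1 : B) ⊗ₜ[A] (ψ.hom a) := by
          have h6 : (φ.hom a : B) = a • (1 : B) := by
            rw [Algebra.smul_def, mul_one]
            rfl
          have h7 : (ψ.hom a : k) = a • (1 : k) := by
            rw [Algebra.smul_def, mul_one]
            rfl
          rw [h6, h7, TensorProduct.smul_tmul]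
        rw [h5]
        exact hS2 _
      · exact Subring.subset_closure (Or.inr ⟨i, rfl⟩)
    | zero => rw [TensorProduct.zero_tmul, map_zero]; exact S.zero_mem
    | one => exact (map_one ρ).symm ▸ S.one_mem
    | add x y _ _ hx hy => rw [TensorProduct.add_tmul, map_add]; exact S.add_mem hx hy
    | neg x _ hx => rw [TensorProduct.neg_tmul, map_neg]; exact S.neg_mem hx
    | mul x y _ _ hx hy =>
      have h8 : (x * y) ⊗ₜ[A] (1 : k) = (x ⊗ₜ[A] (1 : k)) * (y ⊗ₜ[A] (1 : k)) := by
        rw [Algebra.TensorProduct.tmul_mul_tmul, one_mul]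
      rw [h8, map_mul]
      exact S.mul_mem hx hy
  have hS : ∀ a : R, ρ a ∈ S := by
    intro a
    induction a using TensorProduct.induction_on with
    | zero => rw [map_zero]; exact S.zero_mem
    | tmul x l =>
      have h8 : x ⊗ₜ[A] l = (x ⊗ₜ[A] (1 : k)) * ((1 : B) ⊗ₜ[A] l) := by
        rw [Algebra.TensorProduct.tmul_mul_tmul, one_mul, mul_one]
      rw [h8, map_mul]
      exact S.mul_mem (hS1 x) (hS2 l)
    | add x y hx hy => rw [map_add]; exact S.add_mem hx hy
  refine ⟨b', fun c => ?_⟩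
  obtain ⟨a, s, h9, h10⟩ := hρ1 c
  exact ⟨ρ a, hS a, ρ s, hS s, h9, h10⟩

/-- Piece B: members of a family of finite type have uniformly finitely generated function
fields over their field of constants. -/
theorem exists_bound_generators {Y T : Scheme.{0}} (f : Y ⟶ T)
    (q : T ⟶ Spec (CommRingCat.of ℤ)) [LocallyOfFiniteType q] [QuasiCompact q]
    [LocallyOfFiniteType f] [QuasiCompact f] :
    ∃ n : ℕ, ∀ (X : Scheme.{0}) [IsIntegral X], IsField Γ(X, ⊤) → IsFibreOf f X →
      ∃ b : Fin n → X.functionField, ∀ c : X.functionField,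
        ∃ p ∈ Subring.closure
            (Set.range (X.presheaf.germ ⊤ (genericPoint X) trivial).hom ∪ Set.range b),
          ∃ r ∈ Subring.closure
            (Set.range (X.presheaf.germ ⊤ (genericPoint X) trivial).hom ∪ Set.range b),
            r ≠ 0 ∧ c * r = p := by
  have hT : CompactSpace T := by
    have := QuasiCompact.compactSpace_of_compactSpace q
    exact this
  have hY : CompactSpace Y := QuasiCompact.compactSpace_of_compactSpace f
  -- local charts
  have key : ∀ y : Y, ∃ V : Y.Opens, y ∈ V ∧ ∃ m : ℕ, ∀ (X : Scheme.{0}) [IsIntegral X],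
      IsField Γ(X, ⊤) → ∀ (t : Spec Γ(X, ⊤) ⟶ T) (e : X ≅ pullback f t),
      e.hom ≫ pullback.snd f t = X.toSpecΓ →
      pullback.fst f t (e.hom (genericPoint X)) ∈ V →
      ∃ b' : Fin m → X.functionField, ∀ c : X.functionField,
      ∃ p ∈ Subring.closure
          (Set.range (X.presheaf.germ ⊤ (genericPoint X) trivial).hom ∪ Set.range b'),
        ∃ r ∈ Subring.closure
          (Set.range (X.presheaf.germ ⊤ (genericPoint X) trivial).hom ∪ Set.range b'),
          r ≠ 0 ∧ c * r = p := by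
    intro y
    obtain ⟨U, hU, hyU, -⟩ := exists_isAffineOpen_mem_and_subset (x := f y) (U := ⊤) trivial
    obtain ⟨V, hV, hyV, hVU⟩ := exists_isAffineOpen_mem_and_subset (x := y) (U := f ⁻¹ᵁ U) hyU
    have hft := f.finiteType_appLE hU hV hVU
    have hgen : ∃ (m : ℕ) (b : Fin m → Γ(Y, V)), ∀ x : Γ(Y, V),
        x ∈ Subring.closure (Set.range (f.appLE U V hVU).hom ∪ Set.range b) := by
      let : Algebra Γ(T, U) Γ(Y, V) := (f.appLE U V hVU).hom.toAlgebra
      have hft' : Algebra.FiniteType Γ(T, U) Γ(Y, V) := hft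
      obtain ⟨s, hs⟩ := hft'.out
      refine ⟨s.card, fun i => (s.equivFin.symm i : Γ(Y, V)), fun x => ?_⟩
      have h1 : x ∈ (Algebra.adjoin Γ(T, U) (s : Set Γ(Y, V))).toSubring := by
        rw [hs]
        trivial
      rw [Algebra.adjoin_eq_ring_closure] at h1
      have h2 : Set.range (fun i => (s.equivFin.symm i : Γ(Y, V))) = (s : Set Γ(Y, V)) := by
        ext z
        constructor
        · rintro ⟨i, rfl⟩
          exact (s.equivFin.symm i).2
        · intro hz
          exact ⟨s.equivFin ⟨z, hz⟩, by simp⟩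
      rw [h2]
      exact h1
    obtain ⟨m, b, hb⟩ := hgen
    refine ⟨V, hyV, m, fun X _ hk t e he hx => ?_⟩
    refine chart_generators (f.appLE U V hVU) f hV.fromSpec hU.fromSpec
      (hU.SpecMap_appLE_fromSpec f hV hVU) m b hb hk t e he ?_
    rw [hV.range_fromSpec]
    exact hx
  choose V hyV m hm using key
  obtain ⟨s, hs⟩ := hY.isCompact_univ.elim_finite_subcover (fun y => (V y : Set Y))
    (fun y => (V y).isOpen) (fun y _ => Set.mem_iUnion.mpr ⟨y, hyV y⟩)
  refine ⟨s.sup m, fun X _ hk ⟨t, e, he⟩ => ?_⟩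
  have hx := hs (Set.mem_univ (pullback.fst f t (e.hom (genericPoint X))))
  simp only [Set.mem_iUnion] at hx
  obtain ⟨y, hy, hxy⟩ := hx
  obtain ⟨b', hb'⟩ := hm y X hk t e he hxy
  let b : Fin (s.sup m) → X.functionField := fun i => if h : (i : ℕ) < m y then b' ⟨i, h⟩ else 0
  have hle : m y ≤ s.sup m := Finset.le_sup hy
  have hsub : Set.range b' ⊆ Set.range b := by
    rintro _ ⟨i, rfl⟩
    exact ⟨⟨i, i.2.trans_le hle⟩, by simp [b]⟩
  refine ⟨b, fun c => ?_⟩
  obtain ⟨p, hp, r, hr, h1, h2⟩ := hb' c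
  exact ⟨p, Subring.closure_mono (Set.union_subset_union_right _ hsub) hp, r,
    Subring.closure_mono (Set.union_subset_union_right _ hsub) hr, h1, h2⟩

end Pool.Agent.MP_4d8271_ag
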