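import Pool.Agent.MP_4d8271_ag.Defs

open AlgebraicGeometry CategoryTheory CategoryTheory.Limits

namespace Pool.Agent.MP_4d8271_ag

attribute [local instance] MvPolynomial.gradedAlgebra

open HomogeneousIdeal HomogeneousLocalization Proj

section General

universe u

variable {A B σ τ : Type u} [CommRing A] [SetLike σ A] [AddSubgroupClass σ A]
  [CommRing B] [SetLike τ B] [AddSubgroupClass τ B]
  {𝒜 : ℕ → σ} {ℬ : ℕ → τ} [GradedRing 𝒜] [GradedRing ℬ]

theorem irrelevant_le_map_of_surj (f : 𝒜 →+*ᵍ ℬ)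
    (hs : ∀ i, ∀ b ∈ ℬ i, ∃ a ∈ 𝒜 i, f a = b) :
    HomogeneousIdeal.irrelevant ℬ ≤ (HomogeneousIdeal.irrelevant 𝒜).map f := by
  rw [HomogeneousIdeal.irrelevant_le]
  intro i hi b hb
  obtain ⟨a, ha, rfl⟩ := hs i b hb
  exact Ideal.mem_map_of_mem f (HomogeneousIdeal.mem_irrelevant_of_mem 𝒜 hi ha)

theorem away_map_surjective (f : 𝒜 →+*ᵍ ℬ)
    (hs : ∀ i, ∀ b ∈ ℬ i, ∃ a ∈ 𝒜 i, f a = b) {d : ℕ} (s : A) (hd : s ∈ 𝒜 d) :
    Function.Surjective (Away.map f s) := by
  intro z
  obtain ⟨n, b, hb, rfl⟩ := Away.mk_surjective ℬ (f.2 hd) z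
  obtain ⟨a, ha, rfl⟩ := hs _ b hb
  exact ⟨Away.mk 𝒜 hd n a ha, Away.map_mk f s hd n a ha⟩

theorem isClosedImmersion_map (f : 𝒜 →+*ᵍ ℬ)
    (hs : ∀ i, ∀ b ∈ ℬ i, ∃ a ∈ 𝒜 i, f a = b)
    (hf : HomogeneousIdeal.irrelevant ℬ ≤ (HomogeneousIdeal.irrelevant 𝒜).map f) :
    IsClosedImmersion (Proj.map f hf) := by
  rw [IsZariskiLocalAtTarget.iff_of_openCover (P := @IsClosedImmersion)
    (Proj.affineOpenCover 𝒜).openCover]
  intro s
  obtain ⟨⟨d, hd⟩, ⟨x, hx⟩⟩ := s
  have hpb : IsPullback (Spec.map (CommRingCat.ofHom (Away.map f x)))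
      (awayι ℬ (f x) (f.2 hx) hd) (awayι 𝒜 x hx hd) (Proj.map f hf) :=
    IsOpenImmersion.isPullback _ _ _ _ (awayι_comp_map f hf hd x hx)
      (by rw [opensRange_awayι, opensRange_awayι, map_preimage_basicOpen])
  have h1 := hpb.flip.isoPullback_inv_snd
  have h2 : IsClosedImmersion (Spec.map (CommRingCat.ofHom (Away.map f x))) :=
    IsClosedImmersion.spec_of_surjective _ (away_map_surjective f hs x hx)
  change IsClosedImmersion (pullback.snd (Proj.map f hf) (awayι 𝒜 x hx hd))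
  rw [← h1]
  infer_instance

end General

section Flexible

theorem map_comp_str' (k : CommRingCat.{0}) {A B σ τ : Type} [CommRing A] [CommRing B]
    [SetLike σ A] [AddSubgroupClass σ A] [SetLike τ B] [AddSubgroupClass τ B]
    (𝒜 : ℕ → σ) (ℬ : ℕ → τ) [GradedRing 𝒜] [GradedRing ℬ] (φ : k →+* 𝒜 0) (ψ : k →+* ℬ 0)
    (f : 𝒜 →+*ᵍ ℬ)
    (hf : HomogeneousIdeal.irrelevant ℬ ≤ (HomogeneousIdeal.irrelevant 𝒜).map f)
    (hk : ∀ r : k, f (φ r : A) = (ψ r : B)) :
    Proj.map f hf ≫ Proj.toSpecZero 𝒜 ≫ Spec.map (CommRingCat.ofHom φ) =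
      Proj.toSpecZero ℬ ≫ Spec.map (CommRingCat.ofHom ψ) := by
  have key : ∀ (d : ℕ) (hd : 0 < d) (x : A) (hx : x ∈ 𝒜 d),
      awayι ℬ (f x) (f.2 hx) hd ≫ Proj.map f hf ≫ Proj.toSpecZero 𝒜 ≫
        Spec.map (CommRingCat.ofHom φ) =
      awayι ℬ (f x) (f.2 hx) hd ≫ Proj.toSpecZero ℬ ≫
        Spec.map (CommRingCat.ofHom ψ) := by
    intro d hd x hx
    rw [awayι_comp_map_assoc f hf hd x hx, awayι_toSpecZero_assoc, awayι_toSpecZero_assoc,
      ← Spec.map_comp, ← Spec.map_comp, ← Spec.map_comp]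
    congr 1
    ext r
    simp only [CommRingCat.hom_comp, CommRingCat.hom_ofHom, RingHom.comp_apply]
    have h1 : fromZeroRingHom 𝒜 (Submonoid.powers x) (φ r) =
        .mk ⟨0, φ r, 1, one_mem _⟩ := rfl
    have h2 : fromZeroRingHom ℬ (Submonoid.powers (f x)) (ψ r) =
        .mk ⟨0, ψ r, 1, one_mem _⟩ := rfl
    rw [h1, h2]
    change HomogeneousLocalization.val (HomogeneousLocalization.map f _ _) = _
    rw [HomogeneousLocalization.map_mk]
    simp only [HomogeneousLocalization.val_mk]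
    congr 1
    · exact hk r
    · ext
      simp
  refine (Proj.mapAffineOpenCover f hf).openCover.hom_ext _ _ fun s ↦ ?_
  obtain ⟨⟨d, hd⟩, ⟨x, hx⟩⟩ := s
  exact key d hd x hx

/-- The graded map `k[x₀, …, xₙ] → A`. -/
theorem exists_gradedMap' (k : CommRingCat.{0}) {A σ : Type} [CommRing A]
    [SetLike σ A] [AddSubgroupClass σ A] (𝒜 : ℕ → σ) [GradedRing 𝒜] (φ : k →+* 𝒜 0) (n : ℕ)
    (g : Fin (n + 1) → A) (hg : ∀ i, g i ∈ 𝒜 1)
    (hgen : Subring.closure (Set.range (fun c => (φ c : A)) ∪ Set.range g) = ⊤) :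
    ∃ f : (MvPolynomial.homogeneousSubmodule (Fin (n + 1)) k) →+*ᵍ 𝒜,
      (∀ r : k, f (algebraMap k _ r) = φ r) ∧
      ∀ i, ∀ b ∈ 𝒜 i, ∃ a ∈ MvPolynomial.homogeneousSubmodule (Fin (n + 1)) k i, f a = b := by
  let φ' : k →+* A := (SetLike.GradeZero.subring 𝒜).subtype.comp φ
  have hφ' : ∀ c, φ' c = (φ c : A) := fun c ↦ rfl
  have hmem : ∀ {i : ℕ} {p : MvPolynomial (Fin (n + 1)) k},
      p ∈ MvPolynomial.homogeneousSubmodule (Fin (n + 1)) k i →
        MvPolynomial.eval₂Hom φ' g p ∈ 𝒜 i := by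
    intro i p hp
    rw [MvPolynomial.mem_homogeneousSubmodule] at hp
    rw [MvPolynomial.coe_eval₂Hom, MvPolynomial.eval₂_eq']
    refine sum_mem fun m hm ↦ ?_
    have hdeg := hp (MvPolynomial.mem_support_iff.1 hm)
    have h1 : ∏ j, g j ^ m j ∈ 𝒜 (∑ j, m j • 1) :=
      SetLike.prod_pow_mem_graded 𝒜 _ _ _ fun j _ ↦ hg j
    have h2 : ∑ j, m j • 1 = i := by
      rw [← hdeg, Finsupp.weight_apply, Finsupp.sum_fintype]
      · simp
      · simp
    rw [h2] at h1
    have h3 := SetLike.mul_mem_graded (φ (MvPolynomial.coeff m p)).2 h1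
    rwa [zero_add] at h3
  let f : (MvPolynomial.homogeneousSubmodule (Fin (n + 1)) k) →+*ᵍ 𝒜 :=
    { (MvPolynomial.eval₂Hom φ' g : MvPolynomial (Fin (n + 1)) k →+* A) with
      map_mem := fun {i x} hx ↦ hmem hx }
  have hfa : ∀ p, f p = MvPolynomial.eval₂Hom φ' g p := fun p ↦ rfl
  refine ⟨f, ?_, ?_⟩
  · intro r
    rw [hfa, MvPolynomial.algebraMap_eq, MvPolynomial.coe_eval₂Hom, MvPolynomial.eval₂_C]
    exact hφ' r
  · intro i b hb
    have hsurj : Function.Surjective
        (MvPolynomial.eval₂Hom φ' g : MvPolynomial (Fin (n + 1)) k →+* A) := by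
      rw [← RingHom.range_eq_top, ← top_le_iff, ← hgen, Subring.closure_le]
      rintro _ (⟨c, rfl⟩ | ⟨j, rfl⟩)
      · exact ⟨MvPolynomial.C c, by
          rw [MvPolynomial.coe_eval₂Hom, MvPolynomial.eval₂_C]; exact hφ' c⟩
      · exact ⟨MvPolynomial.X j, by simp⟩
    obtain ⟨p, rfl⟩ := hsurj b
    refine ⟨MvPolynomial.homogeneousComponent i p, ?_, ?_⟩
    · rw [MvPolynomial.mem_homogeneousSubmodule]
      exact MvPolynomial.homogeneousComponent_isHomogeneous i p
    · rw [hfa]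
      have h1 : (DirectSum.decompose 𝒜 (MvPolynomial.eval₂Hom φ' g p) i : A) =
          MvPolynomial.eval₂Hom φ' g p :=
        DirectSum.decompose_of_mem_same 𝒜 hb
      have h2 : MvPolynomial.eval₂Hom φ' g p =
          ∑ j ∈ Finset.range (p.totalDegree + 1),
            MvPolynomial.eval₂Hom φ' g (MvPolynomial.homogeneousComponent j p) := by
        rw [← map_sum, MvPolynomial.sum_homogeneousComponent]
      have h3 : (DirectSum.decompose 𝒜 (MvPolynomial.eval₂Hom φ' g p) i : A) =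
          MvPolynomial.eval₂Hom φ' g (MvPolynomial.homogeneousComponent i p) := by
        rw [h2, DirectSum.decompose_sum, DFinsupp.finsetSum_apply, AddSubmonoidClass.coe_finsetSum]
        rw [Finset.sum_eq_single i]
        · exact DirectSum.decompose_of_mem_same 𝒜
            (hmem ((MvPolynomial.mem_homogeneousSubmodule _ _).2
              (MvPolynomial.homogeneousComponent_isHomogeneous i p)))
        · intro j _ hji
          exact DirectSum.decompose_of_mem_ne 𝒜
            (hmem ((MvPolynomial.mem_homogeneousSubmodule _ _).2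
              (MvPolynomial.homogeneousComponent_isHomogeneous j p))) hji
        · intro hi
          rw [Finset.mem_range, not_lt] at hi
          rw [MvPolynomial.homogeneousComponent_eq_zero i p (by omega)]
          simp
      rw [← h3, h1]

/-- Piece C: `Proj` of a graded algebra generated by finitely many elements of degree one is a
closed subscheme of projective space. -/
theorem exists_closedImmersion_projSpace' (k : CommRingCat.{0}) {A σ : Type} [CommRing A]
    [SetLike σ A] [AddSubgroupClass σ A] (𝒜 : ℕ → σ) [GradedRing 𝒜] (φ : k →+* 𝒜 0) (n : ℕ)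
    (g : Fin (n + 1) → A) (hg : ∀ i, g i ∈ 𝒜 1)
    (hgen : Subring.closure (Set.range (fun c => (φ c : A)) ∪ Set.range g) = ⊤) :
    ∃ i : Proj 𝒜 ⟶ ProjSpace k n, IsClosedImmersion i ∧
      i ≫ ProjSpace.str k n = Proj.toSpecZero 𝒜 ≫ Spec.map (CommRingCat.ofHom φ) := by
  obtain ⟨f, hk, hs⟩ := exists_gradedMap' k 𝒜 φ n g hg hgen
  have hf := irrelevant_le_map_of_surj f hs
  exact ⟨Proj.map f hf, isClosedImmersion_map f hs hf, map_comp_str' k _ 𝒜 _ φ f hf hk⟩

end Flexible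

section Alg

theorem map_comp_str (k : CommRingCat.{0}) {A B : Type} [CommRing A] [CommRing B]
    [Algebra k A] [Algebra k B] (𝒜 : ℕ → Submodule k A) (ℬ : ℕ → Submodule k B)
    [GradedAlgebra 𝒜] [GradedAlgebra ℬ] (f : 𝒜 →+*ᵍ ℬ)
    (hf : HomogeneousIdeal.irrelevant ℬ ≤ (HomogeneousIdeal.irrelevant 𝒜).map f)
    (hk : ∀ r : k, f (algebraMap k A r) = algebraMap k B r) :
    Proj.map f hf ≫ Proj.toSpecZero 𝒜 ≫
        Spec.map (CommRingCat.ofHom (algebraMap k (𝒜 0))) =
      Proj.toSpecZero ℬ ≫ Spec.map (CommRingCat.ofHom (algebraMap k (ℬ 0))) := by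
  have key : ∀ (d : ℕ) (hd : 0 < d) (x : A) (hx : x ∈ 𝒜 d),
      awayι ℬ (f x) (f.2 hx) hd ≫ Proj.map f hf ≫ Proj.toSpecZero 𝒜 ≫
        Spec.map (CommRingCat.ofHom (algebraMap k (𝒜 0))) =
      awayι ℬ (f x) (f.2 hx) hd ≫ Proj.toSpecZero ℬ ≫
        Spec.map (CommRingCat.ofHom (algebraMap k (ℬ 0))) := by
    intro d hd x hx
    rw [awayι_comp_map_assoc f hf hd x hx, awayι_toSpecZero_assoc, awayι_toSpecZero_assoc,
      ← Spec.map_comp, ← Spec.map_comp, ← Spec.map_comp]
    congr 1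
    ext r
    simp only [CommRingCat.hom_comp, CommRingCat.hom_ofHom, RingHom.comp_apply]
    have h1 : fromZeroRingHom 𝒜 (Submonoid.powers x) (algebraMap k (𝒜 0) r) =
        .mk ⟨0, algebraMap k (𝒜 0) r, 1, one_mem _⟩ := rfl
    have h2 : fromZeroRingHom ℬ (Submonoid.powers (f x)) (algebraMap k (ℬ 0) r) =
        .mk ⟨0, algebraMap k (ℬ 0) r, 1, one_mem _⟩ := rfl
    rw [h1, h2]
    change HomogeneousLocalization.val (HomogeneousLocalization.map f _ _) = _
    rw [HomogeneousLocalization.map_mk]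
    simp only [HomogeneousLocalization.val_mk]
    congr 1
    · exact hk r
    · ext
      simp
  refine (Proj.mapAffineOpenCover f hf).openCover.hom_ext _ _ fun s ↦ ?_
  obtain ⟨⟨d, hd⟩, ⟨x, hx⟩⟩ := s
  exact key d hd x hx

end Alg

/-- The graded map `k[x₀, …, xₙ] → A`. -/
theorem exists_gradedMap (k : CommRingCat.{0}) {A : Type} [CommRing A]
    [Algebra k A] (𝒜 : ℕ → Submodule k A) [GradedAlgebra 𝒜] (n : ℕ) (g : Fin (n + 1) → A)
    (hg : ∀ i, g i ∈ 𝒜 1) (hgen : Algebra.adjoin k (Set.range g) = ⊤) :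
    ∃ f : (MvPolynomial.homogeneousSubmodule (Fin (n + 1)) k) →+*ᵍ 𝒜,
      (∀ r : k, f (algebraMap k _ r) = algebraMap k A r) ∧
      ∀ i, ∀ b ∈ 𝒜 i, ∃ a ∈ MvPolynomial.homogeneousSubmodule (Fin (n + 1)) k i, f a = b := by
  have hmem : ∀ {i : ℕ} {p : MvPolynomial (Fin (n + 1)) k},
      p ∈ MvPolynomial.homogeneousSubmodule (Fin (n + 1)) k i → MvPolynomial.aeval g p ∈ 𝒜 i := by
    intro i p hp
    rw [MvPolynomial.mem_homogeneousSubmodule] at hp
    rw [MvPolynomial.aeval_def, MvPolynomial.eval₂_eq']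
    refine Submodule.sum_mem _ fun m hm ↦ ?_
    rw [← Algebra.smul_def]
    refine Submodule.smul_mem _ _ ?_
    have hdeg := hp (MvPolynomial.mem_support_iff.1 hm)
    have h1 : ∏ j, g j ^ m j ∈ 𝒜 (∑ j, m j • 1) :=
      SetLike.prod_pow_mem_graded 𝒜 _ _ _ fun j _ ↦ hg j
    have h2 : ∑ j, m j • 1 = i := by
      rw [← hdeg, Finsupp.weight_apply, Finsupp.sum_fintype]
      · simp
      · simp
    rwa [h2] at h1
  let f : (MvPolynomial.homogeneousSubmodule (Fin (n + 1)) k) →+*ᵍ 𝒜 :=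
    { (MvPolynomial.aeval g : MvPolynomial (Fin (n + 1)) k →ₐ[k] A).toRingHom with
      map_mem := fun {i x} hx ↦ hmem hx }
  have hfa : ∀ p, f p = MvPolynomial.aeval g p := fun p ↦ rfl
  refine ⟨f, ?_, ?_⟩
  · intro r
    rw [hfa]
    exact AlgHom.commutes _ r
  · intro i b hb
    have hsurj : Function.Surjective
        (MvPolynomial.aeval g : MvPolynomial (Fin (n + 1)) k →ₐ[k] A) := by
      rw [← AlgHom.range_eq_top, ← Algebra.adjoin_range_eq_range_aeval]
      exact hgen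
    obtain ⟨p, rfl⟩ := hsurj b
    refine ⟨MvPolynomial.homogeneousComponent i p, ?_, ?_⟩
    · rw [MvPolynomial.mem_homogeneousSubmodule]
      exact MvPolynomial.homogeneousComponent_isHomogeneous i p
    · rw [hfa]
      have h1 : (DirectSum.decompose 𝒜 (MvPolynomial.aeval g p) i : A) = MvPolynomial.aeval g p :=
        DirectSum.decompose_of_mem_same 𝒜 hb
      have h2 : MvPolynomial.aeval g p =
          ∑ j ∈ Finset.range (p.totalDegree + 1),
            MvPolynomial.aeval g (MvPolynomial.homogeneousComponent j p) := by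
        rw [← map_sum, MvPolynomial.sum_homogeneousComponent]
      have h3 : (DirectSum.decompose 𝒜 (MvPolynomial.aeval g p) i : A) =
          MvPolynomial.aeval g (MvPolynomial.homogeneousComponent i p) := by
        rw [h2, DirectSum.decompose_sum, DFinsupp.finsetSum_apply, AddSubmonoidClass.coe_finsetSum]
        rw [Finset.sum_eq_single i]
        · exact DirectSum.decompose_of_mem_same 𝒜
            (hmem ((MvPolynomial.mem_homogeneousSubmodule _ _).2
              (MvPolynomial.homogeneousComponent_isHomogeneous i p)))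
        · intro j _ hji
          exact DirectSum.decompose_of_mem_ne 𝒜
            (hmem ((MvPolynomial.mem_homogeneousSubmodule _ _).2
              (MvPolynomial.homogeneousComponent_isHomogeneous j p))) hji
        · intro hi
          rw [Finset.mem_range, not_lt] at hi
          rw [MvPolynomial.homogeneousComponent_eq_zero i p (by omega)]
          simp
      rw [← h3, h1]

/-- Piece C: `Proj` of a graded algebra generated by finitely many elements of degree one is a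
closed subscheme of projective space. -/
theorem exists_closedImmersion_projSpace (k : CommRingCat.{0}) {A : Type} [CommRing A]
    [Algebra k A] (𝒜 : ℕ → Submodule k A) [GradedAlgebra 𝒜] (n : ℕ) (g : Fin (n + 1) → A)
    (hg : ∀ i, g i ∈ 𝒜 1) (hgen : Algebra.adjoin k (Set.range g) = ⊤) :
    ∃ i : Proj 𝒜 ⟶ ProjSpace k n, IsClosedImmersion i ∧
      i ≫ ProjSpace.str k n =
        Proj.toSpecZero 𝒜 ≫ Spec.map (CommRingCat.ofHom (algebraMap k (𝒜 0))) := by
  obtain ⟨f, hk, hs⟩ := exists_gradedMap k 𝒜 n g hg hgen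
  have hf := irrelevant_le_map_of_surj f hs
  exact ⟨Proj.map f hf, isClosedImmersion_map f hs hf, map_comp_str k _ 𝒜 f hf hk⟩

end Pool.Agent.MP_4d8271_ag
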