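import Pool.Agent.MP_4d8271_ag.Global
import Pool.Agent.MP_4d8271_ag.PieceC

open AlgebraicGeometry CategoryTheory CategoryTheory.Limits Polynomial

namespace Pool.Agent.MP_4d8271_ag

attribute [local instance] MvPolynomial.gradedAlgebra

section General

/-- Every morphism to an affine scheme factors through `toSpecΓ`. -/
lemma eq_toSpecΓ_comp {X : Scheme.{0}} {R : CommRingCat.{0}} (f : X ⟶ Spec R) :
    f = X.toSpecΓ ≫ Spec.map ((Scheme.ΓSpecIso R).inv ≫ f.appTop) := by
  rw [Spec.map_comp, ← Scheme.toSpecΓ_naturality_assoc, toSpecΓ_SpecMap_ΓSpecIso_inv,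
    Category.comp_id]

end General

variable {k K : Type} [Field k] [Field K] [Algebra k K] {V : Submodule k K}

/-- The map `𝒜₀ → Γ(X, 𝒪)`. -/
noncomputable def sig (V : Submodule k K) : CommRingCat.of (secGr V 0) ⟶ Γ(PX V, ⊤) :=
  (Scheme.ΓSpecIso (.of (secGr V 0))).inv ≫ (Proj.toSpecZero (secGr V)).appTop

lemma toSpecZero_eq : Proj.toSpecZero (secGr V) = (PX V).toSpecΓ ≫ Spec.map (sig V) :=
  eq_toSpecΓ_comp _

lemma sig_res {c : K} (hcV : c ∈ V) :
    sig V ≫ (PX V).presheaf.map (homOfLE (le_top : Dc c hcV ≤ ⊤)).op =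
      CommRingCat.ofHom (HomogeneousLocalization.fromZeroRingHom (secGr V) _) ≫
        Proj.awayToSection (secGr V) (el c hcV) := by
  apply Spec.map_injective
  have : IsIso (Dc c hcV).toSpecΓ := by
    rw [← IsAffineOpen.isoSpec_hom (isAffineOpen_Dc c hcV)]
    infer_instance
  rw [← cancel_epi (Dc c hcV).toSpecΓ]
  rw [Spec.map_comp, Scheme.Opens.toSpecΓ_SpecMap_presheaf_map_top_assoc, ← toSpecZero_eq,
    Spec.map_comp, ← Proj.awayι_toSpecZero (secGr V) (el c hcV) (el_mem c hcV) one_pos,
    Proj.awayι]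
  simp only [Category.assoc]
  have h : (Dc c hcV).toSpecΓ ≫ Spec.map (Proj.awayToSection (secGr V) (el c hcV)) =
    (Proj.basicOpenIsoSpec (secGr V) (el c hcV) (el_mem c hcV) one_pos).hom := rfl
  rw [reassoc_of% h, Iso.hom_inv_id_assoc]

section
variable [IsIntegral (PX V)] (h1 : (1 : K) ∈ V)

instance : Nonempty (⊤ : (PX V).Opens) := ⟨⟨genericPoint (PX V), trivial⟩⟩

/-- Global sections to `K`. -/
noncomputable def glob : Γ(PX V, ⊤) →+* K :=
  (toK h1).comp ((PX V).germToFunctionField ⊤).hom

lemma glob_injective : Function.Injective (glob h1) := by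
  refine (toK_injective h1).comp ?_
  exact (PX V).germToFunctionField_injective _

lemma glob_sig (a : secGr V 0) : glob h1 ((sig V).hom a) = ev V a := by
  have hne := nonempty_Dc h1 h1 one_ne_zero
  have h := congr($(sig_res (V := V) h1).hom a)
  have h2 : (PX V).germToFunctionField (Dc 1 h1)
      (((PX V).presheaf.map (homOfLE (le_top : Dc 1 h1 ≤ ⊤)).op).hom ((sig V).hom a)) =
      (PX V).germToFunctionField ⊤ ((sig V).hom a) :=
    (PX V).presheaf.germ_res_apply _ _ _ _
  rw [glob, RingHom.comp_apply]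
  erw [← h2]
  simp only [CommRingCat.hom_comp, CommRingCat.hom_ofHom, RingHom.comp_apply] at h
  rw [h, toK_germ h1 (el 1 h1) (el_mem 1 h1) (by simp)]
  have h3 : HomogeneousLocalization.fromZeroRingHom (secGr V) (Submonoid.powers (el 1 h1)) a =
      HomogeneousLocalization.Away.mk (secGr V) (el_mem 1 h1) 0 a.1 (by simp) := by
    ext
    rw [HomogeneousLocalization.Away.val_mk]
    rfl
  rw [h3, evAway_mk, pow_zero, div_one]

/-- Global sections lie in all chart algebras. -/
lemma glob_mem_chartA {c : K} (hcV : c ∈ V) (hc : c ≠ 0) (s : Γ(PX V, ⊤)) :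
    glob h1 s ∈ chartA V c := by
  have hne := nonempty_Dc h1 hcV hc
  have h2 : (PX V).germToFunctionField (Dc c hcV)
      (((PX V).presheaf.map (homOfLE (le_top : Dc c hcV ≤ ⊤)).op).hom s) =
      (PX V).germToFunctionField ⊤ s :=
    (PX V).presheaf.germ_res_apply _ _ _ _
  have h3 := germ_mem_chartF h1 hcV hc
    (((PX V).presheaf.map (homOfLE (le_top : Dc c hcV ≤ ⊤)).op).hom s)
  rw [h2] at h3
  exact h3

/-- The constants `k → 𝒜₀`. -/
noncomputable def toZero (V : Submodule k K) : k →+* secGr V 0 :=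
  algebraMap k (secGr V 0)

omit [IsIntegral (PX V)] in
lemma ev_toZero (x : k) : ev V (toZero V x) = algebraMap k K x := by
  change Polynomial.eval 1 (algebraMap k K[X] x) = _
  rw [Polynomial.algebraMap_apply, Polynomial.eval_C]

omit [IsIntegral (PX V)] in
lemma toZero_bijective : Function.Bijective (toZero V) := by
  constructor
  · intro x y hxy
    have h := congrArg (fun a : secGr V 0 => ev V a) hxy
    simp only [ev_toZero] at h
    exact (algebraMap k K).injective h
  · intro a
    have h := eq_mono_of_mem V a.2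
    have h2 := a.1.2 0
    rw [pow_zero] at h2
    obtain ⟨x, hx⟩ := Submodule.mem_one.mp h2
    refine ⟨x, Subtype.ext ?_⟩
    have h3 : ((toZero V x : secGr V 0) : secAlg V) - a ∈ secGr V 0 :=
      sub_mem (toZero V x).2 a.2
    rw [← sub_eq_zero]
    refine ev_injOn V h3 ?_
    rw [map_sub, ev_toZero, hx, h, ev_mono, coe_mono, Polynomial.coeff_monomial, if_pos rfl,
      sub_self]

/-- `k ≅ Γ(X, 𝒪)` as soon as the chart algebras of `1` and some `c` meet in `k`. -/
lemma glob_range {c : K} (hcV : c ∈ V) (hc : c ≠ 0)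
    (h : ∀ g, g ∈ chartA V 1 → g ∈ chartA V c → ∃ x : k, algebraMap k K x = g) (s : Γ(PX V, ⊤)) :
    ∃ x : k, algebraMap k K x = glob h1 s :=
  h _ (glob_mem_chartA h1 h1 one_ne_zero s) (glob_mem_chartA h1 hcV hc s)

lemma sig_bijective (h : ∀ s : Γ(PX V, ⊤), ∃ x : k, algebraMap k K x = glob h1 s) :
    Function.Bijective (sig V).hom := by
  constructor
  · rw [injective_iff_map_eq_zero]
    intro a ha
    have h2 := glob_sig h1 a
    rw [ha, map_zero] at h2
    exact Subtype.ext (ev_injOn V a.2 h2.symm)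
  · intro s
    obtain ⟨x, hx⟩ := h s
    refine ⟨toZero V x, glob_injective h1 ?_⟩
    rw [glob_sig, ev_toZero, hx]

/-- The isomorphism `k ≅ Γ(X, 𝒪)`. -/
noncomputable def constEquiv (h : ∀ s : Γ(PX V, ⊤), ∃ x : k, algebraMap k K x = glob h1 s) :
    k ≃+* Γ(PX V, ⊤) :=
  (RingEquiv.ofBijective (toZero V) toZero_bijective).trans
    (RingEquiv.ofBijective (sig V).hom (sig_bijective h1 h))

lemma glob_constEquiv (h : ∀ s : Γ(PX V, ⊤), ∃ x : k, algebraMap k K x = glob h1 s) (x : k) :
    glob h1 (constEquiv h1 h x) = algebraMap k K x := by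
  rw [← ev_toZero (V := V)]
  exact glob_sig h1 _

omit [IsIntegral (PX V)] in
lemma mono_mem_subring (S : Subring (secAlg V)) (h0 : ∀ x : k, (toZero V x : secAlg V) ∈ S)
    (h : ∀ (v : K) (hv : v ∈ V), el v hv ∈ S) {n : ℕ} (a : K) (ha : a ∈ V ^ n) :
    mono V n a ha ∈ S := by
  induction n generalizing a with
  | zero =>
    obtain ⟨x, hx⟩ := toZero_bijective.2 ⟨mono V 0 a ha, mono_mem V 0 a ha⟩
    have := h0 x
    rw [hx] at this
    exact this
  | succ n ih =>
    have ha' := ha
    rw [pow_succ'] at ha'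
    refine Submodule.mul_induction_on'
      (C := fun a _ => ∀ ha : a ∈ V ^ (n + 1), mono V (n + 1) a ha ∈ S) ?_ ?_ ha' ha
    · intro x hx y hy hxy
      have : mono V (n + 1) (x * y) hxy = el x hx * mono V n y hy := by
        apply Subtype.ext
        rw [MulMemClass.coe_mul, coe_mono, el, coe_mono, coe_mono, monomial_mul_monomial, add_comm]
      rw [this]
      exact mul_mem (h x hx) (ih y hy)
    · intro x hx y hy h1 h2 hxy
      rw [← pow_succ'] at hx hy
      have : mono V (n + 1) (x + y) hxy = mono V (n + 1) x hx + mono V (n + 1) y hy := by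
        apply Subtype.ext
        rw [AddMemClass.coe_add, coe_mono, coe_mono, coe_mono, map_add]
      rw [this]
      exact add_mem (h1 hx) (h2 hy)

omit [IsIntegral (PX V)] in
lemma eq_top_of_mem (S : Subring (secAlg V)) (h0 : ∀ x : k, (toZero V x : secAlg V) ∈ S)
    (h : ∀ (v : K) (hv : v ∈ V), el v hv ∈ S) : S = ⊤ := by
  classical
  rw [eq_top_iff]
  intro f _
  rw [← DirectSum.sum_support_decompose (secGr V) f]
  refine sum_mem fun n _ => ?_
  rw [eq_mono_of_mem V (DirectSum.decompose (secGr V) f n).2]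
  exact mono_mem_subring S h0 h _ _

omit [IsIntegral (PX V)] in
lemma el_mem_subring (S : Subring (secAlg V)) (h0 : ∀ x : k, (toZero V x : secAlg V) ∈ S)
    {ι : Type} (b : ι → V) (hb : Submodule.span k (Set.range b) = ⊤)
    (h : ∀ i, el (b i : K) (b i).2 ∈ S) (v : K) (hv : v ∈ V) : el v hv ∈ S := by
  have key : ∀ v : V, el (v : K) v.2 ∈ S := by
    intro v
    have hv : v ∈ Submodule.span k (Set.range b) := hb ▸ Submodule.mem_top
    refine Submodule.span_induction ?_ ?_ ?_ ?_ hv
    · rintro _ ⟨i, rfl⟩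
      exact h i
    · have : el ((0 : V) : K) (0 : V).2 = 0 := by
        apply Subtype.ext
        simp [el]
      rw [this]
      exact zero_mem S
    · intro x y _ _ hx hy
      have : el ((x + y : V) : K) (x + y).2 = el (x : K) x.2 + el (y : K) y.2 := by
        apply Subtype.ext
        simp [el]
      rw [this]
      exact add_mem hx hy
    · intro a x _ hx
      have : el ((a • x : V) : K) (a • x).2 = toZero V a * el (x : K) x.2 := by
        apply Subtype.ext
        rw [MulMemClass.coe_mul]
        change monomial 1 ((a • x : V) : K) = (algebraMap k K[X] a) * monomial 1 (x : K)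
        rw [Polynomial.algebraMap_apply, C_mul_monomial, Submodule.coe_smul, Algebra.smul_def]
      rw [this]
      exact mul_mem (h0 a) hx
  exact key ⟨v, hv⟩

/-- `X` is a projective variety over `k = Γ(X, 𝒪)`. -/
theorem isProjectiveVariety_PX [Module.Finite k V]
    (h : ∀ s : Γ(PX V, ⊤), ∃ x : k, algebraMap k K x = glob h1 s) :
    IsProjectiveVariety (PX V) where
  isIntegral := inferInstance
  isField := MulEquiv.isField (Field.toIsField k) (constEquiv h1 h).symm.toMulEquiv
  projective := by
    obtain ⟨n, b, hb⟩ := Module.Finite.exists_fin (R := k) (M := V)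
    let g : Fin (n + 1) → V := Fin.cons 0 b
    have hg : Submodule.span k (Set.range g) = ⊤ := by
      rw [eq_top_iff, ← hb, Submodule.span_le]
      rintro _ ⟨i, rfl⟩
      exact Submodule.subset_span ⟨i.succ, rfl⟩
    let E := RingEquiv.ofBijective (sig V).hom (sig_bijective h1 h)
    obtain ⟨i, hi, hi'⟩ := exists_closedImmersion_projSpace' (Γ(PX V, ⊤)) (secGr V)
      E.symm.toRingHom n (fun j => el (g j : K) (g j).2) (fun j => el_mem _ _) (by
        have h0 : ∀ x : k, (toZero V x : secAlg V) ∈ Subring.closure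
            ((Set.range fun c => ((E.symm.toRingHom c : secGr V 0) : secAlg V)) ∪
              Set.range fun j => el (g j : K) (g j).2) := by
          intro x
          refine Subring.subset_closure (Or.inl ⟨E (toZero V x), ?_⟩)
          simp
        refine eq_top_of_mem _ h0 (el_mem_subring _ h0 g hg fun j => ?_)
        exact Subring.subset_closure (Or.inr ⟨j, rfl⟩))
    refine ⟨n, i, hi, ?_⟩
    rw [hi', toSpecZero_eq, Category.assoc, ← Spec.map_comp]
    have : CommRingCat.ofHom E.symm.toRingHom ≫ sig V = 𝟙 _ := by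
      ext s
      exact E.apply_symm_apply s
    rw [this, Spec.map_id]
    exact Category.comp_id _

end

lemma fg_of_equiv {R S : Type} [CommRing R] [CommRing S] (e : R ≃+* S)
    (h : ∃ s : Finset R, ∀ c : R, ∃ p ∈ Subring.closure (s : Set R),
      ∃ q ∈ Subring.closure (s : Set R), q ≠ 0 ∧ c * q = p) :
    ∃ s : Finset S, ∀ c : S, ∃ p ∈ Subring.closure (s : Set S),
      ∃ q ∈ Subring.closure (s : Set S), q ≠ 0 ∧ c * q = p := by
  classical
  obtain ⟨s, hs⟩ := h
  have key : ∀ p ∈ Subring.closure (s : Set R), e p ∈ Subring.closure (s.image e : Set S) := by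
    intro p hp
    have : e.toRingHom p ∈ (Subring.closure (s : Set R)).map e.toRingHom :=
      Subring.mem_map.mpr ⟨p, hp, rfl⟩
    rw [RingHom.map_closure] at this
    simpa using this
  refine ⟨s.image e, fun c => ?_⟩
  obtain ⟨p, hp, q, hq, hq0, hpq⟩ := hs (e.symm c)
  refine ⟨e p, key p hp, e q, key q hq, ?_, ?_⟩
  · exact (map_ne_zero_iff e e.injective).mpr hq0
  · rw [← hpq, map_mul, e.apply_symm_apply]

end Pool.Agent.MP_4d8271_ag
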