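import Pool.Agent.MP_4d8271_ag.Defs

namespace Pool.Agent.MP_4d8271_ag

/-! Piece A2 -/

/-- change of basis for top forms -/
theorem ιMulti_eq_det_smul {F Ω : Type} [Field F] [AddCommGroup Ω] [Module F Ω] {ι : Type}
    [Fintype ι] [DecidableEq ι] (b : Module.Basis ι F Ω) (w : ι → Ω) {n : ℕ} (e : Fin n ≃ ι) :
    (exteriorPower.ιMulti F n fun i => w (e i) : Form F Ω n) =
      b.det w • exteriorPower.ιMulti F n fun i => b (e i) := by
  let f : Ω [⋀^ι]→ₗ[F] Form F Ω n :=
    (exteriorPower.ιMulti F n).domDomCongr e
  have hf : ∀ u : ι → Ω, f u = exteriorPower.ιMulti F n fun i => u (e i) :=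
    fun u => rfl
  let g : Ω [⋀^ι]→ₗ[F] Form F Ω n :=
    (LinearMap.toSpanSingleton F (Form F Ω n) (f b)).compAlternatingMap b.det
  have hg : ∀ u : ι → Ω, g u = b.det u • f b := fun u => rfl
  have key : f = g := by
    refine Module.Basis.ext_alternating b fun v hv => ?_
    have hbij : Function.Bijective v := Finite.injective_iff_bijective.mp hv
    let σ : Equiv.Perm ι := Equiv.ofBijective v hbij
    have h1 : (fun i => b (v i)) = b ∘ σ := rfl
    rw [h1, hg, AlternatingMap.map_perm, AlternatingMap.map_perm, Module.Basis.det_self]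
    simp
  have h := congrArg (fun u : Ω [⋀^ι]→ₗ[F] Form F Ω n => u w) key
  simp only [hf, hg] at h
  exact h

theorem ιMulti_ne_zero {F Ω : Type} [Field F] [AddCommGroup Ω] [Module F Ω] {ι : Type}
    [Fintype ι] [DecidableEq ι] (b : Module.Basis ι F Ω) {n : ℕ} (e : Fin n ≃ ι) :
    (exteriorPower.ιMulti F n fun i => b (e i) : Form F Ω n) ≠ 0 := by
  intro h
  have h1 := congrArg
    (exteriorPower.alternatingMapLinearEquiv (b.det.domDomCongr e.symm)) h
  rw [exteriorPower.alternatingMapLinearEquiv_apply_ιMulti, map_zero,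
    AlternatingMap.domDomCongr_apply] at h1
  have h3 : (fun i => (fun j => b (e j)) (e.symm i)) = b := by
    funext i
    simp
  have h4 : (b.det fun i => (fun j => b (e j)) (e.symm i)) = 0 := h1
  rw [h3, b.det_self] at h4
  exact one_ne_zero h4

/-- If `R ∋ v i`, the `d(v i)` form a basis of `Ω` and every `da`, `a ∈ R`, is an `R`-combination
of the `d(v i)`, then the lattice of regular top forms is free with generator
`⋀ d(v (e i))`. -/
theorem formLattice_eq_span {F Ω : Type} [Field F] [AddCommGroup Ω] [Module F Ω] {ι : Type}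
    [Fintype ι] [DecidableEq ι] (D : F → Ω)
    (b : Module.Basis ι F Ω) (v : ι → F)
    (hb : ∀ i, b i = D (v i)) (R : Subring F) (hvR : ∀ i, v i ∈ R)
    (hR : ∀ a ∈ R, D a ∈ Submodule.span R (Set.range fun i => D (v i)))
    {n : ℕ} (e : Fin n ≃ ι) :
    formLattice D n R = Submodule.span R {exteriorPower.ιMulti F n fun i => b (e i)} := by
  apply le_antisymm
  · refine Submodule.span_le.mpr ?_
    rintro _ ⟨a, rfl⟩
    let w : ι → Ω := fun j => D (a (e.symm j) : F)
    have h1 : (fun i => D (a i : F)) = fun i => w (e i) := by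
      ext i
      simp [w]
    have h2 := ιMulti_eq_det_smul b w e
    have h3 : ∀ i j, b.toMatrix w i j ∈ R := by
      intro i j
      have h4 := hR (a (e.symm j)) (a (e.symm j)).2
      rw [Submodule.mem_span_range_iff_exists_fun] at h4
      obtain ⟨c, hc⟩ := h4
      rw [Module.Basis.toMatrix_apply]
      have h5 : w j = ∑ i, (c i : F) • b i := by
        refine hc.symm.trans (Finset.sum_congr rfl fun i _ => ?_)
        rw [hb]
        rfl
      rw [h5, map_sum, Finsupp.finsetSum_apply]
      refine sum_mem fun l _ => ?_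
      rw [map_smul, Finsupp.smul_apply, Module.Basis.repr_self, smul_eq_mul]
      refine mul_mem (c l).2 ?_
      rw [Finsupp.single_apply]
      split_ifs
      · exact one_mem R
      · exact zero_mem R
    have h6 : b.det w ∈ R := by
      rw [Module.Basis.det_apply, Matrix.det_apply]
      refine sum_mem fun σ _ => ?_
      have h7 : ∏ i, b.toMatrix w (σ i) i ∈ R := prod_mem fun i _ => h3 _ _
      rcases Int.units_eq_one_or (Equiv.Perm.sign σ) with h | h
      · rw [h, one_smul]
        exact h7
      · rw [h, Units.neg_smul, one_smul]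
        exact neg_mem h7
    change exteriorPower.ιMulti F n (fun i => D (a i : F)) ∈
      Submodule.span R {exteriorPower.ιMulti F n fun i => b (e i)}
    rw [h1, h2]
    exact Submodule.mem_span_singleton.mpr ⟨⟨b.det w, h6⟩, rfl⟩
  · rw [Submodule.span_singleton_le_iff_mem]
    refine Submodule.subset_span ⟨fun i => ⟨v (e i), hvR _⟩, ?_⟩
    have h1 : (fun i => D (v (e i))) = fun i => b (e i) := by
      funext i
      exact (hb (e i)).symm
    change exteriorPower.ιMulti F n (fun i => b (e i)) =
      exteriorPower.ιMulti F n fun i => D (v (e i))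
    rw [h1]

end Pool.Agent.MP_4d8271_ag
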