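import Pool.Agent.MP_4d8271_ag.PieceA1

open MvPolynomial

namespace Pool.Agent.MP_4d8271_ag

/-! Piece Alg5: number of generators of the kernel of `δ` -/

namespace Frame

namespace Alg5

variable {N : ℕ} {k' K' : Type} [Field k'] [Field K'] [Algebra (ZMod 2) k'] [Algebra k' K']
variable (S : Frame N k' K')

include S in
lemma two_eq_zero : (2 : K') = 0 := by
  have : CharP k' 2 := charP_of_injective_algebraMap (algebraMap (ZMod 2) k').injective 2
  have : CharP K' 2 := charP_of_injective_algebraMap (algebraMap k' K').injective 2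
  exact CharTwo.two_eq_zero

include S in
lemma add_self (x : K') : x + x = 0 := by
  rw [← two_mul, two_eq_zero S, zero_mul]

include S in
/-- derivations kill squares -/
lemma der_sq (d : Derivation ℤ K' K') (x : K') : d (x ^ 2) = 0 := by
  rw [pow_two, Derivation.leibniz, add_self S]

/-- `δ (f i) = 0` -/
lemma δ_f (i : ℕ) (hi : i ≤ N) : S.δ (S.f i) = 0 := by
  induction i with
  | zero =>
    unfold Frame.f
    rw [S.W_zero, S.B_zero, map_one, map_zero, mul_zero, add_zero, mul_one, Derivation.leibniz,
      S.δX, S.δY, smul_zero, smul_zero, add_zero]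
  | succ i ih =>
    have h := ih (by omega)
    have hW := S.W_succ ⟨i, by omega⟩
    have hB := S.B_succ ⟨i, by omega⟩
    have he := S.δe ⟨i, by omega⟩
    change S.W (i + 1) = _ * S.W i at hW
    change S.B (i + 1) = _ * S.B i + _ * S.W i ^ 2 + _ * S.B i ^ 2 at hB
    change _ = S.X * S.Y * algebraMap k' K' (S.W i) + S.Y ^ 2 * algebraMap k' K' (S.B i) at he
    set e := algebraMap k' K' (S.v (.e ⟨i, by omega⟩)) with hedef
    set s := algebraMap k' K' (S.v .s) with hs
    set t := algebraMap k' K' (S.v .t) with ht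
    set w := algebraMap k' K' (S.W i) with hw
    set u := algebraMap k' K' (S.B i) with hu
    have e1 : S.f (i + 1) = e * S.f i + S.Y ^ 2 * (s * w ^ 2 + t * u ^ 2) := by
      unfold Frame.f
      rw [hW, hB]
      simp only [map_add, map_mul, map_pow]
      rw [← hedef, ← hs, ← ht, ← hw, ← hu]
      ring
    rw [e1, map_add, Derivation.leibniz, h, Derivation.leibniz, der_sq S, map_add,
      Derivation.leibniz, Derivation.leibniz, der_sq S, der_sq S, he, S.δs, S.δt]
    simp only [smul_eq_mul, mul_zero, zero_add, add_zero]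
    have e2 : S.f i * (S.X * S.Y * w + S.Y ^ 2 * u) +
        S.Y ^ 2 * (w ^ 2 * S.X ^ 2 + u ^ 2 * S.Y ^ 2) =
        2 * ((S.X * S.Y * w) ^ 2 + (S.Y ^ 2 * u) ^ 2 + S.X * S.Y * w * (S.Y ^ 2 * u)) := by
      unfold Frame.f
      rw [← hw, ← hu]
      ring
    rw [e2, two_eq_zero S, zero_mul]

/-- the square of `δ`, a derivation in characteristic two -/
noncomputable def sqDer : Derivation ℤ K' K' where
  toFun x := S.δ (S.δ x)
  map_add' x y := by rw [map_add, map_add]
  map_smul' c x := by
    change S.δ (S.δ (c • x)) = c • S.δ (S.δ x)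
    rw [Derivation.map_smul, Derivation.map_smul]
  map_one_eq_zero' := by
    change S.δ (S.δ 1) = 0
    rw [Derivation.map_one_eq_zero, map_zero]
  leibniz' x y := by
    change S.δ (S.δ (x * y)) = x • S.δ (S.δ y) + y • S.δ (S.δ x)
    rw [Derivation.leibniz, map_add, smul_eq_mul, smul_eq_mul, Derivation.leibniz,
      Derivation.leibniz]
    simp only [smul_eq_mul]
    have h := add_self S (S.δ x * S.δ y)
    linear_combination h

lemma δ_δ (g : K') : S.δ (S.δ g) = 0 := by
  have h : sqDer S = 0 := by
    apply derivation_eq_of_gens S.v S.gen ![S.X, S.Y] S.genXY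
    · intro i
      fin_cases i
      · change S.δ (S.δ S.X) = 0
        rw [S.δX, map_zero]
      · change S.δ (S.δ S.Y) = 0
        rw [S.δY, map_zero]
    · intro i
      change S.δ (S.δ (algebraMap k' K' (S.v i))) = 0
      cases i with
      | r => rw [S.δr, Derivation.map_one_eq_zero]
      | s => rw [S.δs, der_sq S]
      | t => rw [S.δt, der_sq S]
      | e i =>
        rw [S.δe]
        exact δ_f S i i.2.le
  exact congrArg (fun d : Derivation ℤ K' K' => d g) h

/-- A derivation which kills generators of the kernel of `δ` kills the kernel. -/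
lemma der_ker {n : ℕ} (g : Fin n → K')
    (hg : ∀ c : K', S.δ c = 0 → ∃ p q : MvPolynomial (Fin n) (sq k'),
      aeval g q ≠ 0 ∧ c = aeval g p / aeval g q)
    (d : Derivation ℤ K' K') (hd : ∀ i, d (g i) = 0) (c : K') (hc : S.δ c = 0) : d c = 0 := by
  have hp : ∀ p : MvPolynomial (Fin n) (sq k'), d (aeval g p) = 0 := by
    intro p
    induction p using MvPolynomial.induction_on with
    | C a =>
      rw [MvPolynomial.aeval_C]
      obtain ⟨b, hb⟩ := mem_sq.mp a.2
      have e1 : algebraMap (sq k') K' a = (algebraMap k' K' b) ^ 2 := by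
        rw [← map_pow, ← hb]
        rfl
      rw [e1, der_sq S]
    | add p q hp hq => rw [map_add, map_add, hp, hq, add_zero]
    | mul_X p i hp =>
      rw [map_mul, aeval_X, Derivation.leibniz, hp, hd, smul_zero, smul_zero, add_zero]
  obtain ⟨p, q, hq, rfl⟩ := hg c hc
  rw [Derivation.leibniz_div, hp, hp, smul_zero, smul_zero, sub_zero, smul_zero]

/-- A derivation which kills the kernel of `δ` and `r` is zero. -/
lemma der_eq_zero (d : Derivation ℤ K' K') (hd : ∀ c, S.δ c = 0 → d c = 0)
    (hr : d (algebraMap k' K' (S.v .r)) = 0) (f : K') : d f = 0 := by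
  set r := algebraMap k' K' (S.v .r) with hrdef
  have h1 : S.δ (f + r * S.δ f) = 0 := by
    rw [map_add, Derivation.leibniz, δ_δ, S.δr, smul_zero, zero_add, smul_eq_mul, mul_one,
      add_self S]
  have h2 := hd _ h1
  rw [map_add, Derivation.leibniz, hr, smul_zero, add_zero, hd _ (δ_δ S f), smul_zero,
    add_zero] at h2
  exact h2

end Alg5

variable {N : ℕ} {k' K' : Type} [Field k'] [Field K'] [Algebra (ZMod 2) k'] [Algebra k' K']
variable (S : Frame N k' K')

open Alg5 in
/-- sharper form of `le_of_generators` -/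
theorem add_four_le_of_generators {n : ℕ} (g : Fin n → K')
    (hg : ∀ c : K', S.δ c = 0 → ∃ p q : MvPolynomial (Fin n) (sq k'),
      aeval g q ≠ 0 ∧ c = aeval g p / aeval g q) : N + 4 ≤ n := by
  obtain ⟨b, hb⟩ := exists_basis_kaehler_sum S.v S.indep S.gen ![S.X, S.Y] S.indepXY S.genXY
  have : Module.Finite K' (KaehlerDifferential ℤ K') := Module.Finite.of_basis b
  let Φ : Module.Dual K' (KaehlerDifferential ℤ K') →ₗ[K'] (Option (Fin n) → K') :=
    LinearMap.pi fun o => LinearMap.applyₗ (o.elim
      (KaehlerDifferential.D ℤ K' (algebraMap k' K' (S.v .r)))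
      (fun i => KaehlerDifferential.D ℤ K' (g i)))
  have hinj : Function.Injective Φ := by
    rw [injective_iff_map_eq_zero]
    intro ℓ hℓ
    have h0 : ℓ (KaehlerDifferential.D ℤ K' (algebraMap k' K' (S.v .r))) = 0 := congrFun hℓ none
    have h1 : ∀ i, ℓ (KaehlerDifferential.D ℤ K' (g i)) = 0 := fun i => congrFun hℓ (some i)
    have h2 : ∀ f, ℓ (KaehlerDifferential.D ℤ K' f) = 0 := by
      intro f
      exact der_eq_zero S (ℓ.compDer (KaehlerDifferential.D ℤ K'))
        (der_ker S g hg (ℓ.compDer (KaehlerDifferential.D ℤ K')) h1) h0 f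
    apply b.ext
    intro i
    rw [hb, h2]
    rfl
  have h3 := LinearMap.finrank_le_finrank_of_injective hinj
  rw [Subspace.dual_finrank_eq, Module.finrank_eq_card_basis b, Module.finrank_pi,
    Fintype.card_sum, card_Var, Fintype.card_option, Fintype.card_fin, Fintype.card_fin] at h3
  omega

theorem le_of_generators {n : ℕ} (g : Fin n → K') (hδ : ∀ i, S.δ (g i) = 0)
    (hg : ∀ c : K', S.δ c = 0 → ∃ p q : MvPolynomial (Fin n) (sq k'),
      aeval g q ≠ 0 ∧ c = aeval g p / aeval g q) : N + 2 ≤ n := by
  have _ := hδ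
  have h := S.add_four_le_of_generators g hg
  omega

end Frame

end Pool.Agent.MP_4d8271_ag
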