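import Pool.Agent.MP_4d8271_ag.Fano
import Pool.Agent.MP_4d8271_ag.Glob2
import Pool.Agent.MP_4d8271_ag.AlgAll
import Pool.Agent.MP_4d8271_ag.PieceAlg5
import Pool.Agent.MP_4d8271_ag.PieceA2
import Pool.Agent.MP_4d8271_ag.Bound

open AlgebraicGeometry CategoryTheory CategoryTheory.Limits MvPolynomial

namespace Pool.Agent.MP_4d8271_ag

section
variable {k K : Type} [Field k] [Field K] [Algebra k K] {V : Submodule k K}
variable [IsIntegral (PX V)] (h1 : (1 : K) ∈ V)

lemma exists_toK_eq {c : K} (hcV : c ∈ V) (hc : c ≠ 0) {g : K} (hg : g ∈ chartA V c) :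
    ∃ u : (PX V).functionField, toK h1 u = g := by
  have := nonempty_Dc h1 hcV hc
  have hf0 : ev V (el c hcV) ≠ 0 := by simpa using hc
  obtain ⟨a, ha⟩ := exists_evAway_eq hcV hc hf0 hg
  refine ⟨(PX V).germToFunctionField (Dc c hcV)
      ((Proj.awayToSection (secGr V) (el c hcV)).hom a), ?_⟩
  rw [toK_germ h1 (el c hcV) (el_mem c hcV) hf0, ha]

end

namespace Frame

variable {N : ℕ} {k' K' : Type} [Field k'] [Field K'] [Algebra (ZMod 2) k'] [Algebra k' K']
variable (S : Frame N k' K')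

theorem X_ne : S.X ≠ 0 := by
  have h := S.indepXY.ne_zero 0
  simpa using h

theorem Y_ne : S.Y ≠ 0 := by
  have h := S.indepXY.ne_zero 1
  simpa using h

/-- The del Pezzo surface. -/
noncomputable abbrev dP : Scheme.{0} := PX S.V

instance isIntegral_dP : IsIntegral S.dP := isIntegral_PX (ne_bot_of_one_mem S.one_mem_V)

/-- The function field inside `K'`. -/
noncomputable abbrev j : S.dP.functionField →+* K' := toK S.one_mem_V

theorem chartA_eq (c : K') : chartA S.V c = S.chart c := rfl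

theorem chartF_eq (c : K') : chartF S.one_mem_V c = (S.chart c).toSubring.comap S.j := rfl

/-- the three sections `1, X², Y²` -/
def cc : Fin 3 → K' := ![1, S.X ^ 2, S.Y ^ 2]

theorem cc_mem (i : Fin 3) : S.cc i ∈ S.V := by
  fin_cases i
  · exact S.one_mem_V
  · exact S.X_sq_mem_V
  · exact S.Y_sq_mem_V

theorem cc_ne (i : Fin 3) : S.cc i ≠ 0 := by
  fin_cases i
  · exact one_ne_zero
  · exact pow_ne_zero 2 S.X_ne
  · exact pow_ne_zero 2 S.Y_ne

/-- The three charts. -/
noncomputable def U (i : Fin 3) : S.dP.Opens := Dc (S.cc i) (S.cc_mem i)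

theorem isAffineOpen_U (i : Fin 3) : IsAffineOpen (S.U i) := isAffineOpen_Dc _ _

theorem iSup_U : ⨆ i, S.U i = ⊤ := by
  refine iSup_Dc_eq_top S.cc S.cc_mem ?_
  intro v hv
  obtain ⟨a, ha, b, hb, c, hc, h⟩ := S.sq_mem_of_mem_V v hv
  refine ⟨![a, b, c], ?_, ?_⟩
  · intro i
    fin_cases i
    · exact ha
    · exact hb
    · exact hc
  · rw [h, Fin.sum_univ_three]
    rfl

theorem exists_mem_U (x : S.dP) : ∃ i, x ∈ S.U i := by
  have h : x ∈ ⨆ i, S.U i := S.iSup_U ▸ TopologicalSpace.Opens.mem_top x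
  exact TopologicalSpace.Opens.mem_iSup.mp h

theorem isIntegrallyClosed_chart (i : Fin 3) : IsIntegrallyClosed (S.chart (S.cc i)) := by
  fin_cases i
  · exact S.isIntegrallyClosed_chart_one
  · exact S.isIntegrallyClosed_chart_X
  · exact S.isIntegrallyClosed_chart_Y

theorem isIntegrallyClosed_stalk_dP (x : S.dP) : IsIntegrallyClosed (S.dP.presheaf.stalk x) := by
  obtain ⟨i, hi⟩ := S.exists_mem_U x
  exact isIntegrallyClosed_stalk S.one_mem_V (S.cc_mem i) (S.cc_ne i)
    (S.isIntegrallyClosed_chart i) hi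

theorem ringKrullDim_chart (i : Fin 3) : ringKrullDim (S.chart (S.cc i)) = 2 := by
  fin_cases i
  · exact S.ringKrullDim_chart_one
  · exact S.ringKrullDim_chart_X
  · exact S.ringKrullDim_chart_Y

theorem topologicalKrullDim_dP : topologicalKrullDim S.dP = (2 : ℕ) := by
  refine topologicalKrullDim_eq_of_cover S.U S.isAffineOpen_U S.iSup_U 2 fun i => ?_
  exact (ringKrullDim_eq_of_ringEquiv (secEquiv (S.cc_mem i) (S.cc_ne i))).trans
    (S.ringKrullDim_chart i)

theorem glob_range_dP (s : Γ(S.dP, ⊤)) :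
    ∃ x : sq k', algebraMap (sq k') K' x = glob S.one_mem_V s :=
  glob_range S.one_mem_V S.X_sq_mem_V (pow_ne_zero 2 S.X_ne)
    (fun g h1 h2 => S.chart_inf g h1 h2) s

theorem isProjectiveVariety_dP : IsProjectiveVariety S.dP :=
  haveI := S.finite_V
  isProjectiveVariety_PX S.one_mem_V S.glob_range_dP

include S in
theorem fg_sq : ∃ s : Finset (sq k'), ∀ c : sq k', ∃ p ∈ Subring.closure (s : Set (sq k')),
    ∃ q ∈ Subring.closure (s : Set (sq k')), q ≠ 0 ∧ c * q = p := by
  classical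
  let w : Var N → sq k' := fun i => ⟨S.v i ^ 2, mem_sq.mpr ⟨_, rfl⟩⟩
  have key : ∀ p : MvPolynomial (Var N) (ZMod 2), ∃ a ∈ Subring.closure (Set.range w),
      (a : k') = aeval (fun i => S.v i ^ 2) p := by
    intro p
    induction p using MvPolynomial.induction_on with
    | C a =>
      obtain ⟨n, rfl⟩ := ZMod.natCast_zmod_surjective a
      refine ⟨(n : sq k'), natCast_mem _ n, ?_⟩
      simp
    | add p q hp hq =>
      obtain ⟨a, ha, ha'⟩ := hp
      obtain ⟨b, hb, hb'⟩ := hq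
      exact ⟨a + b, add_mem ha hb, by rw [map_add, ← ha', ← hb']; rfl⟩
    | mul_X p i hp =>
      obtain ⟨a, ha, ha'⟩ := hp
      refine ⟨a * w i, mul_mem ha (Subring.subset_closure ⟨i, rfl⟩), ?_⟩
      rw [map_mul, aeval_X, ← ha']
      rfl
  refine ⟨Finset.univ.image w, fun c => ?_⟩
  obtain ⟨p, q, hq, hc⟩ := S.sq_fg c
  obtain ⟨a, ha, ha'⟩ := key p
  obtain ⟨b, hb, hb'⟩ := key q
  have hs : ((Finset.univ.image w : Finset (sq k')) : Set (sq k')) = Set.range w := by simp
  rw [hs]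
  refine ⟨a, ha, b, hb, ?_, ?_⟩
  · rintro rfl
    exact hq (by rw [← hb']; rfl)
  · apply Subtype.ext
    change (c : k') * (b : k') = a
    rw [hc, ha', hb', div_mul_cancel₀ _ hq]

theorem δ_eq_zero_of_mem_chart_one {g : K'} (hg : g ∈ S.chart 1) : S.δ g = 0 :=
  ((S.mem_chart_one g).mp hg).1

theorem mem_range_j (g : K') : g ∈ S.j.range ↔ S.δ g = 0 := by
  have hne : Nonempty (Dc (V := S.V) 1 S.one_mem_V) := nonempty_Dc S.one_mem_V S.one_mem_V one_ne_zero
  constructor
  · rintro ⟨f, rfl⟩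
    have hfr := functionField_isFractionRing_of_isAffineOpen (X := S.dP)
      (Dc 1 S.one_mem_V) (isAffineOpen_Dc _ _)
    obtain ⟨a, b, hb, rfl⟩ := IsFractionRing.div_surjective (A := Γ(S.dP, Dc 1 S.one_mem_V)) f
    have h1 := germ_mem_chartF S.one_mem_V S.one_mem_V one_ne_zero a
    have h2 := germ_mem_chartF S.one_mem_V S.one_mem_V one_ne_zero b
    have h3 := S.δ_eq_zero_of_mem_chart_one h1
    have h4 := S.δ_eq_zero_of_mem_chart_one h2
    rw [map_div₀, Derivation.leibniz_div]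
    have h5 : S.δ (S.j (algebraMap _ S.dP.functionField a)) = 0 := h3
    have h6 : S.δ (S.j (algebraMap _ S.dP.functionField b)) = 0 := h4
    rw [h5, h6]
    simp
  · intro hg
    obtain ⟨a, ha, b, hb, hb0, rfl⟩ := S.exists_div_of_δ_eq_zero g hg
    obtain ⟨u, hu⟩ := exists_toK_eq S.one_mem_V S.one_mem_V one_ne_zero ha
    obtain ⟨w, hw⟩ := exists_toK_eq S.one_mem_V S.one_mem_V one_ne_zero hb
    exact ⟨u / w, by rw [map_div₀, hu, hw]⟩

/-- the sections `1, X, Y` -/
def cK : Fin 3 → K' := ![1, S.X, S.Y]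

theorem cK_ne (i : Fin 3) : S.cK i ≠ 0 := by
  fin_cases i
  · exact one_ne_zero
  · exact S.X_ne
  · exact S.Y_ne

theorem cK_sq (i : Fin 3) : S.cK i ^ 2 = S.cc i := by
  fin_cases i
  · exact one_pow 2
  · rfl
  · rfl

theorem X_mem_chart_one : S.X ∈ S.chart 1 :=
  (S.mem_chart_one _).mpr ⟨S.δX, Algebra.subset_adjoin (by simp)⟩

theorem Y_mem_chart_one : S.Y ∈ S.chart 1 :=
  (S.mem_chart_one _).mpr ⟨S.δY, Algebra.subset_adjoin (by simp)⟩

theorem δ_div_eq_zero {a b : K'} (ha : S.δ a = 0) (hb : S.δ b = 0) : S.δ (a / b) = 0 := by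
  rw [Derivation.leibniz_div, ha, hb]
  simp

theorem cK_div_mem (i l : Fin 3) : S.cK l / S.cK i ∈ S.chart (S.cc i) := by
  have hδ1 : S.δ (1 : K') = 0 := S.δ.map_one_eq_zero
  have h : ∀ a : K', a = 1 → a ∈ S.chart (S.cc i) := by
    rintro a rfl
    exact one_mem _
  by_cases hil : i = l
  · subst hil
    exact h _ (div_self (S.cK_ne i))
  · fin_cases i <;> fin_cases l
    · exact absurd rfl hil
    · change S.X / 1 ∈ S.chart 1
      rw [div_one]
      exact S.X_mem_chart_one
    · change S.Y / 1 ∈ S.chart 1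
      rw [div_one]
      exact S.Y_mem_chart_one
    · change 1 / S.X ∈ S.chart (S.X ^ 2)
      exact (S.mem_chart_X _).mpr ⟨S.δ_div_eq_zero hδ1 S.δX, Algebra.subset_adjoin (by simp)⟩
    · exact absurd rfl hil
    · change S.Y / S.X ∈ S.chart (S.X ^ 2)
      exact (S.mem_chart_X _).mpr ⟨S.δ_div_eq_zero S.δY S.δX, Algebra.subset_adjoin (by simp)⟩
    · change 1 / S.Y ∈ S.chart (S.Y ^ 2)
      exact (S.mem_chart_Y _).mpr ⟨S.δ_div_eq_zero hδ1 S.δY, Algebra.subset_adjoin (by simp)⟩
    · change S.X / S.Y ∈ S.chart (S.Y ^ 2)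
      exact (S.mem_chart_Y _).mpr ⟨S.δ_div_eq_zero S.δX S.δY, Algebra.subset_adjoin (by simp)⟩
    · exact absurd rfl hil

/-- the coordinates on the chart `i` -/
def vv : Fin 3 → AVar N → K' := ![S.vz, S.vx, S.vy]

theorem chart_eq_adjoin (i : Fin 3) :
    S.chart (S.cc i) = Algebra.adjoin (sq k') (Set.range (S.vv i)) := by
  fin_cases i
  · exact S.chart_one_eq_adjoin
  · exact S.chart_X_eq_adjoin
  · exact S.chart_Y_eq_adjoin

end Frame

theorem isUnitIn_sq_iff {F : Type} [Field F] {R : Subring F} {g : F} (hg : g ∈ R) :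
    IsUnitIn R (g ^ 2) ↔ IsUnitIn R g := by
  constructor
  · rintro ⟨h0, -, h2⟩
    have hg0 : g ≠ 0 := by
      rintro rfl
      simp at h0
    refine ⟨hg0, hg, ?_⟩
    have : g⁻¹ = g * (g ^ 2)⁻¹ := by field_simp
    rw [this]
    exact mul_mem hg h2
  · rintro ⟨h0, h1, h2⟩
    exact ⟨pow_ne_zero 2 h0, pow_mem h1 2, by rw [← inv_pow]; exact pow_mem h2 2⟩

namespace Frame

variable {N : ℕ} {k' K' : Type} [Field k'] [Field K'] [Algebra (ZMod 2) k'] [Algebra k' K']
variable (S : Frame N k' K')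

/-- uniform version of the coordinates -/
theorem exists_coords_uniform : ∃ (w : Fin 3 → AVar N → S.dP.functionField)
    (b : Fin 3 → Module.Basis (AVar N) S.dP.functionField (KaehlerDifferential ℤ S.dP.functionField))
    (c : Fin 3 → S.dP.functionField),
    (∀ i l, S.j (w i l) = S.vv i l) ∧ (∀ i, S.j (c i) = S.cK i) ∧
    (∀ i l, b i l = KaehlerDifferential.D ℤ _ (w i l)) ∧
    (∀ i, (b 0).det (b i) = (c i)⁻¹) ∧
    (∀ i a, S.j a ∈ S.chart (S.cc i) → KaehlerDifferential.D ℤ _ a ∈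
        Submodule.span ((S.chart (S.cc i)).toSubring.comap S.j)
          (Set.range fun l => KaehlerDifferential.D ℤ _ (w i l))) := by
  obtain ⟨vz, vx, vy, b, x, y, hz, hx, hy, hxX, hyY, hb, hdx, hdy, h1, h2, h3⟩ :=
    exists_coords S S.j S.mem_range_j
  have hx0 : x ≠ 0 := by
    rintro rfl
    rw [map_zero] at hxX
    exact S.X_ne hxX.symm
  have hy0 : y ≠ 0 := by
    rintro rfl
    rw [map_zero] at hyY
    exact S.Y_ne hyY.symm
  have hbx := (Module.Basis.is_basis_iff_det b (v := fun i => KaehlerDifferential.D ℤ _ (vx i))).mpr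
    (by rw [hdx]; exact (inv_ne_zero hx0).isUnit)
  have hby := (Module.Basis.is_basis_iff_det b (v := fun i => KaehlerDifferential.D ℤ _ (vy i))).mpr
    (by rw [hdy]; exact (inv_ne_zero hy0).isUnit)
  refine ⟨![vz, vx, vy], ![b, Module.Basis.mk hbx.1 hbx.2.ge, Module.Basis.mk hby.1 hby.2.ge],
    ![1, x, y], ?_, ?_, ?_, ?_, ?_⟩
  · intro i l
    fin_cases i
    · exact hz l
    · exact hx l
    · exact hy l
  · intro i
    fin_cases i
    · exact map_one _
    · exact hxX
    · exact hyY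
  · intro i l
    fin_cases i
    · exact hb l
    · exact Module.Basis.mk_apply hbx.1 hbx.2.ge l
    · exact Module.Basis.mk_apply hby.1 hby.2.ge l
  · intro i
    fin_cases i
    · change b.det b = 1⁻¹
      rw [Module.Basis.det_self, inv_one]
    · change b.det (Module.Basis.mk hbx.1 hbx.2.ge) = x⁻¹
      rw [Module.Basis.coe_mk, hdx]
    · change b.det (Module.Basis.mk hby.1 hby.2.ge) = y⁻¹
      rw [Module.Basis.coe_mk, hdy]
  · intro i
    fin_cases i
    · exact h1
    · exact h2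
    · exact h3

theorem exists_fanoData : Nonempty (FanoData S.dP (KaehlerDifferential.D ℤ S.dP.functionField)
    (topDegree S.dP.functionField)) := by
  classical
  obtain ⟨w, b, c, hw, hc, hb, hdet, hspan⟩ := S.exists_coords_uniform
  have hc0 : ∀ i, c i ≠ 0 := by
    intro i h
    have := hc i
    rw [h, map_zero] at this
    exact S.cK_ne i this.symm
  have hle : ∀ i, ∀ y ∈ S.U i, chartF S.one_mem_V (S.cc i) ≤ localRing S.dP y :=
    fun i y hy => chartF_le_localRing S.one_mem_V (S.cc_mem i) (S.cc_ne i) hy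
  have hmem : ∀ i l, ∀ y ∈ S.U i, c l / c i ∈ localRing S.dP y := by
    intro i l y hy
    refine hle i y hy ?_
    change S.j (c l / c i) ∈ S.chart (S.cc i)
    rw [map_div₀, hc, hc]
    exact S.cK_div_mem i l
  let e : Fin (topDegree S.dP.functionField) ≃ AVar N :=
    (Fintype.equivFinOfCardEq (Module.finrank_eq_card_basis (b 0)).symm).symm
  let θ : Fin 3 → Form S.dP.functionField (KaehlerDifferential ℤ S.dP.functionField)
      (topDegree S.dP.functionField) := fun i => exteriorPower.ιMulti _ _ fun l => b i (e l)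
  refine ⟨{
    D := S.U
    affine := S.isAffineOpen_U
    cover := S.exists_mem_U
    c := c
    c_ne := hc0
    mem := hmem
    unit := ?_
    ω := θ 0
    ω_ne := ιMulti_ne_zero (b 0) e
    θ := θ
    reg := ?_
    hω := ?_ }⟩
  · intro i l y hy
    rw [← isUnitIn_sq_iff (hmem i l y hy)]
    refine mem_Dc_iff S.one_mem_V (S.cc_mem i) (S.cc_ne i) (S.cc_mem l) (S.cc_ne l) hy ?_
    change S.j ((c l / c i) ^ 2) = _
    rw [map_pow, map_div₀, hc, hc, div_pow, cK_sq, cK_sq]
  · intro i y hy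
    refine formLattice_eq_span _ (b i) (w i) (hb i) (localRing S.dP y) ?_ ?_ e
    · intro l
      refine hle i y hy ?_
      change S.j (w i l) ∈ S.chart (S.cc i)
      rw [hw, chart_eq_adjoin]
      exact Algebra.subset_adjoin ⟨l, rfl⟩
    · intro a ha
      exact D_mem_span_of_div (chartF S.one_mem_V (S.cc i)) (localRing S.dP y) (hle i y hy)
        (fun g hg => exists_div_chartF S.one_mem_V (S.cc_mem i) (S.cc_ne i) hy hg)
        (fun l => KaehlerDifferential.D ℤ _ (w i l)) (fun a ha => hspan i a ha) a ha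
  · intro i
    have h := ιMulti_eq_det_smul (b 0) (b i) e
    rw [hdet] at h
    change θ i = (c i)⁻¹ • θ 0 at h
    rw [h, smul_smul, mul_inv_cancel₀ (hc0 i), one_smul]

theorem dP_mem (ε : ℚ) (hε : ε < 1) : S.dP ∈ epsKltFano 2 ε := by
  refine ⟨S.isProjectiveVariety_dP, ?_, S.isIntegrallyClosed_stalk_dP, S.topologicalKrullDim_dP, ?_⟩
  · exact fg_of_equiv (constEquiv S.one_mem_V S.glob_range_dP) S.fg_sq
  · obtain ⟨d⟩ := S.exists_fanoData
    exact d.hasFanoCanonicalDivisor ε hε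

end Frame

end Pool.Agent.MP_4d8271_ag
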