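import Pool.Agent.MP_4d8271_ag.FunField

open AlgebraicGeometry CategoryTheory CategoryTheory.Limits Polynomial

namespace Pool.Agent.MP_4d8271_ag

variable {k K : Type} [Field k] [Field K] [Algebra k K] {V : Submodule k K}

/-- The chart algebra `k[V / c]`. -/
def chartA (V : Submodule k K) (c : K) : Subalgebra k K :=
  Algebra.adjoin k {g | ∃ a ∈ V, g = a / c}

lemma div_pow_mem_chartA {c : K} (hc : c ≠ 0) {n : ℕ} {a : K} (ha : a ∈ V ^ n) :
    a / c ^ n ∈ chartA V c := by
  induction n generalizing a with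
  | zero =>
    rw [pow_zero] at ha
    obtain ⟨x, rfl⟩ := Submodule.mem_one.mp ha
    rw [pow_zero, div_one]
    exact (chartA V c).algebraMap_mem x
  | succ n ih =>
    rw [pow_succ] at ha
    refine Submodule.mul_induction_on ha ?_ ?_
    · intro x hx y hy
      have : x * y / c ^ (n + 1) = (x / c ^ n) * (y / c) := by
        rw [pow_succ]; field_simp
      rw [this]
      exact mul_mem (ih hx) (Algebra.subset_adjoin ⟨y, hy, rfl⟩)
    · intro x y hx hy
      rw [add_div]
      exact add_mem hx hy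

lemma mem_chartA_iff {c : K} (hcV : c ∈ V) (hc : c ≠ 0) (g : K) :
    g ∈ chartA V c ↔ ∃ n : ℕ, ∃ a ∈ V ^ n, g = a / c ^ n := by
  constructor
  · intro hg
    refine Algebra.adjoin_induction ?_ ?_ ?_ ?_ hg
    · rintro x ⟨a, ha, rfl⟩
      exact ⟨1, a, by simpa using ha, by simp⟩
    · intro r
      exact ⟨0, algebraMap k K r, by rw [pow_zero]; exact Submodule.mem_one.mpr ⟨r, rfl⟩, by simp⟩
    · rintro x y - - ⟨n, a, ha, rfl⟩ ⟨m, b, hb, rfl⟩
      refine ⟨n + m, a * c ^ m + b * c ^ n, ?_, ?_⟩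
      · rw [pow_add]
        refine add_mem (Submodule.mul_mem_mul ha (Submodule.pow_mem_pow _ hcV m)) ?_
        rw [mul_comm b]
        exact Submodule.mul_mem_mul (Submodule.pow_mem_pow _ hcV n) hb
      · rw [pow_add]; field_simp
    · rintro x y - - ⟨n, a, ha, rfl⟩ ⟨m, b, hb, rfl⟩
      refine ⟨n + m, a * b, ?_, ?_⟩
      · rw [pow_add]
        exact Submodule.mul_mem_mul ha hb
      · rw [pow_add]; field_simp
  · rintro ⟨n, a, ha, rfl⟩
    exact div_pow_mem_chartA hc ha

lemma evAway_mem_chartA {c : K} (hcV : c ∈ V) (hc : c ≠ 0) (hf0 : ev V (el c hcV) ≠ 0)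
    (x : HomogeneousLocalization.Away (secGr V) (el c hcV)) :
    evAway V (el c hcV) hf0 x ∈ chartA V c := by
  obtain ⟨n, a, ha, rfl⟩ := HomogeneousLocalization.Away.mk_surjective _ (el_mem c hcV) x
  rw [evAway_mk V _ hf0 (el_mem c hcV), ev_el]
  rw [nsmul_one, Nat.cast_id] at ha
  rw [eq_mono_of_mem V ha, ev_mono]
  exact div_pow_mem_chartA hc (a.2 n)

lemma exists_evAway_eq {c : K} (hcV : c ∈ V) (hc : c ≠ 0) (hf0 : ev V (el c hcV) ≠ 0)
    {g : K} (hg : g ∈ chartA V c) :
    ∃ x : HomogeneousLocalization.Away (secGr V) (el c hcV), evAway V (el c hcV) hf0 x = g := by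
  obtain ⟨n, a, ha, rfl⟩ := (mem_chartA_iff hcV hc g).mp hg
  have h : mono V n a ha ∈ secGr V (n • 1) := by
    rw [nsmul_one, Nat.cast_id]
    exact mono_mem V n a ha
  refine ⟨HomogeneousLocalization.Away.mk _ (el_mem c hcV) n (mono V n a ha) h, ?_⟩
  rw [evAway_mk V _ hf0 (el_mem c hcV), ev_el, ev_mono]

/-- The open set `D₊(cT)`. -/
noncomputable abbrev Dc (c : K) (hcV : c ∈ V) : (PX V).Opens := Proj.basicOpen (secGr V) (el c hcV)

lemma isAffineOpen_Dc (c : K) (hcV : c ∈ V) : IsAffineOpen (Dc c hcV) :=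
  Proj.isAffineOpen_basicOpen (secGr V) (el c hcV) (el_mem c hcV) one_pos

lemma nonempty_Dc (h1 : (1 : K) ∈ V) {c : K} (hcV : c ∈ V) (hc : c ≠ 0) :
    Nonempty (Dc c hcV) :=
  nonempty_basicOpen (ne_bot_of_one_mem h1) (by simpa using hc)

section
variable [IsIntegral (PX V)] (h1 : (1 : K) ∈ V)

/-- the chart algebra inside the function field -/
noncomputable def chartF (c : K) : Subring (PX V).functionField :=
  (chartA V c).toSubring.comap (toK h1)

lemma toK_injective : Function.Injective (toK h1) := (toK h1).injective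

lemma germ_mem_chartF {c : K} (hcV : c ∈ V) (hc : c ≠ 0) [Nonempty (Dc c hcV)]
    (s : Γ(PX V, Dc c hcV)) :
    (PX V).germToFunctionField (Dc c hcV) s ∈ chartF h1 c := by
  have hf0 : ev V (el c hcV) ≠ 0 := by simpa using hc
  obtain ⟨a, rfl⟩ : ∃ a, (Proj.awayToSection (secGr V) (el c hcV)).hom a = s := by
    refine ⟨(Proj.basicOpenIsoAway (secGr V) (el c hcV) (el_mem c hcV) one_pos).inv.hom s, ?_⟩
    rw [← Proj.basicOpenIsoAway_hom (secGr V) (el c hcV) (el_mem c hcV) one_pos]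
    exact (Proj.basicOpenIsoAway (secGr V) (el c hcV) (el_mem c hcV) one_pos).inv_hom_id_apply s
  change toK h1 _ ∈ chartA V c
  rw [toK_germ h1 (el c hcV) (el_mem c hcV) hf0]
  exact evAway_mem_chartA hcV hc hf0 a

lemma exists_germ_eq_of_mem_chartF {c : K} (hcV : c ∈ V) (hc : c ≠ 0) [Nonempty (Dc c hcV)]
    {g : (PX V).functionField} (hg : g ∈ chartF h1 c) :
    ∃ s : Γ(PX V, Dc c hcV), (PX V).germToFunctionField (Dc c hcV) s = g := by
  have hf0 : ev V (el c hcV) ≠ 0 := by simpa using hc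
  obtain ⟨a, ha⟩ := exists_evAway_eq hcV hc hf0 (show toK h1 g ∈ chartA V c from hg)
  refine ⟨(Proj.awayToSection (secGr V) (el c hcV)).hom a, toK_injective h1 ?_⟩
  rw [toK_germ h1 (el c hcV) (el_mem c hcV) hf0, ha]

end

end Pool.Agent.MP_4d8271_ag
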