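import Pool.Agent.MP_4d8271_ag.Frame

open MvPolynomial

namespace Pool.Agent.MP_4d8271_ag

namespace Frame

variable {N : ℕ} {k' K' : Type} [Field k'] [Field K'] [Algebra (ZMod 2) k'] [Algebra k' K']
variable (S : Frame N k' K')

/-- coordinates on the chart `c = 1` -/
def vz : AVar N → K'
  | .inl 0 => S.X
  | .inl 1 => S.Y
  | .inr .r => algebraMap k' K' (S.v .r) ^ 2
  | .inr .s => algebraMap k' K' (S.v .s) + algebraMap k' K' (S.v .r) * S.X ^ 2
  | .inr .t => algebraMap k' K' (S.v .t) + algebraMap k' K' (S.v .r) * S.Y ^ 2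
  | .inr (.e i) => algebraMap k' K' (S.v (.e i)) + algebraMap k' K' (S.v .r) * S.f i

/-- coordinates on the chart `c = X²` -/
def vx : AVar N → K'
  | .inl 0 => 1 / S.X
  | .inl 1 => S.Y / S.X
  | .inr .r => algebraMap k' K' (S.v .s) ^ 2
  | .inr .s => algebraMap k' K' (S.v .r) + algebraMap k' K' (S.v .s) / S.X ^ 2
  | .inr .t => algebraMap k' K' (S.v .t) + algebraMap k' K' (S.v .s) * S.Y ^ 2 / S.X ^ 2
  | .inr (.e i) => algebraMap k' K' (S.v (.e i)) + algebraMap k' K' (S.v .s) * S.f i / S.X ^ 2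

/-- coordinates on the chart `c = Y²` -/
def vy : AVar N → K'
  | .inl 0 => S.X / S.Y
  | .inl 1 => 1 / S.Y
  | .inr .r => algebraMap k' K' (S.v .t) ^ 2
  | .inr .s => algebraMap k' K' (S.v .s) + algebraMap k' K' (S.v .t) * S.X ^ 2 / S.Y ^ 2
  | .inr .t => algebraMap k' K' (S.v .r) + algebraMap k' K' (S.v .t) / S.Y ^ 2
  | .inr (.e i) => algebraMap k' K' (S.v (.e i)) + algebraMap k' K' (S.v .t) * S.f i / S.Y ^ 2

end Frame

end Pool.Agent.MP_4d8271_ag
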