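import Mathlib

open AlgebraicGeometry CategoryTheory CategoryTheory.Limits

namespace Pool.Agent.MP_4d8271_ag

attribute [local instance] MvPolynomial.gradedAlgebra

/-! ### Projective varieties and bounded classes -/

/-- Projective space `Proj k[x₀, …, xₙ]` over a commutative ring `k`. -/
noncomputable def ProjSpace (k : CommRingCat.{0}) (n : ℕ) : Scheme.{0} :=
  Proj (MvPolynomial.homogeneousSubmodule (Fin (n + 1)) k)

/-- The structure morphism of projective space. -/
noncomputable def ProjSpace.str (k : CommRingCat.{0}) (n : ℕ) : ProjSpace k n ⟶ Spec k :=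
  Proj.toSpecZero (MvPolynomial.homogeneousSubmodule (Fin (n + 1)) k) ≫
    Spec.map (CommRingCat.ofHom
      (algebraMap k (MvPolynomial.homogeneousSubmodule (Fin (n + 1)) k 0)))

/-- A projective variety: an integral scheme `X` such that `k = Γ(X, 𝒪_X)` is a field and the
natural morphism `X ⟶ Spec k` factors through a closed immersion into some `ℙⁿ_k`. -/
structure IsProjectiveVariety (X : Scheme.{0}) : Prop where
  isIntegral : IsIntegral X
  isField : IsField Γ(X, ⊤)
  projective : ∃ (n : ℕ) (i : X ⟶ ProjSpace Γ(X, ⊤) n),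
    IsClosedImmersion i ∧ i ≫ ProjSpace.str Γ(X, ⊤) n = X.toSpecΓ

/-- `X` is (isomorphic over `k = Γ(X, 𝒪_X)` to) a fibre `Y ×_T Spec k` of `f : Y ⟶ T`. -/
def IsFibreOf {Y T : Scheme.{0}} (f : Y ⟶ T) (X : Scheme.{0}) : Prop :=
  ∃ (t : Spec Γ(X, ⊤) ⟶ T) (e : X ≅ pullback f t), e.hom ≫ pullback.snd f t = X.toSpecΓ

/-- All members of the class `C` are fibres of one morphism of finite type `f : Y ⟶ T` with `T`
of finite type over `ℤ`. (Boundedness asks moreover that `f` be projective and flat.) -/
def IsWeaklyBounded (C : Set Scheme.{0}) : Prop :=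
  ∃ (Y T : Scheme.{0}) (f : Y ⟶ T) (q : T ⟶ Spec (CommRingCat.of ℤ)),
    (LocallyOfFiniteType q ∧ QuasiCompact q) ∧ (LocallyOfFiniteType f ∧ QuasiCompact f) ∧
      ∀ X ∈ C, IsFibreOf f X

/-! ### Orders of functions and forms along a discrete valuation ring

Below `d : K → Ω` will be the universal derivation of the function field `K` of a variety, with
`Ω = Ω_{K/ℤ}` the space of absolute differentials, and `n = dim_K Ω`. -/

section Orders

variable {K Ω : Type} [Field K] [AddCommGroup Ω] [Module K Ω]

/-- The space `⋀ⁿ Ω` of `n`-forms. -/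
abbrev Form (K Ω : Type) [Field K] [AddCommGroup Ω] [Module K Ω] (n : ℕ) : Type := ⋀[K]^n Ω

/-- The `R`-submodule of `⋀ⁿ Ω` spanned by the forms `da₁ ∧ … ∧ daₙ` with `aᵢ ∈ R`. (For
`Ω = Ω_{K/ℤ}` it is the image of `⋀ⁿ Ω_{R/ℤ}`.) -/
noncomputable def formLattice (d : K → Ω) (n : ℕ) (R : Subring K) : Submodule R (Form K Ω n) :=
  Submodule.span R {ω | ∃ a : Fin n → R, ω = exteriorPower.ιMulti K n fun i => d (a i : K)}

/-- `g` is a unit of the subring `R ⊆ K`. -/
def IsUnitIn (R : Subring K) (g : K) : Prop := g ≠ 0 ∧ g ∈ R ∧ g⁻¹ ∈ R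

/-- `ord_R g = m`, for a discrete valuation ring `R` of `K`: `g` is a unit of `R` times the
`m`-th power of a uniformizer. -/
def HasOrd (R : Subring K) (g : K) (m : ℤ) : Prop :=
  ∃ ϖ : R, Irreducible ϖ ∧ IsUnitIn R (g / (ϖ : K) ^ m)

/-- `ord_R ω ≥ m`: the `n`-form `ω` lies in `g ⋅ L` for some `g` with `ord_R g = m`, where `L` is
spanned over `R` by the forms `da₁ ∧ … ∧ daₙ` with `aᵢ ∈ R`. -/
def FormOrdGE (d : K → Ω) {n : ℕ} (R : Subring K) (ω : Form K Ω n) (m : ℤ) : Prop :=
  ∃ g : K, HasOrd R g m ∧ ∃ η ∈ formLattice d n R, ω = g • η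

end Orders

/-! ### Divisors over a variety -/

/-- The local ring `𝒪_{X,x}` as a subring of the function field. -/
noncomputable def localRing (X : Scheme.{0}) [IsIntegral X] (x : X) : Subring X.functionField :=
  (algebraMap (X.presheaf.stalk x) X.functionField).range

/-- The map of function fields induced by a morphism preserving the generic points. -/
noncomputable def funMap {W X : Scheme.{0}} [IsIntegral W] [IsIntegral X] (f : W ⟶ X)
    (h : f (genericPoint W) = genericPoint X) : X.functionField →+* W.functionField :=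
  (X.presheaf.stalkSpecializes (Inseparable.of_eq h).specializes ≫
    f.stalkMap (genericPoint W)).hom

/-- A prime divisor over `X`: a normal integral scheme `W`, a proper birational morphism
`f : W ⟶ X` and a point `E` of `W` whose local ring is a discrete valuation ring (the generic
point of a prime divisor of `W`). -/
structure DivisorOver (X : Scheme.{0}) [IsIntegral X] where
  W : Scheme.{0}
  isIntegral : IsIntegral W
  normal : ∀ w : W, IsIntegrallyClosed (W.presheaf.stalk w)
  f : W ⟶ X
  proper : IsProper f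
  generic : f (genericPoint W) = genericPoint X
  birational : Function.Bijective (funMap f generic)
  E : W
  dvr : IsDiscreteValuationRing (W.presheaf.stalk E)

/-- The discrete valuation ring `𝒪_{W,E}`, as a subring of `K(X) = K(W)`. -/
noncomputable def DivisorOver.ring {X : Scheme.{0}} [IsIntegral X] (D : DivisorOver X) :
    Subring X.functionField :=
  haveI := D.isIntegral
  (localRing D.W D.E).comap (funMap D.f D.generic)

/-! ### The canonical divisor and `ε`-klt Fano varieties -/

/-- A nonzero rational `n`-form `ω` of `X`, an integer `m > 0` and a Cartier divisor with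
`m ⋅ div ω = div F`: the divisor is given by a local equation `F x ∈ K(X)ˣ` at each point `x`
(well defined up to units, and locally constant up to units). Here `d` is the universal derivation
of `K(X)` over `ℤ` and `n = dim Ω_{K(X)/ℤ}`. -/
structure CanonicalDivisor (X : Scheme.{0}) [IsIntegral X] {Ω : Type} [AddCommGroup Ω]
    [Module X.functionField Ω] (d : X.functionField → Ω) (n : ℕ) where
  ω : Form X.functionField Ω n
  ω_ne_zero : ω ≠ 0
  m : ℕ
  m_pos : 0 < m
  F : X → X.functionField
  F_ne_zero : ∀ x, F x ≠ 0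
  cartier : ∀ x : X, ∃ U : X.Opens, x ∈ U ∧ ∀ y ∈ U, IsUnitIn (localRing X y) (F y / F x)
  canonical : ∀ x : X, IsDiscreteValuationRing (X.presheaf.stalk x) →
    ∃ a : ℤ, (∀ b : ℤ, FormOrdGE d (localRing X x) ω b ↔ b ≤ a) ∧
      HasOrd (localRing X x) (F x) (m * a)

/-- Ampleness of the Cartier divisor `D` with local equations `G x`: every point lies in an affine
open set which is the nonvanishing locus of some global section `s` of `𝒪(nD)`, `n > 0`. -/
def IsAmple (X : Scheme.{0}) [IsIntegral X] (G : X → X.functionField) : Prop :=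
  ∀ x : X, ∃ (n : ℕ) (s : X.functionField) (U : X.Opens),
    0 < n ∧ (∀ y, s * G y ^ n ∈ localRing X y) ∧ IsAffineOpen U ∧ x ∈ U ∧
      ∀ y, y ∈ U ↔ IsUnitIn (localRing X y) (s * G y ^ n)

/-- `K_X` is `ℚ`-Cartier, `-K_X` is ample and all log discrepancies
`1 + mult_E (K_W - f^* K_X)` are `> ε`. Here `d` is the universal derivation of `K(X)` over `ℤ` and
`n = dim Ω_{K(X)/ℤ}`. -/
def HasFanoCanonicalDivisor (X : Scheme.{0}) [IsIntegral X] {Ω : Type} [AddCommGroup Ω]
    [Module X.functionField Ω] (d : X.functionField → Ω) (n : ℕ) (ε : ℚ) : Prop :=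
  ∃ K : CanonicalDivisor X d n, IsAmple X (fun x => (K.F x)⁻¹) ∧
    ∀ D : DivisorOver X, ∃ a b : ℤ, FormOrdGE d D.ring K.ω a ∧ HasOrd D.ring (K.F (D.f D.E)) b ∧
      ε < 1 + a - b / K.m

/-- `n = dim_K Ω_{K/ℤ}`. -/
noncomputable def topDegree (K : Type) [Field K] : ℕ := Module.finrank K (KaehlerDifferential ℤ K)

/-- `R` is finitely generated as a field: some finite subset generates a subring of which every
element of `R` is a quotient. -/
def IsFGField (R : Type) [CommRing R] : Prop :=
  ∃ s : Finset R, ∀ c : R, ∃ p ∈ Subring.closure (s : Set R),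
    ∃ q ∈ Subring.closure (s : Set R), q ≠ 0 ∧ c * q = p

/-- The class of `ε`-klt Fano varieties of dimension `d` over finitely generated fields. -/
def epsKltFano (d : ℕ) (ε : ℚ) : Set Scheme.{0} :=
  {X | ∃ h : IsProjectiveVariety X, haveI := h.isIntegral
    IsFGField Γ(X, ⊤) ∧ (∀ x : X, IsIntegrallyClosed (X.presheaf.stalk x)) ∧
    topologicalKrullDim X = d ∧
    HasFanoCanonicalDivisor X (KaehlerDifferential.D ℤ X.functionField)
      (topDegree X.functionField) ε}

end Pool.Agent.MP_4d8271_ag
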