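import Pool.Agent.MP_4d8271_ag.Defs

open AlgebraicGeometry CategoryTheory CategoryTheory.Limits TopologicalSpace

namespace Pool.Agent.MP_4d8271_ag

/-- Dimension is local: if the open embeddings `f i : Y i → X` cover `X` and all `Y i` have
dimension `≤ d`, then so does `X`. -/
theorem topologicalKrullDim_le_of_openEmbeddings {X : Type*} [TopologicalSpace X] {ι : Type*}
    {Y : ι → Type*} [∀ i, TopologicalSpace (Y i)] (f : ∀ i, Y i → X)
    (hf : ∀ i, Topology.IsOpenEmbedding (f i)) (hcov : ∀ x : X, ∃ i, x ∈ Set.range (f i))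
    (d : WithBot ℕ∞) (hd : ∀ i, topologicalKrullDim (Y i) ≤ d) : topologicalKrullDim X ≤ d := by
  rw [topologicalKrullDim, Order.krullDim_eq_iSup_coheight]
  refine iSup_le fun Z => ?_
  obtain ⟨z, hz⟩ := Z.isIrreducible.nonempty
  obtain ⟨i, y, hy⟩ := hcov z
  have hne : (f i ⁻¹' (Z : Set X)).Nonempty := ⟨y, by rw [Set.mem_preimage, hy]; exact hz⟩
  let Z' : IrreducibleCloseds (Y i) :=
    (IrreducibleCloseds.orderIsoOfIsOpenEmbedding (f i) (hf i)).symm ⟨Z, hne⟩
  have h1 : IrreducibleCloseds.map (f i) (hf i).continuous Z' = Z := by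
    have h2 := (IrreducibleCloseds.orderIsoOfIsOpenEmbedding (f i) (hf i)).apply_symm_apply
      ⟨Z, hne⟩
    exact congrArg Subtype.val h2
  have h3 := (hf i).coheight_map Z'
  rw [h1] at h3
  rw [h3]
  exact (Order.coheight_le_krullDim Z').trans (hd i)

theorem topologicalKrullDim_eq_of_cover {X : Scheme.{0}} {ι : Type} [Nonempty ι]
    (U : ι → X.Opens) (hU : ∀ i, IsAffineOpen (U i)) (hcov : ⨆ i, U i = ⊤) (d : ℕ)
    (hd : ∀ i, ringKrullDim Γ(X, U i) = d) : topologicalKrullDim X = d := by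
  have hdim : ∀ i, topologicalKrullDim (PrimeSpectrum Γ(X, U i)) = d := fun i => by
    rw [PrimeSpectrum.topologicalKrullDim_eq_ringKrullDim, hd]
  let f : ∀ i, PrimeSpectrum Γ(X, U i) → X := fun i => (hU i).fromSpec
  have hf : ∀ i, Topology.IsOpenEmbedding (f i) := fun i => (hU i).fromSpec.isOpenEmbedding
  have hrange : ∀ i, Set.range (f i) = (U i : Set X) := fun i => (hU i).range_fromSpec
  apply le_antisymm
  · refine topologicalKrullDim_le_of_openEmbeddings f hf (fun x => ?_) d fun i => (hdim i).le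
    have hx : x ∈ (⨆ i, U i : X.Opens) := by rw [hcov]; trivial
    obtain ⟨i, hi⟩ := Opens.mem_iSup.mp hx
    exact ⟨i, by rw [hrange]; exact hi⟩
  · obtain ⟨i⟩ := ‹Nonempty ι›
    rw [← hdim i]
    exact (hf i).isInducing.topologicalKrullDim_le

end Pool.Agent.MP_4d8271_ag
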