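import Pool.Agent.MP_4d8271_ag.Klt
import Pool.Agent.MP_4d8271_ag.Dim

open AlgebraicGeometry CategoryTheory CategoryTheory.Limits

namespace Pool.Agent.MP_4d8271_ag

/-- Data proving that `X` is Fano with `K_X` Cartier and canonical singularities. -/
structure FanoData (X : Scheme.{0}) [IsIntegral X] {Ω : Type} [AddCommGroup Ω]
    [Module X.functionField Ω] (d : X.functionField → Ω) (n : ℕ) where
  D : Fin 3 → X.Opens
  affine : ∀ i, IsAffineOpen (D i)
  cover : ∀ x : X, ∃ i, x ∈ D i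
  c : Fin 3 → X.functionField
  c_ne : ∀ i, c i ≠ 0
  mem : ∀ i l, ∀ y ∈ D i, c l / c i ∈ localRing X y
  unit : ∀ i l, ∀ y ∈ D i, (y ∈ D l ↔ IsUnitIn (localRing X y) (c l / c i))
  ω : Form X.functionField Ω n
  ω_ne : ω ≠ 0
  θ : Fin 3 → Form X.functionField Ω n
  reg : ∀ i, ∀ y ∈ D i, formLattice d n (localRing X y) = Submodule.span (localRing X y) {θ i}
  hω : ∀ i, ω = c i • θ i

theorem FanoData.hasFanoCanonicalDivisor {X : Scheme.{0}} [IsIntegral X] {Ω : Type}
    [AddCommGroup Ω] [Module X.functionField Ω] {D : X.functionField → Ω} {n : ℕ}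
    (d : FanoData X D n) (ε : ℚ) (hε : ε < 1) : HasFanoCanonicalDivisor X D n ε := by
  choose idx hidx using d.cover
  obtain ⟨K, h1, h2, h3⟩ := MP_4d8271_ag.exists_canonicalDivisor (d := D) d.ω d.ω_ne
    (fun x => d.c (idx x)) (fun x => d.c_ne _)
    (fun x => ⟨d.D (idx x), hidx x, fun y hy =>
      (d.unit (idx x) (idx y) y hy).mp (hidx y)⟩)
    (fun x => d.θ (idx x)) (fun x => d.reg _ _ (hidx x)) (fun x => d.hω _)
  refine ⟨K, ?_, ?_⟩
  · intro x
    refine ⟨1, d.c (idx x), d.D (idx x), one_pos, ?_, d.affine _, hidx x, ?_⟩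
    · intro y
      simp only [h3, pow_one, ← div_eq_mul_inv]
      exact d.mem (idx y) (idx x) y (hidx y)
    · intro y
      simp only [h3, pow_one, ← div_eq_mul_inv]
      exact d.unit (idx y) (idx x) y (hidx y)
  · intro D
    refine klt_of_canonical K h2 (fun x => d.θ (idx x)) (fun x => d.reg _ _ (hidx x)) ?_ ε hε D
    intro x
    rw [h1, h3]
    exact d.hω _

/-- Transfer of a spanning property for differentials from a chart to the local rings. -/
theorem D_mem_span_of_div {F : Type} [Field F] (A R : Subring F) (hAR : A ≤ R)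
    (hdiv : ∀ g ∈ R, ∃ a ∈ A, ∃ b ∈ A, IsUnitIn R b ∧ g = a / b) {ι : Type}
    (w : ι → KaehlerDifferential ℤ F)
    (h : ∀ a ∈ A, KaehlerDifferential.D ℤ F a ∈ Submodule.span A (Set.range w)) (g : F)
    (hg : g ∈ R) : KaehlerDifferential.D ℤ F g ∈ Submodule.span R (Set.range w) := by
  have key : ∀ a ∈ A, KaehlerDifferential.D ℤ F a ∈ Submodule.span R (Set.range w) := by
    intro a ha
    refine Submodule.span_induction ?_ ?_ ?_ ?_ (h a ha)
    · intro x hx
      exact Submodule.subset_span hx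
    · exact zero_mem _
    · intro x y _ _ hx hy
      exact add_mem hx hy
    · intro c x _ hx
      exact (Submodule.span R (Set.range w)).smul_mem ⟨(c : F), hAR c.2⟩ hx
  obtain ⟨a, ha, b, hb, hbu, rfl⟩ := hdiv g hg
  have hb0 := hbu.1
  have e : KaehlerDifferential.D ℤ F (a / b) =
      (⟨b⁻¹, hbu.2.2⟩ : R) • KaehlerDifferential.D ℤ F a -
        (⟨a / b, hg⟩ * ⟨b⁻¹, hbu.2.2⟩ : R) • KaehlerDifferential.D ℤ F b := by
    have h1 : KaehlerDifferential.D ℤ F a = (a / b) • KaehlerDifferential.D ℤ F b +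
        b • KaehlerDifferential.D ℤ F (a / b) := by
      conv_lhs => rw [← div_mul_cancel₀ a hb0, Derivation.leibniz]
    have h2 : (⟨b⁻¹, hbu.2.2⟩ : R) • KaehlerDifferential.D ℤ F a =
        b⁻¹ • KaehlerDifferential.D ℤ F a := rfl
    have h3 : (⟨a / b, hg⟩ * ⟨b⁻¹, hbu.2.2⟩ : R) • KaehlerDifferential.D ℤ F b =
        (a / b * b⁻¹) • KaehlerDifferential.D ℤ F b := rfl
    rw [h2, h3, h1, smul_add, smul_smul, smul_smul, inv_mul_cancel₀ hb0, one_smul,
      mul_comm b⁻¹, add_sub_cancel_left]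
  rw [e]
  exact sub_mem (Submodule.smul_mem _ _ (key a ha)) (Submodule.smul_mem _ _ (key b hb))

end Pool.Agent.MP_4d8271_ag
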