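import Pool.Agent.MP_4d8271_ag.Assembly

open AlgebraicGeometry CategoryTheory CategoryTheory.Limits MvPolynomial

namespace Pool.Agent.MP_4d8271_ag

namespace Frame

variable {N : ℕ} {k' K' : Type} [Field k'] [Field K'] [Algebra (ZMod 2) k'] [Algebra k' K']
variable (S : Frame N k' K')

theorem exists_aeval {n : ℕ} (b : Fin n → S.dP.functionField) (p : S.dP.functionField)
    (hp : p ∈ Subring.closure
      (Set.range (S.dP.presheaf.germ ⊤ (genericPoint S.dP) trivial).hom ∪ Set.range b)) :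
    ∃ P : MvPolynomial (Fin n) (sq k'), S.j p = aeval (fun i => S.j (b i)) P := by
  refine Subring.closure_induction ?_ ?_ ?_ ?_ ?_ ?_ hp
  · rintro _ (⟨s, rfl⟩ | ⟨i, rfl⟩)
    · obtain ⟨x, hx⟩ := S.glob_range_dP s
      refine ⟨C x, ?_⟩
      rw [aeval_C, hx]
      rfl
    · exact ⟨MvPolynomial.X i, by rw [aeval_X]⟩
  · exact ⟨0, by rw [map_zero, map_zero]⟩
  · exact ⟨1, by rw [map_one, map_one]⟩
  · rintro x y _ _ ⟨P, hP⟩ ⟨Q, hQ⟩
    exact ⟨P + Q, by rw [map_add, map_add, hP, hQ]⟩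
  · rintro x _ ⟨P, hP⟩
    exact ⟨-P, by rw [map_neg, map_neg, hP]⟩
  · rintro x y _ _ ⟨P, hP⟩ ⟨Q, hQ⟩
    exact ⟨P * Q, by rw [map_mul, map_mul, hP, hQ]⟩

theorem le_of_functionField_generators {n : ℕ} (b : Fin n → S.dP.functionField)
    (h : ∀ c : S.dP.functionField,
      ∃ p ∈ Subring.closure
        (Set.range (S.dP.presheaf.germ ⊤ (genericPoint S.dP) trivial).hom ∪ Set.range b),
      ∃ r ∈ Subring.closure
        (Set.range (S.dP.presheaf.germ ⊤ (genericPoint S.dP) trivial).hom ∪ Set.range b),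
        r ≠ 0 ∧ c * r = p) : N + 2 ≤ n := by
  refine S.le_of_generators (fun i => S.j (b i)) (fun i => (S.mem_range_j _).mp ⟨b i, rfl⟩) ?_
  intro c hc
  obtain ⟨c', rfl⟩ := (S.mem_range_j c).mpr hc
  obtain ⟨p, hp, r, hr, hr0, hpr⟩ := h c'
  obtain ⟨P, hP⟩ := S.exists_aeval b p hp
  obtain ⟨R, hR⟩ := S.exists_aeval b r hr
  have hr0' : S.j r ≠ 0 := (map_ne_zero _).mpr hr0
  refine ⟨P, R, ?_, ?_⟩
  · rw [← hR]
    exact hr0'
  · rw [← hP, ← hR, ← hpr, map_mul, mul_div_cancel_right₀ _ hr0']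

end Frame

theorem not_isWeaklyBounded (ε : ℚ) (hε : ε < 1) : ¬ IsWeaklyBounded (epsKltFano 2 ε) := by
  rintro ⟨Y, T, f, q, ⟨hq1, hq2⟩, ⟨hf1, hf2⟩, h⟩
  obtain ⟨n, hn⟩ := exists_bound_generators f q
  obtain ⟨k', K', _, _, _, _, ⟨S⟩⟩ := exists_frame n
  obtain ⟨b, hb⟩ := hn S.dP S.isProjectiveVariety_dP.isField (h S.dP (S.dP_mem ε hε))
  have := S.le_of_functionField_generators b hb
  omega

end Pool.Agent.MP_4d8271_ag
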