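import Pool.Agent.MP_4d8271_ag.Defs

open MvPolynomial

namespace Pool.Agent.MP_4d8271_ag

/-- Names of the variables `r, s, t, e₀, …, e_{N-1}` of the field `k'`. -/
inductive Var (N : ℕ) : Type
  | r : Var N
  | s : Var N
  | t : Var N
  | e : Fin N → Var N
  deriving DecidableEq

/-- Names of all the variables of `K'`: `X, Y` and those of `k'`. -/
abbrev AVar (N : ℕ) : Type := Fin 2 ⊕ Var N

/-- equivalence used to see that `Var N` is finite with `N + 3` elements -/
def Var.equivSum (N : ℕ) : Var N ≃ Fin 3 ⊕ Fin N where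
  toFun
    | .r => .inl 0
    | .s => .inl 1
    | .t => .inl 2
    | .e i => .inr i
  invFun
    | .inl 0 => .r
    | .inl 1 => .s
    | .inl 2 => .t
    | .inr i => .e i
  left_inv x := by cases x <;> rfl
  right_inv x := by
    rcases x with x | x
    · fin_cases x <;> rfl
    · rfl

instance (N : ℕ) : Fintype (Var N) := Fintype.ofEquiv _ (Var.equivSum N).symm

lemma card_Var (N : ℕ) : Fintype.card (Var N) = N + 3 := by
  rw [Fintype.card_congr (Var.equivSum N)]
  simp [add_comm]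

/-- The algebraic set-up: `k' = 𝔽₂(r, s, t, e₀, …)`, `K' = k'(X, Y)` and the derivation `δ`. -/
structure Frame (N : ℕ) (k' K' : Type) [Field k'] [Field K'] [Algebra (ZMod 2) k']
    [Algebra k' K'] where
  v : Var N → k'
  X : K'
  Y : K'
  indep : AlgebraicIndependent (ZMod 2) v
  gen : ∀ c : k', ∃ p q : MvPolynomial (Var N) (ZMod 2), aeval v q ≠ 0 ∧
    c = aeval v p / aeval v q
  indepXY : AlgebraicIndependent k' ![X, Y]
  genXY : ∀ f : K', ∃ p q : MvPolynomial (Fin 2) k', aeval ![X, Y] q ≠ 0 ∧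
    f = aeval ![X, Y] p / aeval ![X, Y] q
  W : ℕ → k'
  B : ℕ → k'
  W_zero : W 0 = 1
  B_zero : B 0 = 0
  W_succ : ∀ i : Fin N, W (i + 1) = v (.e i) * W i
  B_succ : ∀ i : Fin N, B (i + 1) = v (.e i) * B i + v .s * W i ^ 2 + v .t * B i ^ 2
  δ : Derivation ℤ K' K'
  δX : δ X = 0
  δY : δ Y = 0
  δr : δ (algebraMap k' K' (v .r)) = 1
  δs : δ (algebraMap k' K' (v .s)) = X ^ 2
  δt : δ (algebraMap k' K' (v .t)) = Y ^ 2
  δe : ∀ i : Fin N, δ (algebraMap k' K' (v (.e i))) =
    X * Y * algebraMap k' K' (W i) + Y ^ 2 * algebraMap k' K' (B i)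

namespace Frame

variable {N : ℕ} {k' K' : Type} [Field k'] [Field K'] [Algebra (ZMod 2) k'] [Algebra k' K']
variable (S : Frame N k' K')

/-- `f i = X Y W_i + Y² B_i` -/
def f (i : ℕ) : K' := S.X * S.Y * algebraMap k' K' (S.W i) + S.Y ^ 2 * algebraMap k' K' (S.B i)

/-- The base field `k`: the squares of `k'`. -/
def sq (k' : Type) [Field k'] [Algebra (ZMod 2) k'] : Subfield k' :=
  haveI : CharP k' 2 := charP_of_injective_algebraMap (algebraMap (ZMod 2) k').injective 2
  (frobenius k' 2).fieldRange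

lemma mem_sq {c : k'} : c ∈ sq k' ↔ ∃ b : k', c = b ^ 2 := by
  constructor
  · rintro ⟨b, hb⟩
    exact ⟨b, by rw [← hb, frobenius_def]⟩
  · rintro ⟨b, hb⟩
    exact ⟨b, by rw [hb, frobenius_def]⟩

/-- The `k'`-span of `1, X, Y, X², XY, Y²`. -/
def M : Submodule k' K' :=
  Submodule.span k' {1, S.X, S.Y, S.X ^ 2, S.X * S.Y, S.Y ^ 2}

/-- The space of sections `V = ker δ ∩ M`, a vector space over `k`. -/
def V : Submodule (sq k') K' where
  carrier := {g | g ∈ S.M ∧ S.δ g = 0}
  add_mem' {a b} ha hb := ⟨add_mem ha.1 hb.1, by rw [map_add, ha.2, hb.2, add_zero]⟩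
  zero_mem' := ⟨zero_mem _, map_zero _⟩
  smul_mem' c g hg := by
    have : CharP k' 2 := charP_of_injective_algebraMap (algebraMap (ZMod 2) k').injective 2
    have : CharP K' 2 := charP_of_injective_algebraMap (algebraMap k' K').injective 2
    obtain ⟨b, hb⟩ := mem_sq.mp c.2
    have h : c • g = algebraMap k' K' b ^ 2 * g := by
      rw [Subfield.smul_def, hb, Algebra.smul_def, map_pow]
    refine ⟨?_, ?_⟩
    · rw [Subfield.smul_def]
      exact S.M.smul_mem _ hg.1
    · rw [h, Derivation.leibniz, Derivation.leibniz_pow, hg.2]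
      simp [CharTwo.two_eq_zero]

/-- The chart algebra `k[V / c]`. -/
def chart (c : K') : Subalgebra (sq k') K' :=
  Algebra.adjoin (sq k') {g | ∃ a ∈ S.V, g = a / c}

end Frame

end Pool.Agent.MP_4d8271_ag
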