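import Pool.Agent.MP_4d8271_ag.ProjX

open AlgebraicGeometry CategoryTheory CategoryTheory.Limits Polynomial

namespace Pool.Agent.MP_4d8271_ag

variable {k K : Type} [Field k] [Field K] [Algebra k K] {V : Submodule k K}

/-- The degree one element `cT`. -/
noncomputable def el (c : K) (hc : c ∈ V) : secAlg V := mono V 1 c (by simpa using hc)

lemma el_mem (c : K) (hc : c ∈ V) : el c hc ∈ secGr V 1 := mono_mem V 1 c _

@[simp] lemma ev_el (c : K) (hc : c ∈ V) : ev V (el c hc) = c := ev_mono V 1 c _

/-- The generic point, as a point of the scheme. -/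
noncomputable def genPt (hV : V ≠ ⊥) : PX V := gen hV

lemma mem_basicOpen_gen (hV : V ≠ ⊥) {f : secAlg V} (hf : f ≠ 0) :
    genPt hV ∈ Proj.basicOpen (secGr V) f := by
  rw [Proj.mem_basicOpen]
  exact hf

lemma ne_bot_of_one_mem (h1 : (1 : K) ∈ V) : V ≠ ⊥ := by
  rintro rfl
  exact one_ne_zero ((Submodule.mem_bot k).mp h1)

lemma nonempty_basicOpen (hV : V ≠ ⊥) {f : secAlg V} (hf : ev V f ≠ 0) :
    Nonempty (Proj.basicOpen (secGr V) f) :=
  ⟨⟨genPt hV, mem_basicOpen_gen hV (by rintro rfl; simp at hf)⟩⟩

/-- sections on `D₊(f)` to `K` -/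
noncomputable def secToK {n : ℕ} (f : secAlg V) (hn : 0 < n) (hf : f ∈ secGr V n)
    (hf0 : ev V f ≠ 0) : Γ(PX V, Proj.basicOpen (secGr V) f) →+* K :=
  (evAway V f hf0).comp (Proj.basicOpenIsoAway (secGr V) f hf hn).inv.hom

lemma secToK_awayToSection {n : ℕ} (f : secAlg V) (hn : 0 < n) (hf : f ∈ secGr V n)
    (hf0 : ev V f ≠ 0) (a : HomogeneousLocalization.Away (secGr V) f) :
    secToK f hn hf hf0 ((Proj.awayToSection (secGr V) f).hom a) = evAway V f hf0 a := by
  have h : (Proj.basicOpenIsoAway (secGr V) f hf hn).inv.hom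
      ((Proj.awayToSection (secGr V) f).hom a) = a := by
    rw [← Proj.basicOpenIsoAway_hom (secGr V) f hf hn]
    exact (Proj.basicOpenIsoAway (secGr V) f hf hn).hom_inv_id_apply a
  rw [secToK, RingHom.comp_apply, h]

lemma secToK_injective {n : ℕ} (f : secAlg V) (hn : 0 < n) (hf : f ∈ secGr V n)
    (hf0 : ev V f ≠ 0) : Function.Injective (secToK f hn hf hf0) := by
  refine (evAway_injective V f hf0 hf).comp ?_
  exact (ConcreteCategory.bijective_of_isIso (Proj.basicOpenIsoAway (secGr V) f hf hn).inv).1

section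
variable [IsIntegral (PX V)] (h1 : (1 : K) ∈ V)

/-- The embedding of the function field into `K`. -/
noncomputable def toK : (PX V).functionField →+* K :=
  haveI := nonempty_basicOpen (ne_bot_of_one_mem h1)
    (f := el 1 h1) (by simp)
  haveI := functionField_isFractionRing_of_isAffineOpen (X := PX V)
    (Proj.basicOpen (secGr V) (el 1 h1))
    (Proj.isAffineOpen_basicOpen (secGr V) (el 1 h1) (el_mem 1 h1) one_pos)
  IsFractionRing.lift (A := Γ(PX V, Proj.basicOpen (secGr V) (el 1 h1)))
    (g := secToK (el 1 h1) one_pos (el_mem 1 h1) (by simp)) (secToK_injective _ _ _ _)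

lemma toK_base [Nonempty (Proj.basicOpen (secGr V) (el 1 h1))]
    (a : HomogeneousLocalization.Away (secGr V) (el 1 h1)) :
    toK h1 ((PX V).germToFunctionField (Proj.basicOpen (secGr V) (el 1 h1))
      ((Proj.awayToSection (secGr V) (el 1 h1)).hom a)) = evAway V (el 1 h1) (by simp) a := by
  rw [← secToK_awayToSection (el 1 h1) one_pos (el_mem 1 h1) (by simp)]
  have := functionField_isFractionRing_of_isAffineOpen (X := PX V)
    (Proj.basicOpen (secGr V) (el 1 h1))
    (Proj.isAffineOpen_basicOpen (secGr V) (el 1 h1) (el_mem 1 h1) one_pos)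
  exact IsFractionRing.lift_algebraMap (A := Γ(PX V, Proj.basicOpen (secGr V) (el 1 h1)))
    (secToK_injective (el 1 h1) one_pos (el_mem 1 h1) (by simp)) _

omit [IsIntegral (PX V)] in
lemma germ_awayMap [IrreducibleSpace (PX V)] {e : ℕ} {f g x : secAlg V} (hg : g ∈ secGr V e)
    (hx : x = f * g)
    [Nonempty (Proj.basicOpen (secGr V) f)] [Nonempty (Proj.basicOpen (secGr V) x)]
    (a : HomogeneousLocalization.Away (secGr V) f) :
    (PX V).germToFunctionField (Proj.basicOpen (secGr V) x)
      ((Proj.awayToSection (secGr V) x).hom (HomogeneousLocalization.awayMap (secGr V) hg hx a)) =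
    (PX V).germToFunctionField (Proj.basicOpen (secGr V) f)
      ((Proj.awayToSection (secGr V) f).hom a) := by
  have h := congr($(Proj.awayMap_awayToSection (secGr V) hg hx).hom a)
  simp only [CommRingCat.hom_comp, CommRingCat.hom_ofHom, RingHom.comp_apply] at h
  rw [h]
  exact (PX V).presheaf.germ_res_apply _ _ _ _

lemma toK_germ {n : ℕ} (f : secAlg V) (hf : f ∈ secGr V n)
    (hf0 : ev V f ≠ 0) [Nonempty (Proj.basicOpen (secGr V) f)]
    (a : HomogeneousLocalization.Away (secGr V) f) :
    toK h1 ((PX V).germToFunctionField (Proj.basicOpen (secGr V) f)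
      ((Proj.awayToSection (secGr V) f).hom a)) = evAway V f hf0 a := by
  have hx : ev V (el 1 h1 * f) ≠ 0 := by simpa using hf0
  have hne := nonempty_basicOpen (ne_bot_of_one_mem h1) hx
  have hne1 := nonempty_basicOpen (ne_bot_of_one_mem h1) (f := el 1 h1) (by simp)
  have hxx : el 1 h1 * f = f * el 1 h1 := mul_comm _ _
  -- reduction to the product
  have key : ∀ (b : HomogeneousLocalization.Away (secGr V) (el 1 h1 * f)),
      toK h1 ((PX V).germToFunctionField (Proj.basicOpen (secGr V) (el 1 h1 * f))
        ((Proj.awayToSection (secGr V) (el 1 h1 * f)).hom b)) =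
          evAway V (el 1 h1 * f) hx b := by
    have hloc := HomogeneousLocalization.Away.isLocalization_mul (𝒜 := secGr V)
      (el_mem 1 h1) hf rfl one_ne_zero
    let := (HomogeneousLocalization.awayMap (secGr V) hf
      (rfl : el 1 h1 * f = el 1 h1 * f)).toAlgebra
    let φ1 : HomogeneousLocalization.Away (secGr V) (el 1 h1 * f) →+* K :=
      ((toK h1).comp ((PX V).germToFunctionField
        (Proj.basicOpen (secGr V) (el 1 h1 * f))).hom).comp
        (Proj.awayToSection (secGr V) (el 1 h1 * f)).hom
    have h : φ1 = evAway V (el 1 h1 * f) hx := by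
      refine IsLocalization.ringHom_ext (R := HomogeneousLocalization.Away (secGr V) (el 1 h1))
        (Submonoid.powers (HomogeneousLocalization.Away.isLocalizationElem (el_mem 1 h1) hf)) ?_
      ext a0
      change toK h1 ((PX V).germToFunctionField (Proj.basicOpen (secGr V) (el 1 h1 * f))
        ((Proj.awayToSection (secGr V) (el 1 h1 * f)).hom
          (HomogeneousLocalization.awayMap (secGr V) hf rfl a0))) =
        evAway V (el 1 h1 * f) hx (HomogeneousLocalization.awayMap (secGr V) hf rfl a0)
      rw [germ_awayMap, toK_base, evAway_awayMap V (by simp) (el_mem 1 h1)]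
    intro b
    exact congr($h b)
  have h2 := key (HomogeneousLocalization.awayMap (secGr V) (el_mem 1 h1) hxx a)
  rw [germ_awayMap, evAway_awayMap V hf0 hf] at h2
  exact h2

end

end Pool.Agent.MP_4d8271_ag
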