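import Pool.Agent.MP_4d8271_ag.Stalks

open AlgebraicGeometry CategoryTheory CategoryTheory.Limits Polynomial

namespace Pool.Agent.MP_4d8271_ag

section General

variable {X : Scheme.{0}} [IsIntegral X]

lemma isIntegrallyClosed_stalk_of_affine {U : X.Opens} (hU : IsAffineOpen U) {x : X} (hx : x ∈ U)
    [Nonempty U] (h : IsIntegrallyClosed Γ(X, U)) : IsIntegrallyClosed (X.presheaf.stalk x) := by
  let := TopCat.Presheaf.algebra_section_stalk X.presheaf (⟨x, hx⟩ : U)
  have hloc := hU.isLocalization_stalk ⟨x, hx⟩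
  exact isIntegrallyClosed_of_isLocalization (X.presheaf.stalk x)
    (hU.primeIdealOf ⟨x, hx⟩).asIdeal.primeCompl
    (Ideal.primeCompl_le_nonZeroDivisors _)

end General

variable {k K : Type} [Field k] [Field K] [Algebra k K] {V : Submodule k K}

lemma secToK_mem_chartA {c : K} (hcV : c ∈ V) (hc : c ≠ 0) (hf0 : ev V (el c hcV) ≠ 0)
    (s : Γ(PX V, Dc c hcV)) :
    secToK (el c hcV) one_pos (el_mem c hcV) hf0 s ∈ chartA V c :=
  evAway_mem_chartA hcV hc hf0 _

/-- Sections on `D₊(cT)` are the chart algebra. -/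
noncomputable def secEquiv {c : K} (hcV : c ∈ V) (hc : c ≠ 0) :
    Γ(PX V, Dc c hcV) ≃+* chartA V c :=
  have hf0 : ev V (el c hcV) ≠ 0 := by simpa using hc
  RingEquiv.ofBijective ((secToK (el c hcV) one_pos (el_mem c hcV) hf0).codRestrict
    (chartA V c) (secToK_mem_chartA hcV hc hf0)) (by
    constructor
    · intro a b h
      exact secToK_injective (el c hcV) one_pos (el_mem c hcV) hf0 (congrArg Subtype.val h)
    · rintro ⟨g, hg⟩
      obtain ⟨a, ha⟩ := exists_evAway_eq hcV hc hf0 hg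
      refine ⟨(Proj.awayToSection (secGr V) (el c hcV)).hom a, Subtype.ext ?_⟩
      exact (secToK_awayToSection (el c hcV) one_pos (el_mem c hcV) hf0 a).trans ha)

section
variable [IsIntegral (PX V)] (h1 : (1 : K) ∈ V)

include h1 in
lemma isIntegrallyClosed_stalk {c : K} (hcV : c ∈ V) (hc : c ≠ 0)
    (hn : IsIntegrallyClosed (chartA V c)) {x : PX V} (hx : x ∈ Dc c hcV) :
    IsIntegrallyClosed ((PX V).presheaf.stalk x) := by
  have := nonempty_Dc h1 hcV hc
  exact isIntegrallyClosed_stalk_of_affine (isAffineOpen_Dc c hcV) hx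
    (IsIntegrallyClosed.of_equiv (secEquiv hcV hc).symm)

end

lemma mono_mem_of_forall (P : Ideal (secAlg V)) (h : ∀ (v : K) (hv : v ∈ V), el v hv ∈ P) {n : ℕ}
    (hn : 0 < n) (a : K) (ha : a ∈ V ^ n) : mono V n a ha ∈ P := by
  obtain ⟨n, rfl⟩ : ∃ m, n = m + 1 := ⟨n - 1, by omega⟩
  have ha' := ha
  rw [pow_succ'] at ha'
  refine Submodule.mul_induction_on' (C := fun a _ => ∀ ha : a ∈ V ^ (n + 1), mono V (n + 1) a ha ∈ P)
    ?_ ?_ ha' ha
  · intro x hx y hy hxy
    have : mono V (n + 1) (x * y) hxy = el x hx * mono V n y hy := by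
      apply Subtype.ext
      rw [MulMemClass.coe_mul, coe_mono, el, coe_mono, coe_mono, monomial_mul_monomial, add_comm]
    rw [this]
    exact P.mul_mem_right _ (h x hx)
  · intro x hx y hy h1 h2 hxy
    rw [← pow_succ'] at hx hy
    have : mono V (n + 1) (x + y) hxy = mono V (n + 1) x hx + mono V (n + 1) y hy := by
      apply Subtype.ext
      rw [AddMemClass.coe_add, coe_mono, coe_mono, coe_mono, map_add]
    rw [this]
    exact P.add_mem (h1 hx) (h2 hy)

/-- Covering criterion. -/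
lemma iSup_Dc_eq_top {ι : Type} [Fintype ι] (c : ι → K) (hcV : ∀ i, c i ∈ V)
    (h : ∀ v ∈ V, ∃ w : ι → K, (∀ i, w i ∈ V) ∧ v ^ 2 = ∑ i, c i * w i) :
    ⨆ i, Dc (c i) (hcV i) = ⊤ := by
  rw [eq_top_iff]
  intro x _
  rw [TopologicalSpace.Opens.mem_iSup]
  by_contra! hcon
  simp only [Proj.mem_basicOpen, not_not] at hcon
  have hp : x.asHomogeneousIdeal.toIdeal.IsPrime := x.isPrime
  have h1 : ∀ (v : K) (hv : v ∈ V), el v hv ∈ x.asHomogeneousIdeal.toIdeal := by
    intro v hv
    obtain ⟨w, hw, hvw⟩ := h v hv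
    refine hp.mem_of_pow_mem 2 ?_
    have : el v hv ^ 2 = ∑ i, el (c i) (hcV i) * el (w i) (hw i) := by
      apply Subtype.ext
      rw [SubmonoidClass.coe_pow, AddSubmonoidClass.coe_finsetSum]
      simp only [el, coe_mono, MulMemClass.coe_mul, monomial_pow, monomial_mul_monomial]
      rw [hvw, map_sum]
    rw [this]
    exact Ideal.sum_mem _ fun i _ => Ideal.mul_mem_right _ _ (hcon i)
  refine x.not_irrelevant_le ?_
  intro f hf
  rw [HomogeneousIdeal.mem_irrelevant_iff] at hf
  change f ∈ x.asHomogeneousIdeal.toIdeal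
  classical
  rw [← DirectSum.sum_support_decompose (secGr V) f]
  refine Ideal.sum_mem _ fun n hn => ?_
  rcases Nat.eq_zero_or_pos n with rfl | hn0
  · have : (DirectSum.decompose (secGr V) f 0 : secAlg V) = 0 := hf
    rw [this]
    exact zero_mem _
  · rw [eq_mono_of_mem V (DirectSum.decompose (secGr V) f n).2]
    exact mono_mem_of_forall _ h1 hn0 _ _

end Pool.Agent.MP_4d8271_ag
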