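import Pool.Agent.MP_4d8271_ag.Defs

open AlgebraicGeometry CategoryTheory CategoryTheory.Limits

namespace Pool.Agent.MP_4d8271_ag

section DVR

variable {K : Type} [Field K] {R : Subring K}

lemma IsUnitIn.mul {g h : K} (hg : IsUnitIn R g) (hh : IsUnitIn R h) : IsUnitIn R (g * h) := by
  refine ⟨mul_ne_zero hg.1 hh.1, R.mul_mem hg.2.1 hh.2.1, ?_⟩
  rw [mul_inv]
  exact R.mul_mem hg.2.2 hh.2.2

lemma IsUnitIn.inv {g : K} (hg : IsUnitIn R g) : IsUnitIn R g⁻¹ :=
  ⟨inv_ne_zero hg.1, hg.2.2, by rw [inv_inv]; exact hg.2.1⟩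

lemma IsUnitIn.div {g h : K} (hg : IsUnitIn R g) (hh : IsUnitIn R h) : IsUnitIn R (g / h) := by
  rw [div_eq_mul_inv]
  exact hg.mul hh.inv

lemma isUnitIn_one : IsUnitIn R (1 : K) :=
  ⟨one_ne_zero, R.one_mem, by rw [inv_one]; exact R.one_mem⟩

lemma IsUnitIn.pow {g : K} (hg : IsUnitIn R g) (n : ℕ) : IsUnitIn R (g ^ n) := by
  induction n with
  | zero => rw [pow_zero]; exact isUnitIn_one
  | succ n ih => rw [pow_succ]; exact ih.mul hg

lemma IsUnitIn.zpow {g : K} (hg : IsUnitIn R g) (n : ℤ) : IsUnitIn R (g ^ n) := by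
  obtain ⟨n, rfl | rfl⟩ := n.eq_nat_or_neg
  · rw [zpow_natCast]; exact hg.pow n
  · rw [zpow_neg, zpow_natCast]; exact (hg.pow n).inv

lemma isUnitIn_coe_unit (u : Rˣ) : IsUnitIn R ((u : R) : K) := by
  have h : ((u : R) : K) * (((u⁻¹ : Rˣ) : R) : K) = 1 := by
    rw [← Subring.coe_mul, Units.mul_inv, Subring.coe_one]
  have h0 : ((u : R) : K) ≠ 0 := left_ne_zero_of_mul_eq_one h
  refine ⟨h0, (u : R).2, ?_⟩
  rw [inv_eq_of_mul_eq_one_right h]
  exact ((u⁻¹ : Rˣ) : R).2

lemma coe_ne_zero_of_irreducible {ϖ : R} (hϖ : Irreducible ϖ) : (ϖ : K) ≠ 0 := by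
  intro h
  exact hϖ.ne_zero (Subtype.ext (by simpa using h))

/-- In a DVR the order does not depend on the uniformizer. -/
lemma HasOrd.isUnitIn [IsDiscreteValuationRing R] {g : K} {m : ℤ}
    (h : HasOrd R g m) {ϖ : R} (hϖ : Irreducible ϖ) : IsUnitIn R (g / (ϖ : K) ^ m) := by
  obtain ⟨π, hπ, hu⟩ := h
  obtain ⟨u, hu'⟩ := (IsDiscreteValuationRing.associated_of_irreducible R hπ hϖ).symm
  have hu1 := isUnitIn_coe_unit u
  have h1 : (π : K) = (ϖ : K) * ((u : R) : K) := by
    rw [← hu', Subring.coe_mul]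
  have h2 : g / (ϖ : K) ^ m = g / (π : K) ^ m * ((u : R) : K) ^ m := by
    rw [h1, mul_zpow]
    have h3 : (ϖ : K) ^ m ≠ 0 := zpow_ne_zero _ (coe_ne_zero_of_irreducible hϖ)
    have h4 : ((u : R) : K) ^ m ≠ 0 := zpow_ne_zero _ hu1.1
    field_simp
  rw [h2]
  exact hu.mul (hu1.zpow m)

lemma HasOrd.ne_zero {g : K} {m : ℤ} (h : HasOrd R g m) : g ≠ 0 := by
  obtain ⟨π, hπ, hu⟩ := h
  rintro rfl
  exact hu.1 (zero_div _)

lemma isUnitIn_zpow_iff [IsDiscreteValuationRing R] {ϖ : R} (hϖ : Irreducible ϖ)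
    (n : ℤ) : (ϖ : K) ^ n ∈ R ↔ 0 ≤ n := by
  constructor
  · intro h
    by_contra hn
    push Not at hn
    obtain ⟨k, rfl⟩ : ∃ k : ℕ, n = -(k + 1 : ℕ) := ⟨(-n - 1).toNat, by omega⟩
    rw [zpow_neg, zpow_natCast] at h
    refine hϖ.not_isUnit (IsUnit.of_mul_eq_one (ϖ ^ k * ⟨_, h⟩) (Subtype.ext ?_))
    have h0 := coe_ne_zero_of_irreducible hϖ
    simp only [Subring.coe_mul, Subring.coe_pow, Subring.coe_one]
    rw [← mul_assoc, ← pow_succ', mul_inv_cancel₀ (pow_ne_zero _ h0)]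
  · intro hn
    obtain ⟨k, rfl⟩ := Int.eq_ofNat_of_zero_le hn
    rw [zpow_natCast]
    exact R.pow_mem ϖ.2 k

lemma HasOrd.mem_iff [IsDiscreteValuationRing R] {g : K} {m : ℤ}
    (h : HasOrd R g m) : g ∈ R ↔ 0 ≤ m := by
  obtain ⟨ϖ, hϖ, hu⟩ := h
  have h0 := coe_ne_zero_of_irreducible hϖ
  have h3 : (ϖ : K) ^ m ≠ 0 := zpow_ne_zero _ h0
  rw [← isUnitIn_zpow_iff hϖ]
  constructor
  · intro hg
    have : (ϖ : K) ^ m = g * (g / (ϖ : K) ^ m)⁻¹ := by
      have hg0 : g ≠ 0 := fun h => hu.1 (by rw [h, zero_div])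
      field_simp
    rw [this]
    exact R.mul_mem hg hu.2.2
  · intro hg
    have : g = g / (ϖ : K) ^ m * (ϖ : K) ^ m := by field_simp
    rw [this]
    exact R.mul_mem hu.2.1 hg

lemma HasOrd.div [IsDiscreteValuationRing R] {g h : K} {m n : ℤ}
    (hg : HasOrd R g m) (hh : HasOrd R h n) : HasOrd R (g / h) (m - n) := by
  obtain ⟨ϖ, hϖ, hu⟩ := hg
  refine ⟨ϖ, hϖ, ?_⟩
  have hv := hh.isUnitIn hϖ
  have h0 := coe_ne_zero_of_irreducible hϖ
  have h1 : (ϖ : K) ^ m ≠ 0 := zpow_ne_zero _ h0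
  have h2 : (ϖ : K) ^ n ≠ 0 := zpow_ne_zero _ h0
  have h3 := hh.ne_zero
  have : g / h / (ϖ : K) ^ (m - n) = g / (ϖ : K) ^ m / (h / (ϖ : K) ^ n) := by
    rw [zpow_sub₀ h0]
    field_simp
  rw [this]
  exact hu.div hv

end DVR

theorem exists_hasOrd {K : Type} [Field K] (R : Subring K) [IsDiscreteValuationRing R]
    [IsFractionRing R K] (g : K) (hg : g ≠ 0) : ∃ m : ℤ, HasOrd R g m := by
  obtain ⟨ϖ, hϖ⟩ := IsDiscreteValuationRing.exists_irreducible R
  have key : ∀ a : R, a ≠ 0 → ∃ n : ℕ, HasOrd R (a : K) n := by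
    intro a ha
    obtain ⟨n, hn⟩ := IsDiscreteValuationRing.associated_pow_irreducible ha hϖ
    obtain ⟨u, hu⟩ := hn.symm
    refine ⟨n, ϖ, hϖ, ?_⟩
    have h0 := coe_ne_zero_of_irreducible hϖ
    have : (a : K) / (ϖ : K) ^ (n : ℤ) = ((u : R) : K) := by
      rw [← hu, Subring.coe_mul, Subring.coe_pow, zpow_natCast]
      field_simp
    rw [this]
    exact isUnitIn_coe_unit u
  obtain ⟨a, b, hb, rfl⟩ := IsFractionRing.div_surjective (A := R) g
  have hb0 : b ≠ 0 := nonZeroDivisors.ne_zero hb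
  have ha0 : a ≠ 0 := by
    rintro rfl
    exact hg (by rw [map_zero, zero_div])
  obtain ⟨m, hm⟩ := key a ha0
  obtain ⟨n, hn⟩ := key b hb0
  exact ⟨m - n, hm.div hn⟩

theorem formOrdGE_iff {K Ω : Type} [Field K] [AddCommGroup Ω] [Module K Ω] {d : K → Ω} {N : ℕ}
    (R : Subring K) [IsDiscreteValuationRing R]
    [IsFractionRing R K] (θ ω : Form K Ω N) (hθ : θ ≠ 0)
    (hreg : formLattice d N R = Submodule.span R {θ})
    (g : K) (a : ℤ) (hg : HasOrd R g a) (hω : ω = g • θ) (n : ℤ) :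
    FormOrdGE d R ω n ↔ n ≤ a := by
  have hg0 := hg.ne_zero
  constructor
  · rintro ⟨h, hh, η, hη, hηω⟩
    rw [hreg, Submodule.mem_span_singleton] at hη
    obtain ⟨r, rfl⟩ := hη
    have h1 : g = h * (r : K) := by
      apply smul_left_injective K hθ
      change g • θ = (h * (r : K)) • θ
      rw [mul_smul, ← hω, hηω]
      rfl
    have h2 : g / h = r := by
      rw [h1]
      have := hh.ne_zero
      field_simp
    have h3 := (hg.div hh).mem_iff.mp (h2 ▸ r.2)
    omega
  · intro hn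
    obtain ⟨ϖ, hϖ, hu⟩ := hg
    have h0 := coe_ne_zero_of_irreducible hϖ
    have h1 : HasOrd R ((ϖ : K) ^ n) n := ⟨ϖ, hϖ, by
      rw [div_self (zpow_ne_zero _ h0)]
      exact isUnitIn_one⟩
    have h2 : g / (ϖ : K) ^ n ∈ R := by
      refine ((show HasOrd R g a from ⟨ϖ, hϖ, hu⟩).div h1).mem_iff.mpr ?_
      omega
    refine ⟨(ϖ : K) ^ n, h1, (⟨_, h2⟩ : R) • θ, ?_, ?_⟩
    · rw [hreg]
      exact Submodule.smul_mem _ _ (Submodule.mem_span_singleton_self θ)
    · have h3 : (⟨_, h2⟩ : R) • θ = (g / (ϖ : K) ^ n) • θ := rfl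
      rw [h3, smul_smul, hω]
      congr 1
      have := zpow_ne_zero n h0
      field_simp

section DivOver

variable {X : Scheme.{0}} [IsIntegral X]

lemma funMap_algebraMap {W X : Scheme.{0}} [IsIntegral W] [IsIntegral X] (f : W ⟶ X)
    (h : f (genericPoint W) = genericPoint X) (w : W) (a : X.presheaf.stalk (f w)) :
    funMap f h (algebraMap _ X.functionField a) =
      algebraMap (W.presheaf.stalk w) W.functionField ((f.stalkMap w).hom a) := by
  have hs : genericPoint W ⤳ w := (genericPoint_spec W).specializes trivial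
  have h1 : X.presheaf.stalkSpecializes ((genericPoint_spec X).specializes trivial) ≫
      X.presheaf.stalkSpecializes (Inseparable.of_eq h).specializes ≫
      f.stalkMap (genericPoint W) =
      f.stalkMap w ≫ W.presheaf.stalkSpecializes hs := by
    rw [← Scheme.Hom.stalkSpecializes_stalkMap f _ _ hs, ← Category.assoc,
      TopCat.Presheaf.stalkSpecializes_comp]
  exact congr($(h1).hom a)

theorem localRing_le_ring (D : DivisorOver X) :
    localRing X (D.f D.E) ≤ D.ring := by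
  have := D.isIntegral
  rintro _ ⟨a, rfl⟩
  change funMap D.f D.generic (algebraMap _ X.functionField a) ∈ localRing D.W D.E
  rw [funMap_algebraMap]
  exact ⟨_, rfl⟩

/-- the embedding of `𝒪_{W,E}` in `K(X)`. -/
noncomputable def DivisorOver.emb (D : DivisorOver X) :
    D.W.presheaf.stalk D.E →+* X.functionField :=
  haveI := D.isIntegral
  (RingEquiv.ofBijective (funMap D.f D.generic) D.birational).symm.toRingHom.comp
    (algebraMap (D.W.presheaf.stalk D.E) D.W.functionField)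

lemma DivisorOver.funMap_emb (D : DivisorOver X) (a : D.W.presheaf.stalk D.E) :
    haveI := D.isIntegral
    funMap D.f D.generic (D.emb a) =
      algebraMap (D.W.presheaf.stalk D.E) D.W.functionField a := by
  have := D.isIntegral
  exact (RingEquiv.ofBijective (funMap D.f D.generic) D.birational).apply_symm_apply _

lemma DivisorOver.emb_injective (D : DivisorOver X) : Function.Injective D.emb := by
  have := D.isIntegral
  exact (RingEquiv.ofBijective (funMap D.f D.generic) D.birational).symm.injective.comp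
    (IsFractionRing.injective _ _)

lemma DivisorOver.mem_ring_iff (D : DivisorOver X) (g : X.functionField) :
    g ∈ D.ring ↔ ∃ a, D.emb a = g := by
  have := D.isIntegral
  constructor
  · rintro ⟨a, ha⟩
    refine ⟨a, D.birational.1 ?_⟩
    rw [D.funMap_emb, ha]
  · rintro ⟨a, rfl⟩
    refine ⟨a, ?_⟩
    rw [D.funMap_emb]

lemma DivisorOver.emb_mem_ring (D : DivisorOver X) (a : D.W.presheaf.stalk D.E) :
    D.emb a ∈ D.ring := (D.mem_ring_iff _).mpr ⟨a, rfl⟩

/-- `D.ring` is isomorphic to the local ring of `W` at `E`. -/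
noncomputable def DivisorOver.stalkEquiv (D : DivisorOver X) :
    D.W.presheaf.stalk D.E ≃+* D.ring :=
  RingEquiv.ofBijective (D.emb.codRestrict D.ring D.emb_mem_ring)
    ⟨fun a b h => D.emb_injective (congrArg Subtype.val h), fun ⟨g, hg⟩ => by
      obtain ⟨a, ha⟩ := (D.mem_ring_iff g).mp hg
      exact ⟨a, Subtype.ext ha⟩⟩

theorem DivisorOver.isDVR_ring (D : DivisorOver X) : IsDiscreteValuationRing D.ring := by
  have := D.isIntegral
  have := D.dvr
  exact IsDiscreteValuationRing.RingEquivClass.isDiscreteValuationRing D.stalkEquiv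

theorem DivisorOver.isFractionRing_ring (D : DivisorOver X) :
    IsFractionRing D.ring X.functionField := by
  have := D.isIntegral
  refine IsFractionRing.of_field _ _ fun z => ?_
  obtain ⟨a, b, -, hab⟩ := IsFractionRing.div_surjective (A := D.W.presheaf.stalk D.E)
    (funMap D.f D.generic z)
  refine ⟨⟨_, D.emb_mem_ring a⟩, ⟨_, D.emb_mem_ring b⟩, D.birational.1 ?_⟩
  change funMap D.f D.generic z = funMap D.f D.generic (D.emb a / D.emb b)
  rw [← hab, map_div₀, D.funMap_emb, D.funMap_emb]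

theorem exists_hasOrd_ring (D : DivisorOver X)
    (g : X.functionField) (hg : g ≠ 0) : ∃ m : ℤ, HasOrd D.ring g m := by
  have := D.isDVR_ring
  have := D.isFractionRing_ring
  exact exists_hasOrd D.ring g hg

lemma formLattice_mono {K Ω : Type} [Field K] [AddCommGroup Ω] [Module K Ω] {d : K → Ω} {N : ℕ}
    {R S : Subring K} (h : R ≤ S) {η : Form K Ω N}
    (hη : η ∈ formLattice d N R) : η ∈ formLattice d N S := by
  refine Submodule.span_induction (p := fun x _ => x ∈ formLattice d N S) ?_ ?_ ?_ ?_ hη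
  · rintro _ ⟨a, rfl⟩
    exact Submodule.subset_span ⟨fun i => ⟨a i, h (a i).2⟩, rfl⟩
  · exact (formLattice d N S).zero_mem
  · intro x y _ _ hx hy
    exact (formLattice d N S).add_mem hx hy
  · intro a x _ hx
    exact (formLattice d N S).smul_mem (⟨a, h a.2⟩ : S) hx

variable {Ω : Type} [AddCommGroup Ω] [Module X.functionField Ω] {d : X.functionField → Ω} {N : ℕ}

/-- `ω` is a section of `K_X` at `f E` ⇒ the discrepancy at `E` is `≥ 0`. -/
theorem exists_discrepancy (D : DivisorOver X)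
    (ω : Form X.functionField Ω N) (F : X.functionField) (hF : F ≠ 0)
    (h : ∃ η ∈ formLattice d N (localRing X (D.f D.E)), ω = F • η) :
    ∃ b : ℤ, FormOrdGE d D.ring ω b ∧ HasOrd D.ring F b := by
  obtain ⟨b, hb⟩ := exists_hasOrd_ring D F hF
  obtain ⟨η, hη, hω⟩ := h
  exact ⟨b, ⟨F, hb, η, formLattice_mono (localRing_le_ring D) hη, hω⟩, hb⟩

/-- The local ring is isomorphic to the stalk. -/
noncomputable def localRingEquiv (x : X) : X.presheaf.stalk x ≃+* localRing X x :=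
  RingEquiv.ofBijective (algebraMap (X.presheaf.stalk x) X.functionField).rangeRestrict
    ⟨fun _ _ h => IsFractionRing.injective (X.presheaf.stalk x) X.functionField
      (congrArg Subtype.val h), RingHom.rangeRestrict_surjective _⟩

theorem isDVR_localRing (x : X) (h : IsDiscreteValuationRing (X.presheaf.stalk x)) :
    IsDiscreteValuationRing (localRing X x) :=
  IsDiscreteValuationRing.RingEquivClass.isDiscreteValuationRing (localRingEquiv x)

instance isFractionRing_localRing (x : X) : IsFractionRing (localRing X x) X.functionField := by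
  refine IsFractionRing.of_field _ _ fun z => ?_
  obtain ⟨a, b, -, hab⟩ := IsFractionRing.div_surjective (A := X.presheaf.stalk x) z
  exact ⟨⟨_, a, rfl⟩, ⟨_, b, rfl⟩, hab.symm⟩

/-- The canonical divisor (`m = 1`) from generators `θ x` of the form lattice at all points. -/
theorem exists_canonicalDivisor (ω : Form X.functionField Ω N)
    (hω : ω ≠ 0) (F : X → X.functionField) (hF : ∀ x, F x ≠ 0)
    (hcart : ∀ x : X, ∃ U : X.Opens, x ∈ U ∧ ∀ y ∈ U, IsUnitIn (localRing X y) (F y / F x))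
    (θ : X → Form X.functionField Ω N)
    (hreg : ∀ x, formLattice d N (localRing X x) = Submodule.span (localRing X x) {θ x})
    (hωθ : ∀ x, ω = F x • θ x) :
    ∃ K : CanonicalDivisor X d N, K.ω = ω ∧ K.m = 1 ∧ K.F = F := by
  refine ⟨⟨ω, hω, 1, one_pos, F, hF, hcart, fun x hx => ?_⟩, rfl, rfl, rfl⟩
  have := isDVR_localRing x hx
  obtain ⟨a, ha⟩ := exists_hasOrd (localRing X x) (F x) (hF x)
  refine ⟨a, fun n => ?_, by rw [Nat.cast_one, one_mul]; exact ha⟩
  refine formOrdGE_iff (localRing X x) (θ x) ω ?_ (hreg x) (F x) a ha (hωθ x) n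
  intro h0
  apply hω
  rw [hωθ x, h0, smul_zero]

theorem klt_of_canonical (K : CanonicalDivisor X d N) (hm : K.m = 1)
    (θ : X → Form X.functionField Ω N)
    (hreg : ∀ x, formLattice d N (localRing X x) = Submodule.span (localRing X x) {θ x})
    (hωθ : ∀ x, K.ω = K.F x • θ x) (ε : ℚ) (hε : ε < 1) (D : DivisorOver X) :
    ∃ a b : ℤ, FormOrdGE d D.ring K.ω a ∧ HasOrd D.ring (K.F (D.f D.E)) b ∧
      ε < 1 + a - b / K.m := by
  obtain ⟨b, h1, h2⟩ := exists_discrepancy D K.ω (K.F (D.f D.E)) (K.F_ne_zero _)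
    ⟨θ (D.f D.E), by rw [hreg]; exact Submodule.mem_span_singleton_self _, hωθ _⟩
  refine ⟨b, b, h1, h2, ?_⟩
  rw [hm]
  simpa using hε

end DivOver

end Pool.Agent.MP_4d8271_ag
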