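import Pool.Agent.MP_4d8271_ag.Frame

open MvPolynomial

namespace Pool.Agent.MP_4d8271_ag

/-! Piece A1 -/

/-- A purely transcendental extension is the fraction field of a polynomial ring. -/
theorem isFractionRing_aeval {k F : Type} [Field k] [Field F] [Algebra k F] {ι : Type}
    (v : ι → F) (hv : AlgebraicIndependent k v)
    (hgen : ∀ c : F, ∃ p q : MvPolynomial ι k, aeval v q ≠ 0 ∧
      c = aeval v p / aeval v q) :
    letI : Algebra (MvPolynomial ι k) F := (aeval v).toAlgebra
    IsFractionRing (MvPolynomial ι k) F := by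
  let _ : Algebra (MvPolynomial ι k) F := (aeval v).toAlgebra
  have hinj : Function.Injective (algebraMap (MvPolynomial ι k) F) := hv
  have : FaithfulSMul (MvPolynomial ι k) F := (faithfulSMul_iff_algebraMap_injective _ _).mpr hinj
  refine IsFractionRing.of_field (MvPolynomial ι k) F fun z => ?_
  obtain ⟨p, q, _, h⟩ := hgen z
  exact ⟨p, q, h⟩

/-- Absolute differentials of a purely transcendental extension of `𝔽₂`. -/
theorem exists_basis_kaehler {F : Type} [Field F] [Algebra (ZMod 2) F] {ι : Type} [Finite ι]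
    (v : ι → F) (hv : AlgebraicIndependent (ZMod 2) v)
    (hgen : ∀ c : F, ∃ p q : MvPolynomial ι (ZMod 2), aeval v q ≠ 0 ∧
      c = aeval v p / aeval v q) :
    ∃ b : Module.Basis ι F (KaehlerDifferential ℤ F),
      ∀ i, b i = KaehlerDifferential.D ℤ F (v i) := by
  let _ : Algebra (MvPolynomial ι (ZMod 2)) F := (aeval v).toAlgebra
  have : IsScalarTower (ZMod 2) (MvPolynomial ι (ZMod 2)) F :=
    .of_algebraMap_eq fun x => ((aeval v).commutes x).symm
  have : IsFractionRing (MvPolynomial ι (ZMod 2)) F := isFractionRing_aeval v hv hgen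
  let b0 : Module.Basis ι F (KaehlerDifferential (ZMod 2) F) :=
    (KaehlerDifferential.mvPolynomialBasis (ZMod 2) ι).ofIsLocalizedModule F
      (nonZeroDivisors (MvPolynomial ι (ZMod 2)))
      (KaehlerDifferential.map (ZMod 2) (ZMod 2) (MvPolynomial ι (ZMod 2)) F)
  have hb0 : ∀ i, b0 i = KaehlerDifferential.D (ZMod 2) F (v i) := by
    intro i
    rw [Module.Basis.ofIsLocalizedModule_apply, KaehlerDifferential.mvPolynomialBasis_apply,
      KaehlerDifferential.map_D]
    congr 1
    exact aeval_X v i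
  have hsurj : Function.Surjective (algebraMap ℤ (ZMod 2)) := ZMod.intCast_surjective
  have : Subsingleton (KaehlerDifferential ℤ (ZMod 2)) :=
    KaehlerDifferential.subsingleton_of_surjective ℤ (ZMod 2) hsurj
  have hbij : Function.Bijective (KaehlerDifferential.map ℤ (ZMod 2) F F) := by
    refine ⟨?_, KaehlerDifferential.map_surjective ℤ (ZMod 2) F⟩
    rw [injective_iff_map_eq_zero]
    intro x hx
    obtain ⟨y, rfl⟩ := (KaehlerDifferential.exact_mapBaseChange_map ℤ (ZMod 2) F x).mp hx
    rw [Subsingleton.elim y 0, map_zero]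
  let e : KaehlerDifferential ℤ F ≃ₗ[F] KaehlerDifferential (ZMod 2) F :=
    LinearEquiv.ofBijective (KaehlerDifferential.map ℤ (ZMod 2) F F) hbij
  refine ⟨b0.map e.symm, fun i => ?_⟩
  rw [Module.Basis.map_apply, LinearEquiv.symm_apply_eq, hb0]
  change _ = KaehlerDifferential.map ℤ (ZMod 2) F F _
  rw [KaehlerDifferential.map_D]
  rfl

/-! Generation of fields -/

/-- every element of `F` is a quotient of polynomials in `v` iff `F = k(v)` -/
theorem forall_exists_aeval_div_iff {k F : Type} [Field k] [Field F] [Algebra k F] {ι : Type}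
    (v : ι → F) :
    (∀ c : F, ∃ p q : MvPolynomial ι k, aeval v q ≠ 0 ∧ c = aeval v p / aeval v q) ↔
      IntermediateField.adjoin k (Set.range v) = ⊤ := by
  constructor
  · intro h
    rw [eq_top_iff]
    rintro c -
    obtain ⟨p, q, -, h⟩ := h c
    exact (IntermediateField.mem_adjoin_range_iff k v c).mpr ⟨p, q, h⟩
  · intro h c
    have hc : c ∈ IntermediateField.adjoin k (Set.range v) := h ▸ IntermediateField.mem_top
    obtain ⟨p, q, hpq⟩ := (IntermediateField.mem_adjoin_range_iff k v c).mp hc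
    by_cases hq : aeval v q = 0
    · refine ⟨0, 1, by simp, ?_⟩
      rw [hpq, hq]
      simp
    · exact ⟨p, q, hq, hpq⟩

/-- generators of a tower -/
theorem gen_sumElim {k k' K' : Type} [Field k] [Field k'] [Field K'] [Algebra k k']
    [Algebra k' K'] [Algebra k K'] [IsScalarTower k k' K'] {ι κ : Type} (v : ι → k')
    (hgen : ∀ c : k', ∃ p q : MvPolynomial ι k, aeval v q ≠ 0 ∧ c = aeval v p / aeval v q)
    (x : κ → K')
    (hgenx : ∀ c : K', ∃ p q : MvPolynomial κ k', aeval x q ≠ 0 ∧ c = aeval x p / aeval x q)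
    (c : K') :
    ∃ p q : MvPolynomial (κ ⊕ ι) k, aeval (Sum.elim x (algebraMap k' K' ∘ v)) q ≠ 0 ∧
      c = aeval (Sum.elim x (algebraMap k' K' ∘ v)) p /
        aeval (Sum.elim x (algebraMap k' K' ∘ v)) q := by
  revert c
  rw [forall_exists_aeval_div_iff]
  set L := IntermediateField.adjoin k (Set.range (Sum.elim x (algebraMap k' K' ∘ v))) with hL
  have hx : ∀ i, x i ∈ L := fun i => IntermediateField.subset_adjoin _ _ ⟨Sum.inl i, rfl⟩
  have hv : ∀ i, algebraMap k' K' (v i) ∈ L :=
    fun i => IntermediateField.subset_adjoin _ _ ⟨Sum.inr i, rfl⟩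
  have h0 : ∀ p : MvPolynomial ι k, algebraMap k' K' (aeval v p) ∈ L := by
    intro p
    induction p using MvPolynomial.induction_on with
    | C a =>
      rw [MvPolynomial.aeval_C, ← IsScalarTower.algebraMap_apply]
      exact L.algebraMap_mem a
    | add p q hp hq => rw [map_add, map_add]; exact add_mem hp hq
    | mul_X p i hp => rw [map_mul, map_mul, aeval_X]; exact mul_mem hp (hv i)
  have h1 : ∀ c : k', algebraMap k' K' c ∈ L := by
    intro c
    obtain ⟨p, q, -, rfl⟩ := hgen c
    rw [map_div₀]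
    exact div_mem (h0 p) (h0 q)
  have h2 : ∀ p : MvPolynomial κ k', aeval x p ∈ L := by
    intro p
    induction p using MvPolynomial.induction_on with
    | C a =>
      rw [MvPolynomial.aeval_C]
      exact h1 a
    | add p q hp hq => rw [map_add]; exact add_mem hp hq
    | mul_X p i hp => rw [map_mul, aeval_X]; exact mul_mem hp (hx i)
  rw [eq_top_iff]
  rintro c -
  obtain ⟨p, q, -, rfl⟩ := hgenx c
  exact div_mem (h2 p) (h2 q)

/-- The absolute differentials of a purely transcendental extension `K'` of a purely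
transcendental extension `k'` of `𝔽₂`. -/
theorem exists_basis_kaehler_sum {k' K' : Type} [Field k'] [Field K'] [Algebra (ZMod 2) k']
    [Algebra k' K'] {ι κ : Type} [Finite ι] [Finite κ] (v : ι → k')
    (hv : AlgebraicIndependent (ZMod 2) v)
    (hgen : ∀ c : k', ∃ p q : MvPolynomial ι (ZMod 2), aeval v q ≠ 0 ∧
      c = aeval v p / aeval v q)
    (x : κ → K') (hx : AlgebraicIndependent k' x)
    (hgenx : ∀ c : K', ∃ p q : MvPolynomial κ k', aeval x q ≠ 0 ∧ c = aeval x p / aeval x q) :
    ∃ b : Module.Basis (κ ⊕ ι) K' (KaehlerDifferential ℤ K'),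
      ∀ i, b i = KaehlerDifferential.D ℤ K' (Sum.elim x (algebraMap k' K' ∘ v) i) := by
  let _ : Algebra (ZMod 2) K' := ((algebraMap k' K').comp (algebraMap (ZMod 2) k')).toAlgebra
  have : IsScalarTower (ZMod 2) k' K' := .of_algebraMap_eq fun _ => rfl
  exact exists_basis_kaehler (Sum.elim x (algebraMap k' K' ∘ v)) (hv.sumElim_comp hx)
    (gen_sumElim v hgen x hgenx)

/-! Derivations of `K'` -/

/-- A derivation with prescribed values on the generators. -/
theorem exists_derivation {k' K' : Type} [Field k'] [Field K'] [Algebra (ZMod 2) k']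
    [Algebra k' K'] {ι κ : Type} [Finite ι] [Finite κ] (v : ι → k')
    (hv : AlgebraicIndependent (ZMod 2) v)
    (hgen : ∀ c : k', ∃ p q : MvPolynomial ι (ZMod 2), aeval v q ≠ 0 ∧
      c = aeval v p / aeval v q)
    (x : κ → K') (hx : AlgebraicIndependent k' x)
    (hgenx : ∀ c : K', ∃ p q : MvPolynomial κ k', aeval x q ≠ 0 ∧ c = aeval x p / aeval x q)
    (y : κ ⊕ ι → K') :
    ∃ δ : Derivation ℤ K' K', (∀ i, δ (x i) = y (.inl i)) ∧
      (∀ i, δ (algebraMap k' K' (v i)) = y (.inr i)) := by
  obtain ⟨b, hb⟩ := exists_basis_kaehler_sum v hv hgen x hx hgenx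
  refine ⟨(b.constr ℤ y).compDer (KaehlerDifferential.D ℤ K'), fun i => ?_, fun i => ?_⟩
  · change b.constr ℤ y (KaehlerDifferential.D ℤ K' (x i)) = _
    have := hb (.inl i)
    rw [Sum.elim_inl] at this
    rw [← this, Module.Basis.constr_basis]
  · change b.constr ℤ y (KaehlerDifferential.D ℤ K' (algebraMap k' K' (v i))) = _
    have := hb (.inr i)
    rw [Sum.elim_inr, Function.comp_apply] at this
    rw [← this, Module.Basis.constr_basis]

/-- Two derivations of `K'` agreeing on the generators are equal. -/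
theorem derivation_eq_of_gens {k' K' : Type} [Field k'] [Field K'] [Algebra (ZMod 2) k']
    [Algebra k' K'] {ι κ : Type} (v : ι → k')
    (hgen : ∀ c : k', ∃ p q : MvPolynomial ι (ZMod 2), aeval v q ≠ 0 ∧
      c = aeval v p / aeval v q)
    (x : κ → K')
    (hgenx : ∀ c : K', ∃ p q : MvPolynomial κ k', aeval x q ≠ 0 ∧ c = aeval x p / aeval x q)
    {M : Type} [AddCommGroup M] [Module K' M] (δ δ' : Derivation ℤ K' M)
    (h1 : ∀ i, δ (x i) = δ' (x i))
    (h2 : ∀ i, δ (algebraMap k' K' (v i)) = δ' (algebraMap k' K' (v i))) : δ = δ' := by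
  let _ : Algebra (ZMod 2) K' := ((algebraMap k' K').comp (algebraMap (ZMod 2) k')).toAlgebra
  have : IsScalarTower (ZMod 2) k' K' := .of_algebraMap_eq fun _ => rfl
  have hz : ∀ (d : Derivation ℤ K' M) (a : ZMod 2), d (algebraMap (ZMod 2) K' a) = 0 := by
    intro d a
    obtain ⟨n, rfl⟩ := ZMod.intCast_surjective a
    rw [map_intCast]
    exact d.map_intCast n
  have hp : ∀ p : MvPolynomial (κ ⊕ ι) (ZMod 2), δ (aeval (Sum.elim x (algebraMap k' K' ∘ v)) p) =
      δ' (aeval (Sum.elim x (algebraMap k' K' ∘ v)) p) := by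
    intro p
    induction p using MvPolynomial.induction_on with
    | C a => rw [MvPolynomial.aeval_C, hz, hz]
    | add p q hp hq => rw [map_add, map_add, map_add, hp, hq]
    | mul_X p i hp =>
      rw [map_mul, aeval_X, Derivation.leibniz, Derivation.leibniz, hp]
      rcases i with i | i
      · rw [Sum.elim_inl, h1]
      · rw [Sum.elim_inr, Function.comp_apply, h2]
  ext c
  obtain ⟨p, q, hq, rfl⟩ := gen_sumElim v hgen x hgenx c
  rw [Derivation.leibniz_div, Derivation.leibniz_div, hp, hp]

/-! Piece Alg0 -/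

section Alg0

/-- the sequences `W`, `B` -/
noncomputable def WB {N : ℕ} {k' : Type} [Field k'] (v : Var N → k') : ℕ → k' × k'
  | 0 => (1, 0)
  | i + 1 => if h : i < N then
      (v (.e ⟨i, h⟩) * (WB v i).1,
        v (.e ⟨i, h⟩) * (WB v i).2 + v .s * (WB v i).1 ^ 2 + v .t * (WB v i).2 ^ 2)
    else (0, 0)

/-- the values of the derivation `δ` on the generators -/
noncomputable def δval {N : ℕ} {k' K' : Type} [Field k'] [Field K'] [Algebra k' K']
    (v : Var N → k') (X Y : K') : Fin 2 ⊕ Var N → K'
  | .inl _ => 0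
  | .inr .r => 1
  | .inr .s => X ^ 2
  | .inr .t => Y ^ 2
  | .inr (.e i) => X * Y * algebraMap k' K' (WB v i).1 + Y ^ 2 * algebraMap k' K' (WB v i).2

theorem exists_frame (N : ℕ) : ∃ (k' K' : Type) (_ : Field k') (_ : Field K')
    (_ : Algebra (ZMod 2) k') (_ : Algebra k' K'), Nonempty (Frame N k' K') := by
  let k' : Type := FractionRing (MvPolynomial (Var N) (ZMod 2))
  let K' : Type := FractionRing (MvPolynomial (Fin 2) k')
  let v : Var N → k' := fun i => algebraMap (MvPolynomial (Var N) (ZMod 2)) k' (MvPolynomial.X i)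
  let x : Fin 2 → K' := fun i => algebraMap (MvPolynomial (Fin 2) k') K' (MvPolynomial.X i)
  have hv' : (aeval v : MvPolynomial (Var N) (ZMod 2) →ₐ[ZMod 2] k') =
      IsScalarTower.toAlgHom (ZMod 2) (MvPolynomial (Var N) (ZMod 2)) k' := by
    ext i
    simp [v]
  have hx' : (aeval x : MvPolynomial (Fin 2) k' →ₐ[k'] K') =
      IsScalarTower.toAlgHom k' (MvPolynomial (Fin 2) k') K' := by
    ext i
    simp [x]
  have hv : AlgebraicIndependent (ZMod 2) v := by
    rw [AlgebraicIndependent, hv']
    exact IsFractionRing.injective (MvPolynomial (Var N) (ZMod 2)) k'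
  have hx : AlgebraicIndependent k' x := by
    rw [AlgebraicIndependent, hx']
    exact IsFractionRing.injective (MvPolynomial (Fin 2) k') K'
  have hgen : ∀ c : k', ∃ p q : MvPolynomial (Var N) (ZMod 2), aeval v q ≠ 0 ∧
      c = aeval v p / aeval v q := by
    intro c
    obtain ⟨p, q, hq, rfl⟩ := IsFractionRing.div_surjective (A := MvPolynomial (Var N) (ZMod 2)) c
    refine ⟨p, q, ?_, ?_⟩
    · rw [hv']
      exact IsFractionRing.to_map_ne_zero_of_mem_nonZeroDivisors hq
    · rw [hv']
      rfl
  have hgenx : ∀ c : K', ∃ p q : MvPolynomial (Fin 2) k', aeval x q ≠ 0 ∧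
      c = aeval x p / aeval x q := by
    intro c
    obtain ⟨p, q, hq, rfl⟩ := IsFractionRing.div_surjective (A := MvPolynomial (Fin 2) k') c
    refine ⟨p, q, ?_, ?_⟩
    · rw [hx']
      exact IsFractionRing.to_map_ne_zero_of_mem_nonZeroDivisors hq
    · rw [hx']
      rfl
  have hx2 : x = ![x 0, x 1] := by
    ext i
    fin_cases i <;> rfl
  obtain ⟨δ, hδ1, hδ2⟩ := exists_derivation v hv hgen x hx hgenx (δval v (x 0) (x 1))
  refine ⟨k', K', inferInstance, inferInstance, inferInstance, inferInstance, ⟨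
    { v := v
      X := x 0
      Y := x 1
      indep := hv
      gen := hgen
      indepXY := by rw [← hx2]; exact hx
      genXY := by rw [← hx2]; exact hgenx
      W := fun i => (WB v i).1
      B := fun i => (WB v i).2
      W_zero := by simp [WB]
      B_zero := by simp [WB]
      W_succ := by intro i; simp [WB]
      B_succ := by intro i; simp [WB]
      δ := δ
      δX := hδ1 0
      δY := hδ1 1
      δr := hδ2 .r
      δs := hδ2 .s
      δt := hδ2 .t
      δe := fun i => hδ2 (.e i) }⟩⟩

end Alg0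

end Pool.Agent.MP_4d8271_ag
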