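import Pool.Agent.MP_4d8271_ag.PieceA1

open MvPolynomial

namespace Pool.Agent.MP_4d8271_ag

/-! Piece Alg1 -/

/-- A polynomial over `𝔽₂` all of whose partial derivatives vanish is a square. -/
theorem exists_sq_of_pderiv_eq_zero {σ : Type} (g : MvPolynomial σ (ZMod 2))
    (hg : ∀ i, pderiv i g = 0) : ∃ h : MvPolynomial σ (ZMod 2), g = h ^ 2 := by
  have heven : ∀ m ∈ g.support, ∀ i, Even (m i) := by
    intro m hm i
    by_contra hodd
    rw [Nat.not_even_iff_odd] at hodd
    obtain ⟨l, hl⟩ := hodd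
    have h1 : m = (m - Finsupp.single i 1) + Finsupp.single i 1 := by
      ext j
      rw [Finsupp.add_apply, Finsupp.tsub_apply]
      by_cases hj : i = j
      · subst hj
        rw [Finsupp.single_eq_same]
        omega
      · rw [Finsupp.single_eq_of_ne (Ne.symm hj)]
        simp
    have h2 := coeff_pderiv (i := i) g (m - Finsupp.single i 1)
    rw [hg i, coeff_zero, ← h1, Finsupp.tsub_apply, Finsupp.single_eq_same] at h2
    have h3 : (((m i - 1 : ℕ) : ZMod 2) + 1) = 1 := by
      rw [hl, Nat.add_sub_cancel]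
      push_cast
      have : (2 : ZMod 2) = 0 := rfl
      rw [this, zero_mul, zero_add]
    rw [h3, mul_one] at h2
    exact (mem_support_iff.mp hm) h2.symm
  refine ⟨∑ m ∈ g.support, monomial (m.mapRange (fun n => n / 2) (by simp)) (coeff m g), ?_⟩
  rw [← expand_zmod (p := 2), map_sum]
  conv_lhs => rw [g.as_sum]
  refine Finset.sum_congr rfl fun m hm => ?_
  have h1 : 2 • m.mapRange (fun n => n / 2) (by simp) = m := by
    ext j
    rw [Finsupp.smul_apply, Finsupp.mapRange_apply, smul_eq_mul]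
    obtain ⟨l, hl⟩ := heven m hm j
    omega
  rw [expand_monomial, h1]

/-- Every derivation is a combination of partial derivatives. -/
theorem derivation_apply_eq_sum {F : Type} [Field F] {ι : Type} [Fintype ι] (v : ι → F)
    (b : Module.Basis ι F (KaehlerDifferential ℤ F))
    (hb : ∀ i, b i = KaehlerDifferential.D ℤ F (v i)) {M : Type} [AddCommGroup M] [Module F M]
    (d : Derivation ℤ F M) (c : F) :
    d c = ∑ i, b.repr (KaehlerDifferential.D ℤ F c) i • d (v i) := by
  have h1 : d c = d.liftKaehlerDifferential (KaehlerDifferential.D ℤ F c) :=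
    (d.liftKaehlerDifferential_comp_D c).symm
  rw [h1]
  conv_lhs => rw [← b.sum_repr (KaehlerDifferential.D ℤ F c)]
  rw [map_sum]
  refine Finset.sum_congr rfl fun i _ => ?_
  rw [map_smul, hb, d.liftKaehlerDifferential_comp_D]

/-- The partial derivatives on `F = 𝔽₂(v)`. -/
theorem repr_D_aeval {F : Type} [Field F] [Algebra (ZMod 2) F] {ι : Type}
    (v : ι → F) (b : Module.Basis ι F (KaehlerDifferential ℤ F))
    (hb : ∀ i, b i = KaehlerDifferential.D ℤ F (v i)) (g : MvPolynomial ι (ZMod 2)) (i : ι) :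
    b.repr (KaehlerDifferential.D ℤ F (aeval v g)) i = aeval v (pderiv i g) := by
  classical
  induction g using MvPolynomial.induction_on with
  | C a =>
    obtain ⟨n, rfl⟩ := ZMod.intCast_surjective a
    have h1 : aeval v (C (n : ZMod 2) : MvPolynomial ι (ZMod 2)) = ((n : ℤ) : F) := by
      rw [aeval_C, map_intCast]
    have h2 : KaehlerDifferential.D ℤ F ((n : ℤ) : F) = 0 :=
      (KaehlerDifferential.D ℤ F).map_intCast n
    rw [h1, h2, pderiv_C, map_zero, map_zero]
    rfl
  | add p q hp hq => rw [map_add, map_add, map_add, Finsupp.add_apply, hp, hq, map_add, map_add]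
  | mul_X p j hp =>
    rw [map_mul, aeval_X, Derivation.leibniz, map_add, map_smul, map_smul, Finsupp.add_apply,
      Finsupp.smul_apply, Finsupp.smul_apply, hp, ← hb, b.repr_self, pderiv_mul, map_add, map_mul,
      map_mul, aeval_X, smul_eq_mul, smul_eq_mul]
    by_cases hij : j = i
    · subst hij
      rw [Finsupp.single_eq_same, pderiv_X_self, map_one]
      ring
    · rw [Finsupp.single_eq_of_ne (Ne.symm hij), pderiv_X_of_ne hij, map_zero]
      ring

/-- An element of `𝔽₂(v)` with vanishing differential is a square. -/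
theorem exists_sq_of_D_eq_zero {F : Type} [Field F] [Algebra (ZMod 2) F] {ι : Type} [Finite ι]
    (v : ι → F) (hv : AlgebraicIndependent (ZMod 2) v)
    (hgen : ∀ c : F, ∃ p q : MvPolynomial ι (ZMod 2), aeval v q ≠ 0 ∧
      c = aeval v p / aeval v q) (c : F) (hc : KaehlerDifferential.D ℤ F c = 0) :
    ∃ a : F, c = a ^ 2 := by
  have hchar : CharP F 2 := charP_of_injective_algebraMap (algebraMap (ZMod 2) F).injective 2
  obtain ⟨b, hb⟩ := exists_basis_kaehler v hv hgen
  obtain ⟨p, q, hq, hpq⟩ := hgen c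
  have h1 : aeval v (p * q) = c * aeval v q ^ 2 := by
    rw [map_mul, hpq]
    field_simp
  have h2 : KaehlerDifferential.D ℤ F (aeval v (p * q)) = 0 := by
    rw [h1, Derivation.leibniz, hc, smul_zero, add_zero, Derivation.leibniz_pow]
    rw [two_smul, ← two_smul F]
    rw [CharTwo.two_eq_zero, zero_smul, smul_zero]
  have h3 : ∀ i, pderiv i (p * q) = 0 := by
    intro i
    apply hv
    have h4 := repr_D_aeval v b hb (p * q) i
    rw [h2, map_zero] at h4
    rw [map_zero, ← h4]
    rfl
  obtain ⟨h, hh⟩ := exists_sq_of_pderiv_eq_zero _ h3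
  refine ⟨aeval v h / aeval v q, ?_⟩
  rw [hh, map_pow] at h1
  rw [div_pow, h1]
  field_simp

/-- In characteristic two the square of a derivation is a derivation. -/
def sqDer {F : Type} [CommRing F] [CharP F 2] (d : Derivation ℤ F F) : Derivation ℤ F F where
  toLinearMap := d.toLinearMap ∘ₗ d.toLinearMap
  map_one_eq_zero' := by
    change d (d 1) = 0
    rw [d.map_one_eq_zero, map_zero]
  leibniz' a b := by
    change d (d (a * b)) = a • d (d b) + b • d (d a)
    simp only [Derivation.leibniz, map_add, smul_eq_mul]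
    have h2 : (2 : F) = 0 := CharTwo.two_eq_zero
    linear_combination (d a * d b) * h2

@[simp] theorem sqDer_apply {F : Type} [CommRing F] [CharP F 2] (d : Derivation ℤ F F) (a : F) :
    sqDer d a = d (d a) := rfl

/-- squares are constants -/
theorem der_sq {F M : Type} [CommRing F] [CharP F 2] [AddCommGroup M] [Module F M]
    (d : Derivation ℤ F M) (a : F) : d (a ^ 2) = 0 := by
  rw [Derivation.leibniz_pow, two_smul, ← two_smul F, CharTwo.two_eq_zero, zero_smul]

namespace Frame

variable {N : ℕ} {k' K' : Type} [Field k'] [Field K'] [Algebra (ZMod 2) k'] [Algebra k' K']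
variable (S : Frame N k' K')

omit [Field K'] [Algebra k' K'] in
theorem charP_k' (k' : Type) [Field k'] [Algebra (ZMod 2) k'] : CharP k' 2 :=
  charP_of_injective_algebraMap (algebraMap (ZMod 2) k').injective 2

theorem charP_K' (k' K' : Type) [Field k'] [Field K'] [Algebra (ZMod 2) k'] [Algebra k' K'] :
    CharP K' 2 :=
  have : CharP k' 2 := charP_of_injective_algebraMap (algebraMap (ZMod 2) k').injective 2
  charP_of_injective_algebraMap (algebraMap k' K').injective 2

theorem f_zero : S.f 0 = S.X * S.Y := by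
  rw [f, S.W_zero, S.B_zero, map_one, map_zero, mul_one, mul_zero, add_zero]

theorem f_succ (i : Fin N) : S.f (i + 1) = algebraMap k' K' (S.v (.e i)) * S.f i +
    S.Y ^ 2 * algebraMap k' K' (S.v .s) * algebraMap k' K' (S.W i) ^ 2 +
    S.Y ^ 2 * algebraMap k' K' (S.v .t) * algebraMap k' K' (S.B i) ^ 2 := by
  rw [f, f, S.W_succ, S.B_succ]
  simp only [map_add, map_mul, map_pow]
  ring

theorem δ_e (i : Fin N) : S.δ (algebraMap k' K' (S.v (.e i))) = S.f i := S.δe i

theorem δ_sq (a : K') : S.δ (a ^ 2) = 0 :=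
  haveI := charP_K' k' K'
  der_sq S.δ a

theorem f_sq (i : ℕ) : S.f i ^ 2 = S.X ^ 2 * S.Y ^ 2 * algebraMap k' K' (S.W i) ^ 2 +
    S.Y ^ 2 * S.Y ^ 2 * algebraMap k' K' (S.B i) ^ 2 := by
  have := charP_K' k' K'
  have h2 : (2 : K') = 0 := CharTwo.two_eq_zero
  rw [f]
  linear_combination (S.X * S.Y * algebraMap k' K' (S.W i) *
    (S.Y ^ 2 * algebraMap k' K' (S.B i))) * h2

theorem δ_f (i : ℕ) (hi : i ≤ N) : S.δ (S.f i) = 0 := by
  have hch := charP_K' k' K'
  have h2 : (2 : K') = 0 := CharTwo.two_eq_zero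
  induction i with
  | zero =>
    rw [f_zero, Derivation.leibniz, S.δX, S.δY, smul_zero, smul_zero, add_zero]
  | succ i ih =>
    have hiN : i < N := hi
    have h1 := S.f_succ ⟨i, hiN⟩
    have h3 := S.δ_e ⟨i, hiN⟩
    simp only at h1 h3
    rw [h1]
    simp only [map_add, Derivation.leibniz, smul_eq_mul, S.δ_sq, S.δs, S.δt, h3,
      ih (by omega), mul_zero, add_zero, zero_add]
    have h4 := S.f_sq i
    linear_combination h4 + S.f i ^ 2 * h2 - S.f i ^ 2 * h2 + (S.X ^ 2 * S.Y ^ 2 *
      algebraMap k' K' (S.W i) ^ 2 + S.Y ^ 2 * S.Y ^ 2 * algebraMap k' K' (S.B i) ^ 2) * h2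

theorem δ_δ (g : K') : S.δ (S.δ g) = 0 := by
  have hch := charP_K' k' K'
  have h : sqDer S.δ = 0 := by
    refine derivation_eq_of_gens S.v S.gen ![S.X, S.Y] S.genXY (sqDer S.δ) 0 ?_ ?_
    · intro i
      fin_cases i
      · change S.δ (S.δ S.X) = 0
        rw [S.δX, map_zero]
      · change S.δ (S.δ S.Y) = 0
        rw [S.δY, map_zero]
    · intro i
      rw [sqDer_apply, Derivation.zero_apply]
      cases i with
      | r => rw [S.δr, S.δ.map_one_eq_zero]
      | s => rw [S.δs, S.δ_sq]
      | t => rw [S.δt, S.δ_sq]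
      | e i => rw [S.δ_e, S.δ_f _ (by omega)]
  have h1 := congrArg (fun d : Derivation ℤ K' K' => d g) h
  exact h1

omit [Field K'] [Algebra k' K'] in
/-- `aeval` at the squares is the square of `aeval` -/
theorem aeval_sq (v : Var N → k') (p : MvPolynomial (Var N) (ZMod 2)) :
    aeval (fun i => v i ^ 2) p = aeval v p ^ 2 := by
  have hch := charP_k' k'
  rw [← map_pow, ← expand_zmod, aeval_expand]
  rfl

theorem sq_fg (c : sq k') : ∃ p q : MvPolynomial (Var N) (ZMod 2), aeval (fun i => S.v i ^ 2) q ≠ 0 ∧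
    (c : k') = aeval (fun i => S.v i ^ 2) p / aeval (fun i => S.v i ^ 2) q := by
  obtain ⟨b, hb⟩ := mem_sq.mp c.2
  obtain ⟨p, q, hq, hpq⟩ := S.gen b
  refine ⟨p, q, ?_, ?_⟩
  · rw [aeval_sq]
    exact pow_ne_zero 2 hq
  · rw [aeval_sq, aeval_sq, hb, hpq, div_pow]

/-- `1, X², XY, Y²` are linearly independent over `k'`. -/
theorem coeffs_eq_zero (a b c d : k')
    (h : algebraMap k' K' a + algebraMap k' K' b * S.X ^ 2 + algebraMap k' K' c * (S.X * S.Y) +
      algebraMap k' K' d * S.Y ^ 2 = 0) : a = 0 ∧ b = 0 ∧ c = 0 ∧ d = 0 := by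
  classical
  let p : MvPolynomial (Fin 2) k' := C a + C b * MvPolynomial.X 0 ^ 2 +
    C c * (MvPolynomial.X 0 * MvPolynomial.X 1) + C d * MvPolynomial.X 1 ^ 2
  have hp : aeval ![S.X, S.Y] p = 0 := by
    simp only [p, map_add, map_mul, map_pow, aeval_C, aeval_X]
    exact h
  have hp0 : p = 0 := by
    apply S.indepXY
    rw [hp, map_zero]
  have hmon : p = monomial 0 a + monomial (Finsupp.single 0 2) b +
      monomial (Finsupp.single 0 1 + Finsupp.single 1 1) c + monomial (Finsupp.single 1 2) d := by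
    simp only [p]
    rw [X_pow_eq_monomial, X_pow_eq_monomial, MvPolynomial.X, MvPolynomial.X, monomial_mul,
      C_mul_monomial, C_mul_monomial, C_mul_monomial, mul_one, mul_one, mul_one, mul_one]
    rfl
  rw [hmon] at hp0
  have key : ∀ m : Fin 2 →₀ ℕ, coeff m (monomial 0 a + monomial (Finsupp.single 0 2) b +
      monomial (Finsupp.single 0 1 + Finsupp.single 1 1) c +
      monomial (Finsupp.single 1 2) d : MvPolynomial (Fin 2) k') = 0 := by
    intro m
    rw [hp0, coeff_zero]
  have k1 := key 0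
  have k2 := key (Finsupp.single 0 2)
  have k3 := key (Finsupp.single 0 1 + Finsupp.single 1 1)
  have k4 := key (Finsupp.single 1 2)
  simp only [coeff_add, coeff_monomial, Finsupp.ext_iff, Fin.forall_fin_two, Finsupp.add_apply,
    Finsupp.single_apply, Finsupp.coe_zero, Pi.zero_apply] at k1 k2 k3 k4
  simp at k1 k2 k3 k4
  exact ⟨k1, k2, k3, k4⟩

/-- The iterates `w ^ (2 ^ j)` of a derivation. -/
def iterDer {F : Type} [CommRing F] [CharP F 2] (w : Derivation ℤ F F) : ℕ → Derivation ℤ F F
  | 0 => w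
  | j + 1 => sqDer (iterDer w j)

theorem iterDer_eq_zero {F : Type} [CommRing F] [CharP F 2] (w : Derivation ℤ F F) (c : F)
    (hc : w c = 0) (j : ℕ) : iterDer w j c = 0 := by
  induction j with
  | zero => exact hc
  | succ j ih => rw [iterDer, sqDer_apply, ih, map_zero]

omit [Field K'] [Algebra k' K'] [Algebra (ZMod 2) k'] in
/-- values of the iterates -/
theorem iterDer_e [CharP k' 2] (v : Var N → k') (W : ℕ → k') (hW0 : W 0 = 1)
    (hW : ∀ i : Fin N, W (i + 1) = v (.e i) * W i) (w : Derivation ℤ k' k')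
    (hw : ∀ i : Fin N, w (v (.e i)) = W i) (i : ℕ) (hi : i < N) :
    (∀ j, i < j → iterDer w j (v (.e ⟨i, hi⟩)) = 0) ∧ iterDer w i (v (.e ⟨i, hi⟩)) = 1 := by
  have hrec : ∀ (i' : ℕ) (hi' : i' + 1 < N) (j : ℕ), ∃ s : k',
      (∀ d : Derivation ℤ k' k', d s = 0) ∧
      (∀ j', j = j' + 1 → s = iterDer w j' (v (.e ⟨i', Nat.lt_of_succ_lt hi'⟩)) ^ 2) ∧
      iterDer w j (v (.e ⟨i' + 1, hi'⟩)) =
        v (.e ⟨i', Nat.lt_of_succ_lt hi'⟩) *
          iterDer w j (v (.e ⟨i', Nat.lt_of_succ_lt hi'⟩)) + s := by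
    intro i' hi' j
    induction j with
    | zero =>
      refine ⟨0, fun d => map_zero d, fun j' h => by omega, ?_⟩
      rw [iterDer, hw, hw, add_zero]
      exact hW ⟨i', Nat.lt_of_succ_lt hi'⟩
    | succ j ih =>
      obtain ⟨s, hs, -, h⟩ := ih
      refine ⟨iterDer w j (v (.e ⟨i', Nat.lt_of_succ_lt hi'⟩)) ^ 2, fun d => der_sq d _,
        fun j' h => ?_, ?_⟩
      · have : j' = j := by omega
        rw [this]
      · rw [iterDer, sqDer_apply, h, map_add, hs, Derivation.leibniz, sqDer_apply, smul_eq_mul,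
          smul_eq_mul, add_zero]
        ring
  induction i with
  | zero =>
    refine ⟨?_, ?_⟩
    · intro j hj
      have h0 : w (v (.e ⟨0, hi⟩)) = 1 := by rw [hw]; exact hW0
      obtain ⟨j, rfl⟩ : ∃ j', j = j' + 1 := ⟨j - 1, by omega⟩
      clear hj
      induction j with
      | zero => rw [iterDer, sqDer_apply, iterDer, h0, w.map_one_eq_zero]
      | succ j ih => rw [iterDer, sqDer_apply, ih, map_zero]
    · rw [iterDer, hw]
      exact hW0
  | succ i ih =>
    obtain ⟨ih1, ih2⟩ := ih (by omega)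
    refine ⟨?_, ?_⟩
    · intro j hj
      obtain ⟨s, -, hs, h⟩ := hrec i hi j
      rw [h, ih1 j (by omega), hs (j - 1) (by omega), ih1 (j - 1) (by omega)]
      simp
    · obtain ⟨s, -, hs, h⟩ := hrec i hi (i + 1)
      rw [h, ih1 (i + 1) (by omega), hs i rfl, ih2]
      simp

/-- the constants of `δ` in `k'` are the squares -/
theorem mem_sq_of_δ_eq_zero (c : k') (hc : S.δ (algebraMap k' K' c) = 0) : c ∈ sq k' := by
  classical
  have hch := charP_k' k'
  have hch' := charP_K' k' K'
  obtain ⟨b, hb⟩ := exists_basis_kaehler S.v S.indep S.gen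
  suffices hD : KaehlerDifferential.D ℤ k' c = 0 by
    rw [mem_sq]
    exact exists_sq_of_D_eq_zero S.v S.indep S.gen c hD
  -- partial derivatives
  set u : Var N → k' := fun i => b.repr (KaehlerDifferential.D ℤ k' c) i with hu
  have hsum : ∀ {A : Type} [AddCommMonoid A] (g : Var N → A),
      ∑ i, g i = g .r + g .s + g .t + ∑ i, g (.e i) := by
    intro A _ g
    rw [← (Var.equivSum N).symm.sum_comp, Fintype.sum_sum_type, Fin.sum_univ_three]
    rfl
  -- the derivation `w`
  let wval : Var N → k' := fun i => match i with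
    | .r => 0
    | .s => 0
    | .t => 0
    | .e i => S.W i
  let w : Derivation ℤ k' k' := (b.constr ℤ wval).compDer (KaehlerDifferential.D ℤ k')
  have hwv : ∀ i, w (S.v i) = wval i := by
    intro i
    change b.constr ℤ wval (KaehlerDifferential.D ℤ k' (S.v i)) = _
    rw [← hb, Module.Basis.constr_basis]
  have hδ := derivation_apply_eq_sum S.v b hb (S.δ.compAlgebraMap k') c
  have hδ' : ∀ a : k', S.δ.compAlgebraMap k' a = S.δ (algebraMap k' K' a) := fun a => rfl
  rw [hδ', hc, hsum] at hδ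
  simp only [hδ', S.δr, S.δs, S.δt, S.δe, Algebra.smul_def] at hδ
  have hδ2 : algebraMap k' K' (u .r) + algebraMap k' K' (u .s) * S.X ^ 2 +
      algebraMap k' K' (∑ i, u (.e i) * S.W i) * (S.X * S.Y) +
      algebraMap k' K' (u .t + ∑ i, u (.e i) * S.B i) * S.Y ^ 2 = 0 := by
    rw [hδ, map_add, map_sum, map_sum, add_mul, Finset.sum_mul, Finset.sum_mul]
    have h1 : ∑ i : Fin N, algebraMap k' K' (u (.e i)) *
        (S.X * S.Y * algebraMap k' K' (S.W i) + S.Y ^ 2 * algebraMap k' K' (S.B i)) =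
        ∑ i : Fin N, algebraMap k' K' (u (.e i) * S.W i) * (S.X * S.Y) +
        ∑ i : Fin N, algebraMap k' K' (u (.e i) * S.B i) * S.Y ^ 2 := by
      rw [← Finset.sum_add_distrib]
      refine Finset.sum_congr rfl fun i _ => ?_
      rw [map_mul, map_mul]
      ring
    rw [h1]
    ring
  obtain ⟨hr, hs, hw0, ht⟩ := S.coeffs_eq_zero _ _ _ _ hδ2
  have hwc : w c = 0 := by
    rw [derivation_apply_eq_sum S.v b hb w c, hsum]
    simp only [hwv, wval, mul_zero, zero_add, smul_eq_mul]
    exact hw0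
  have hiter : ∀ j : ℕ, ∑ i, u (.e i) * iterDer w j (S.v (.e i)) = 0 := by
    intro j
    have h1 := derivation_apply_eq_sum S.v b hb (iterDer w j) c
    rw [iterDer_eq_zero w c hwc j, hsum, iterDer_eq_zero w (S.v .r) (hwv .r),
      iterDer_eq_zero w (S.v .s) (hwv .s), iterDer_eq_zero w (S.v .t) (hwv .t)] at h1
    simp only [mul_zero, zero_add, smul_eq_mul] at h1
    exact h1.symm
  have he : ∀ i : Fin N, u (.e i) = 0 := by
    by_contra hcon
    push Not at hcon
    have hne : (Finset.univ.filter fun i : Fin N => u (.e i) ≠ 0).Nonempty := by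
      obtain ⟨i, hi⟩ := hcon
      exact ⟨i, by simpa using hi⟩
    set i₀ := (Finset.univ.filter fun i : Fin N => u (.e i) ≠ 0).max' hne with hi₀
    have hi₀mem := Finset.max'_mem _ hne
    rw [← hi₀, Finset.mem_filter] at hi₀mem
    have hmax : ∀ i, i₀ < i → u (.e i) = 0 := by
      intro i hi
      by_contra hne'
      have h1 := Finset.le_max' (Finset.univ.filter fun i : Fin N => u (.e i) ≠ 0) i (by simpa using hne')
      exact absurd hi (not_lt.mpr h1)
    have h1 := hiter i₀
    rw [Finset.sum_eq_single i₀] at h1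
    · have h2 := (iterDer_e S.v S.W S.W_zero S.W_succ w (fun i => hwv (.e i)) i₀ i₀.2).2
      rw [Fin.eta] at h2
      rw [h2, mul_one] at h1
      exact hi₀mem.2 h1
    · intro i _ hi
      rcases lt_or_gt_of_ne hi with hlt | hgt
      · have h2 := (iterDer_e S.v S.W S.W_zero S.W_succ w (fun i => hwv (.e i)) i i.2).1 i₀ hlt
        rw [Fin.eta] at h2
        rw [h2, mul_zero]
      · rw [hmax i hgt, zero_mul]
    · intro h
      exact absurd (Finset.mem_univ _) h
  have ht0 : u .t = 0 := by
    rw [Finset.sum_eq_zero fun i _ => by rw [he i, zero_mul], add_zero] at ht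
    exact ht
  have hu0 : ∀ i, u i = 0 := by
    intro i
    cases i with
    | r => exact hr
    | s => exact hs
    | t => exact ht0
    | e i => exact he i
  apply b.repr.injective
  rw [map_zero]
  ext i
  exact hu0 i

end Frame

end Pool.Agent.MP_4d8271_ag
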