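import Pool.Agent.MP_4d8271_ag.Frame

open MvPolynomial

namespace Pool.Agent.MP_4d8271_ag

namespace Frame

variable {N : ℕ} {k' K' : Type} [Field k'] [Field K'] [Algebra (ZMod 2) k'] [Algebra k' K']
variable (S : Frame N k' K')

theorem one_mem_V : (1 : K') ∈ S.V :=
  ⟨Submodule.subset_span (by simp), S.δ.map_one_eq_zero⟩

theorem X_sq_mem_V : S.X ^ 2 ∈ S.V :=
  ⟨Submodule.subset_span (by simp), by rw [Derivation.leibniz_pow, S.δX]; simp⟩

theorem Y_sq_mem_V : S.Y ^ 2 ∈ S.V :=
  ⟨Submodule.subset_span (by simp), by rw [Derivation.leibniz_pow, S.δY]; simp⟩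

theorem sq_mem_of_mem_V (g : K') (hg : g ∈ S.V) :
    ∃ a ∈ S.V, ∃ b ∈ S.V, ∃ c ∈ S.V, g ^ 2 = 1 * a + S.X ^ 2 * b + S.Y ^ 2 * c := by
  have : CharP k' 2 := charP_of_injective_algebraMap (algebraMap (ZMod 2) k').injective 2
  have : CharP K' 2 := charP_of_injective_algebraMap (algebraMap k' K').injective 2
  have h1 := S.one_mem_V
  have hX := S.X_sq_mem_V
  have hY := S.Y_sq_mem_V
  have h0 : (0 : K') ∈ S.V := zero_mem _
  have key : ∀ g ∈ S.M, ∃ a ∈ S.V, ∃ b ∈ S.V, ∃ c ∈ S.V,
      g ^ 2 = 1 * a + S.X ^ 2 * b + S.Y ^ 2 * c := by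
    intro g hg
    refine Submodule.span_induction (p := fun g _ => ∃ a ∈ S.V, ∃ b ∈ S.V, ∃ c ∈ S.V,
      g ^ 2 = 1 * a + S.X ^ 2 * b + S.Y ^ 2 * c) ?_ ?_ ?_ ?_ hg
    · intro x hx
      simp only [Set.mem_insert_iff, Set.mem_singleton_iff] at hx
      rcases hx with rfl | rfl | rfl | rfl | rfl | rfl
      · exact ⟨1, h1, 0, h0, 0, h0, by ring⟩
      · exact ⟨S.X ^ 2, hX, 0, h0, 0, h0, by ring⟩
      · exact ⟨S.Y ^ 2, hY, 0, h0, 0, h0, by ring⟩
      · exact ⟨0, h0, S.X ^ 2, hX, 0, h0, by ring⟩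
      · exact ⟨0, h0, S.Y ^ 2, hY, 0, h0, by ring⟩
      · exact ⟨0, h0, 0, h0, S.Y ^ 2, hY, by ring⟩
    · exact ⟨0, h0, 0, h0, 0, h0, by ring⟩
    · rintro x y _ _ ⟨a, ha, b, hb, c, hc, h⟩ ⟨a', ha', b', hb', c', hc', h'⟩
      refine ⟨a + a', add_mem ha ha', b + b', add_mem hb hb', c + c', add_mem hc hc', ?_⟩
      rw [CharTwo.add_sq, h, h']
      ring
    · rintro z x _ ⟨a, ha, b, hb, c, hc, h⟩
      let w : sq k' := ⟨z ^ 2, mem_sq.mpr ⟨z, rfl⟩⟩
      have hw : ∀ y : K', w • y = algebraMap k' K' z ^ 2 * y := by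
        intro y
        rw [Subfield.smul_def, Algebra.smul_def]
        simp [w]
      refine ⟨w • a, S.V.smul_mem w ha, w • b, S.V.smul_mem w hb, w • c, S.V.smul_mem w hc, ?_⟩
      rw [hw, hw, hw, Algebra.smul_def, mul_pow, h]
      ring
  exact key g hg.1

include S in
/-- `k'` is a finite extension of its subfield of squares. -/
lemma finite_over_sq : Module.Finite (sq k') k' := by
  classical
  have hint : ∀ c : k', IsIntegral (sq k') c := by
    intro c
    refine IsIntegral.of_pow (n := 2) two_pos ?_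
    have : c ^ 2 = algebraMap (sq k') k' ⟨c ^ 2, mem_sq.mpr ⟨c, rfl⟩⟩ := rfl
    rw [this]
    exact isIntegral_algebraMap
  have : Algebra.IsIntegral (sq k') k' := ⟨hint⟩
  have hft : Algebra.FiniteType (sq k') k' := by
    refine ⟨⟨Finset.univ.image S.v, ?_⟩⟩
    rw [eq_top_iff]
    rintro c -
    obtain ⟨p, q, hq, hc⟩ := S.gen c
    have hmem : ∀ r : MvPolynomial (Var N) (ZMod 2), aeval S.v r ∈
        Algebra.adjoin (sq k') ((Finset.univ.image S.v : Finset k') : Set k') := by
      intro r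
      induction r using MvPolynomial.induction_on with
      | C a =>
        have ha : a = 0 ∨ a = 1 := by
          revert a
          decide
        rcases ha with rfl | rfl
        · simp
        · simp
      | add p q hp hq =>
        rw [map_add]
        exact add_mem hp hq
      | mul_X p i hp =>
        rw [map_mul, aeval_X]
        refine mul_mem hp (Algebra.subset_adjoin ?_)
        simp
    have hw : ((aeval S.v q) ^ 2)⁻¹ ∈ sq k' := mem_sq.mpr ⟨(aeval S.v q)⁻¹, by rw [inv_pow]⟩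
    have : c = (⟨((aeval S.v q) ^ 2)⁻¹, hw⟩ : sq k') • (aeval S.v p * aeval S.v q) := by
      rw [Subfield.smul_def, hc, smul_eq_mul]
      field_simp
    rw [this]
    exact Subalgebra.smul_mem _ (mul_mem (hmem p) (hmem q)) _
  exact Algebra.IsIntegral.finite

theorem finite_V : Module.Finite (sq k') S.V := by
  have h1 : Module.Finite (sq k') k' := S.finite_over_sq
  have h2 : Module.Finite k' S.M := by
    refine Module.Finite.of_fg ?_
    refine Submodule.fg_span ?_
    exact Set.toFinite _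
  have h3 : Module.Finite (sq k') S.M := Module.Finite.trans k' S.M
  let F : S.V →ₗ[sq k'] S.M :=
    { toFun := fun g => ⟨g.1, g.2.1⟩
      map_add' := fun _ _ => rfl
      map_smul' := fun _ _ => rfl }
  have hF : Function.Injective F := by
    intro x y hxy
    exact Subtype.ext (congrArg (fun z : S.M => (z : K')) hxy)
  exact Module.Finite.of_injective F hF

end Frame

end Pool.Agent.MP_4d8271_ag
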