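import Pool.Agent.MP_4d8271_ag.PieceAlg1
import Pool.Agent.MP_4d8271_ag.Coords

open MvPolynomial

namespace Pool.Agent.MP_4d8271_ag

namespace Frame

variable {N : ℕ} {k' K' : Type} [Field k'] [Field K'] [Algebra (ZMod 2) k'] [Algebra k' K']
variable (S : Frame N k' K')

/-! ### Basic facts -/

omit S in
theorem charPK (_ : Frame N k' K') : CharP K' 2 := by
  have : CharP k' 2 := charP_of_injective_algebraMap (algebraMap (ZMod 2) k').injective 2
  exact charP_of_injective_algebraMap (algebraMap k' K').injective 2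

theorem X_ne_zero : S.X ≠ 0 := by
  have := S.indepXY.ne_zero 0
  simpa using this

theorem Y_ne_zero : S.Y ≠ 0 := by
  have := S.indepXY.ne_zero 1
  simpa using this

theorem δ_X_sq : S.δ (S.X ^ 2) = 0 := S.δ_sq _

theorem δ_Y_sq : S.δ (S.Y ^ 2) = 0 := S.δ_sq _

/-- dividing by a constant -/
theorem δ_div (a c : K') (hc : S.δ c = 0) : S.δ (a / c) = S.δ a / c := by
  rw [Derivation.leibniz_div, hc, smul_zero, sub_zero, smul_smul, smul_eq_mul, div_eq_inv_mul]
  by_cases h : c = 0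
  · simp [h]
  · congr 1
    field_simp

theorem δ_of_mem_chart (c : K') (hc : S.δ c = 0) (g : K') (hg : g ∈ S.chart c) : S.δ g = 0 := by
  have := S.charPK
  unfold chart at hg
  induction hg using Algebra.adjoin_induction with
  | mem x hx =>
    obtain ⟨a, ha, rfl⟩ := hx
    rw [S.δ_div _ _ hc, ha.2, zero_div]
  | algebraMap r =>
    obtain ⟨b, hb⟩ := mem_sq.1 r.2
    have : algebraMap (sq k') K' r = algebraMap k' K' b ^ 2 := by
      rw [← map_pow, ← hb]
      rfl
    rw [this]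
    exact S.δ_sq _
  | add x y hx hy hx' hy' => rw [map_add, hx', hy', add_zero]
  | mul x y hx hy hx' hy' => rw [Derivation.leibniz, hx', hy', smul_zero, smul_zero, add_zero]

/-! ### The key lemma -/

section Key

variable (c u : K') (G : Subalgebra (sq k') K')

/-- `Φ f = f + u δ f / c` and `δ f / c` lie in `G` -/
def InT (f : K') : Prop := f + u * (S.δ f / c) ∈ G ∧ S.δ f / c ∈ G

variable {S c u G}

omit S in
theorem alg_mem_G (b : k') : algebraMap k' K' b ^ 2 ∈ G := by
  have h : algebraMap (sq k') K' ⟨b ^ 2, mem_sq.2 ⟨b, rfl⟩⟩ = algebraMap k' K' b ^ 2 := by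
    rw [← map_pow]
    rfl
  rw [← h]
  exact G.algebraMap_mem _

theorem InT.of_mem {f : K'} (hf : f ∈ G) (hδ : S.δ f = 0) : S.InT c u G f := by
  unfold InT
  rw [hδ, zero_div, mul_zero, add_zero]
  exact ⟨hf, zero_mem _⟩

theorem InT.mem {f : K'} (hf : S.InT c u G f) (hδ : S.δ f = 0) : f ∈ G := by
  have := hf.1
  rwa [hδ, zero_div, mul_zero, add_zero] at this

theorem InT.add {f g : K'} (hf : S.InT c u G f) (hg : S.InT c u G g) : S.InT c u G (f + g) := by
  constructor
  · have : f + g + u * (S.δ (f + g) / c) = (f + u * (S.δ f / c)) + (g + u * (S.δ g / c)) := by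
      rw [map_add]; ring
    rw [this]
    exact add_mem hf.1 hg.1
  · rw [map_add, add_div]
    exact add_mem hf.2 hg.2

theorem InT.mul (hu2 : u ^ 2 ∈ G) {f g : K'} (hf : S.InT c u G f) (hg : S.InT c u G g) :
    S.InT c u G (f * g) := by
  have h2 : (2 : K') = 0 := by
    have := S.charPK
    exact CharTwo.two_eq_zero
  have e : S.δ (f * g) / c = f * (S.δ g / c) + g * (S.δ f / c) := by
    rw [Derivation.leibniz, smul_eq_mul, smul_eq_mul]; ring
  constructor
  · have : f * g + u * (S.δ (f * g) / c) = (f + u * (S.δ f / c)) * (g + u * (S.δ g / c)) +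
        u ^ 2 * ((S.δ f / c) * (S.δ g / c)) := by
      rw [e]
      linear_combination (-(u ^ 2 * ((S.δ f / c) * (S.δ g / c)))) * h2
    rw [this]
    exact add_mem (mul_mem hf.1 hg.1) (mul_mem hu2 (mul_mem hf.2 hg.2))
  · have : S.δ (f * g) / c = (f + u * (S.δ f / c)) * (S.δ g / c) +
        (g + u * (S.δ g / c)) * (S.δ f / c) := by
      rw [e]
      linear_combination (-(u * ((S.δ f / c) * (S.δ g / c)))) * h2
    rw [this]
    exact add_mem (mul_mem hf.1 hg.2) (mul_mem hg.1 hf.2)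

theorem InT.algebraMap_of_gens (hu2 : u ^ 2 ∈ G) (hv : ∀ i, S.InT c u G (algebraMap k' K' (S.v i)))
    (b : k') : S.InT c u G (algebraMap k' K' b) := by
  have hp : ∀ p : MvPolynomial (Var N) (ZMod 2),
      S.InT c u G (algebraMap k' K' (aeval S.v p)) := by
    intro p
    induction p using MvPolynomial.induction_on with
    | C a =>
      obtain ⟨n, rfl⟩ := ZMod.intCast_surjective a
      rw [MvPolynomial.aeval_C, map_intCast, map_intCast]
      exact InT.of_mem (intCast_mem _ n) (Derivation.map_intCast _ _)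
    | add p q hp hq =>
      rw [map_add, map_add]
      exact hp.add hq
    | mul_X p i hp =>
      rw [map_mul, aeval_X, map_mul]
      exact hp.mul hu2 (hv i)
  obtain ⟨p, q, hq, rfl⟩ := S.gen b
  have hq' : algebraMap k' K' (aeval S.v q) ≠ 0 := by
    rw [Ne, map_eq_zero]
    exact hq
  have e : algebraMap k' K' (aeval S.v p / aeval S.v q) = algebraMap k' K' (aeval S.v p) *
      (algebraMap k' K' (aeval S.v q) * algebraMap k' K' ((aeval S.v q)⁻¹) ^ 2) := by
    rw [map_div₀, map_inv₀]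
    field_simp
  rw [e]
  exact (hp p).mul hu2 ((hp q).mul hu2 (InT.of_mem (alg_mem_G _) (S.δ_sq _)))

theorem InT.of_mem_adjoin (hu2 : u ^ 2 ∈ G)
    (hv : ∀ i, S.InT c u G (algebraMap k' K' (S.v i))) {p q : K'}
    (hp : p ∈ G) (hq : q ∈ G) (hδp : S.δ p = 0) (hδq : S.δ q = 0) {g : K'}
    (hg : g ∈ Algebra.adjoin k' {p, q}) : S.InT c u G g := by
  induction hg using Algebra.adjoin_induction with
  | mem x hx =>
    rcases hx with rfl | hx
    · exact InT.of_mem hp hδp
    · rw [Set.mem_singleton_iff] at hx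
      rw [hx]
      exact InT.of_mem hq hδq
  | algebraMap r => exact InT.algebraMap_of_gens hu2 hv r
  | add x y hx hy hx' hy' => exact hx'.add hy'
  | mul x y hx hy hx' hy' => exact hx'.mul hu2 hy'

end Key

/-- the general statement for a chart -/
theorem chart_eq_of (c u : K') (w : AVar N → K') (p q : K') (hδc : S.δ c = 0)
    (hu2 : u ^ 2 ∈ Algebra.adjoin (sq k') (Set.range w))
    (hv : ∀ i, S.InT c u (Algebra.adjoin (sq k') (Set.range w)) (algebraMap k' K' (S.v i)))
    (hp : p ∈ Algebra.adjoin (sq k') (Set.range w))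
    (hq : q ∈ Algebra.adjoin (sq k') (Set.range w))
    (hδp : S.δ p = 0) (hδq : S.δ q = 0)
    (hM : ∀ a ∈ S.M, a / c ∈ Algebra.adjoin k' {p, q})
    (hw : ∀ i, w i ∈ S.chart c) :
    S.chart c = Algebra.adjoin (sq k') (Set.range w) ∧
      ∀ g, g ∈ S.chart c ↔ S.δ g = 0 ∧ g ∈ Algebra.adjoin k' {p, q} := by
  have h1 : ∀ g, g ∈ S.chart c → S.δ g = 0 ∧ g ∈ Algebra.adjoin k' {p, q} := by
    intro g hg
    refine ⟨S.δ_of_mem_chart c hδc g hg, ?_⟩
    unfold chart at hg
    induction hg using Algebra.adjoin_induction with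
    | mem x hx =>
      obtain ⟨a, ha, rfl⟩ := hx
      exact hM a ha.1
    | algebraMap r =>
      exact (Algebra.adjoin k' {p, q}).algebraMap_mem (r : k')
    | add x y hx hy hx' hy' => exact add_mem hx' hy'
    | mul x y hx hy hx' hy' => exact mul_mem hx' hy'
  have h2 : ∀ g, S.δ g = 0 ∧ g ∈ Algebra.adjoin k' {p, q} →
      g ∈ Algebra.adjoin (sq k') (Set.range w) :=
    fun g hg => (InT.of_mem_adjoin hu2 hv hp hq hδp hδq hg.2).mem hg.1
  have h3 : Algebra.adjoin (sq k') (Set.range w) ≤ S.chart c :=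
    Algebra.adjoin_le (by rintro _ ⟨i, rfl⟩; exact hw i)
  have h4 : S.chart c ≤ Algebra.adjoin (sq k') (Set.range w) := fun g hg => h2 g (h1 g hg)
  exact ⟨le_antisymm h4 h3, fun g => ⟨h1 g, fun hg => h3 (h2 g hg)⟩⟩

/-! ### Membership in `M`, `V` and the charts -/

theorem smul_mem_M (a : k') {g : K'} (hg : g ∈ S.M) : algebraMap k' K' a * g ∈ S.M := by
  rw [← Algebra.smul_def]
  exact S.M.smul_mem _ hg

theorem one_mem_M : (1 : K') ∈ S.M := Submodule.subset_span (by simp)
theorem X_mem_M : S.X ∈ S.M := Submodule.subset_span (by simp)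
theorem Y_mem_M : S.Y ∈ S.M := Submodule.subset_span (by simp)
theorem X_sq_mem_M : S.X ^ 2 ∈ S.M := Submodule.subset_span (by simp)
theorem XY_mem_M : S.X * S.Y ∈ S.M := Submodule.subset_span (by simp)
theorem Y_sq_mem_M : S.Y ^ 2 ∈ S.M := Submodule.subset_span (by simp)

theorem f_mem_M (i : ℕ) : S.f i ∈ S.M := by
  unfold f
  rw [mul_comm (S.X * S.Y), mul_comm (S.Y ^ 2)]
  exact add_mem (S.smul_mem_M _ S.XY_mem_M) (S.smul_mem_M _ S.Y_sq_mem_M)

theorem δ_v_mem_M (i : Var N) : S.δ (algebraMap k' K' (S.v i)) ∈ S.M := by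
  cases i with
  | r => rw [S.δr]; exact S.one_mem_M
  | s => rw [S.δs]; exact S.X_sq_mem_M
  | t => rw [S.δt]; exact S.Y_sq_mem_M
  | e i => rw [S.δ_e]; exact S.f_mem_M i

theorem div_mem_chart (c : K') {a : K'} (ha : a ∈ S.V) : a / c ∈ S.chart c :=
  Algebra.subset_adjoin ⟨a, ha, rfl⟩

theorem X_mem_V : S.X ∈ S.V := ⟨S.X_mem_M, S.δX⟩
theorem Y_mem_V : S.Y ∈ S.V := ⟨S.Y_mem_M, S.δY⟩
theorem XY_mem_V : S.X * S.Y ∈ S.V :=
  ⟨S.XY_mem_M, by rw [Derivation.leibniz, S.δX, S.δY, smul_zero, smul_zero, add_zero]⟩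

/-- the element `Φ (v i)` lies in the chart -/
theorem phi_mem_chart (i l : Var N) (hc0 : S.δ (algebraMap k' K' (S.v l)) ≠ 0) :
    algebraMap k' K' (S.v i) + algebraMap k' K' (S.v l) *
      (S.δ (algebraMap k' K' (S.v i)) / S.δ (algebraMap k' K' (S.v l))) ∈
        S.chart (S.δ (algebraMap k' K' (S.v l))) := by
  have e : algebraMap k' K' (S.v i) + algebraMap k' K' (S.v l) *
      (S.δ (algebraMap k' K' (S.v i)) / S.δ (algebraMap k' K' (S.v l))) =
      (algebraMap k' K' (S.v i) * S.δ (algebraMap k' K' (S.v l)) +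
        algebraMap k' K' (S.v l) * S.δ (algebraMap k' K' (S.v i))) /
          S.δ (algebraMap k' K' (S.v l)) := by
    field_simp
  rw [e]
  apply S.div_mem_chart
  refine ⟨add_mem (S.smul_mem_M _ (S.δ_v_mem_M l)) (S.smul_mem_M _ (S.δ_v_mem_M i)), ?_⟩
  have := S.charPK
  rw [map_add, Derivation.leibniz, Derivation.leibniz, S.δ_δ, S.δ_δ, smul_zero, smul_zero,
    zero_add, zero_add, smul_eq_mul, smul_eq_mul, mul_comm, CharTwo.add_self_eq_zero]

omit S in
theorem sq_mem_chart (S : Frame N k' K') (c : K') (b : k') : algebraMap k' K' b ^ 2 ∈ S.chart c :=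
  alg_mem_G b

theorem vz_mem_chart (i : AVar N) : S.vz i ∈ S.chart 1 := by
  have h1 : S.δ (algebraMap k' K' (S.v .r)) = 1 := S.δr
  have h := fun i => S.phi_mem_chart i .r (by rw [h1]; exact one_ne_zero)
  rw [h1] at h
  rcases i with i | i
  · fin_cases i
    · have := S.div_mem_chart 1 S.X_mem_V
      rwa [div_one] at this
    · have := S.div_mem_chart 1 S.Y_mem_V
      rwa [div_one] at this
  · cases i with
    | r => exact S.sq_mem_chart _ _
    | s =>
      have := h .s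
      rw [S.δs, div_one] at this
      exact this
    | t =>
      have := h .t
      rw [S.δt, div_one] at this
      exact this
    | e i =>
      have := h (.e i)
      rw [S.δ_e, div_one] at this
      exact this

theorem vx_mem_chart (i : AVar N) : S.vx i ∈ S.chart (S.X ^ 2) := by
  have hX := S.X_ne_zero
  have h1 : S.δ (algebraMap k' K' (S.v .s)) = S.X ^ 2 := S.δs
  have h := fun i => S.phi_mem_chart i .s (by rw [h1]; exact pow_ne_zero _ hX)
  rw [h1] at h
  rcases i with i | i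
  · fin_cases i
    · have := S.div_mem_chart (S.X ^ 2) S.X_mem_V
      have e : S.X / S.X ^ 2 = 1 / S.X := by field_simp
      rw [e] at this
      exact this
    · have := S.div_mem_chart (S.X ^ 2) S.XY_mem_V
      have e : S.X * S.Y / S.X ^ 2 = S.Y / S.X := by field_simp
      rw [e] at this
      exact this
  · cases i with
    | r => exact S.sq_mem_chart _ _
    | s =>
      have := h .r
      rw [S.δr, mul_one_div] at this
      exact this
    | t =>
      have := h .t
      rw [S.δt, ← mul_div_assoc] at this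
      exact this
    | e i =>
      have := h (.e i)
      rw [S.δ_e, ← mul_div_assoc] at this
      exact this

theorem vy_mem_chart (i : AVar N) : S.vy i ∈ S.chart (S.Y ^ 2) := by
  have hY := S.Y_ne_zero
  have h1 : S.δ (algebraMap k' K' (S.v .t)) = S.Y ^ 2 := S.δt
  have h := fun i => S.phi_mem_chart i .t (by rw [h1]; exact pow_ne_zero _ hY)
  rw [h1] at h
  rcases i with i | i
  · fin_cases i
    · have := S.div_mem_chart (S.Y ^ 2) S.XY_mem_V
      have e : S.X * S.Y / S.Y ^ 2 = S.X / S.Y := by field_simp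
      rw [e] at this
      exact this
    · have := S.div_mem_chart (S.Y ^ 2) S.Y_mem_V
      have e : S.Y / S.Y ^ 2 = 1 / S.Y := by field_simp
      rw [e] at this
      exact this
  · cases i with
    | r => exact S.sq_mem_chart _ _
    | s =>
      have := h .s
      rw [S.δs, ← mul_div_assoc] at this
      exact this
    | t =>
      have := h .r
      rw [S.δr, mul_one_div] at this
      exact this
    | e i =>
      have := h (.e i)
      rw [S.δ_e, ← mul_div_assoc] at this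
      exact this

/-! ### Membership of `f i / c` -/

theorem f_succ_z (i : Fin N) : S.f (i + 1) = S.vz (.inr (.e i)) * S.f i +
    S.Y ^ 2 * (S.vz (.inr .s) * algebraMap k' K' (S.W i) ^ 2 +
      S.vz (.inr .t) * algebraMap k' K' (S.B i) ^ 2) := by
  have := S.charPK
  have h2 : (2 : K') = 0 := CharTwo.two_eq_zero
  simp only [f, vz, S.W_succ, S.B_succ, map_add, map_mul, map_pow]
  set A := algebraMap k' K' (S.W i)
  set B := algebraMap k' K' (S.B i)
  set r := algebraMap k' K' (S.v .r)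
  linear_combination (-(r * (S.X ^ 2 * S.Y ^ 2 * A ^ 2 + S.X * S.Y ^ 3 * A * B +
    S.Y ^ 4 * B ^ 2))) * h2

theorem f_succ_x (i : Fin N) : S.f (i + 1) / S.X ^ 2 = S.vx (.inr (.e i)) * (S.f i / S.X ^ 2) +
    S.vx (.inl 1) ^ 2 * (S.vx (.inr .t) * algebraMap k' K' (S.B i) ^ 2) := by
  have := S.charPK
  have h2 : (2 : K') = 0 := CharTwo.two_eq_zero
  have hX := S.X_ne_zero
  simp only [f, vx, S.W_succ, S.B_succ, map_add, map_mul, map_pow]
  set A := algebraMap k' K' (S.W i)
  set B := algebraMap k' K' (S.B i)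
  set s := algebraMap k' K' (S.v .s)
  field_simp
  linear_combination (-(s * S.Y ^ 2 * (S.X * A * S.Y * B + S.Y ^ 2 * B ^ 2))) * h2

theorem f_succ_y (i : Fin N) : S.f (i + 1) / S.Y ^ 2 = S.vy (.inr (.e i)) * (S.f i / S.Y ^ 2) +
    S.vy (.inr .s) * algebraMap k' K' (S.W i) ^ 2 := by
  have := S.charPK
  have h2 : (2 : K') = 0 := CharTwo.two_eq_zero
  have hY := S.Y_ne_zero
  simp only [f, vy, S.W_succ, S.B_succ, map_add, map_mul, map_pow]
  set A := algebraMap k' K' (S.W i)
  set B := algebraMap k' K' (S.B i)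
  set t := algebraMap k' K' (S.v .t)
  field_simp
  linear_combination (-(t * (S.X ^ 2 * A ^ 2 + S.X * S.Y * A * B))) * h2

/-! ### The algebras generated by the coordinates -/

theorem gen_mem {w : AVar N → K'} (i : AVar N) : w i ∈ Algebra.adjoin (sq k') (Set.range w) :=
  Algebra.subset_adjoin ⟨i, rfl⟩

theorem f_mem_z (i : ℕ) (hi : i ≤ N) : S.f i ∈ Algebra.adjoin (sq k') (Set.range S.vz) := by
  induction i with
  | zero =>
    have e : S.f 0 = S.vz (.inl 0) * S.vz (.inl 1) := by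
      rw [f, S.W_zero, S.B_zero, map_zero, map_one, mul_zero, add_zero, mul_one]
      rfl
    rw [e]
    exact mul_mem (gen_mem _) (gen_mem _)
  | succ i ih =>
    have h := S.f_succ_z ⟨i, hi⟩
    simp only at h
    rw [h]
    exact add_mem (mul_mem (gen_mem _) (ih (by omega))) (mul_mem (pow_mem (gen_mem (.inl 1)) 2)
      (add_mem (mul_mem (gen_mem _) (alg_mem_G _)) (mul_mem (gen_mem _) (alg_mem_G _))))

theorem f_mem_x (i : ℕ) (hi : i ≤ N) :
    S.f i / S.X ^ 2 ∈ Algebra.adjoin (sq k') (Set.range S.vx) := by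
  have hX := S.X_ne_zero
  induction i with
  | zero =>
    have e : S.f 0 / S.X ^ 2 = S.vx (.inl 1) := by
      rw [f, S.W_zero, S.B_zero, map_zero, map_one, mul_zero, add_zero, mul_one]
      simp only [vx]
      field_simp
    rw [e]
    exact gen_mem _
  | succ i ih =>
    have h := S.f_succ_x ⟨i, hi⟩
    simp only at h
    rw [h]
    exact add_mem (mul_mem (gen_mem _) (ih (by omega))) (mul_mem (pow_mem (gen_mem _) 2)
      (mul_mem (gen_mem _) (alg_mem_G _)))

theorem f_mem_y (i : ℕ) (hi : i ≤ N) :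
    S.f i / S.Y ^ 2 ∈ Algebra.adjoin (sq k') (Set.range S.vy) := by
  have hY := S.Y_ne_zero
  induction i with
  | zero =>
    have e : S.f 0 / S.Y ^ 2 = S.vy (.inl 0) := by
      rw [f, S.W_zero, S.B_zero, map_zero, map_one, mul_zero, add_zero, mul_one]
      simp only [vy]
      field_simp
    rw [e]
    exact gen_mem _
  | succ i ih =>
    have h := S.f_succ_y ⟨i, hi⟩
    simp only at h
    rw [h]
    exact add_mem (mul_mem (gen_mem _) (ih (by omega))) (mul_mem (gen_mem _) (alg_mem_G _))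

/-- division of `M` -/
theorem M_div_mem (c : K') (A : Subalgebra k' K') (h1 : 1 / c ∈ A) (h2 : S.X / c ∈ A)
    (h3 : S.Y / c ∈ A) (h4 : S.X ^ 2 / c ∈ A) (h5 : S.X * S.Y / c ∈ A) (h6 : S.Y ^ 2 / c ∈ A)
    (a : K') (ha : a ∈ S.M) : a / c ∈ A := by
  unfold M at ha
  induction ha using Submodule.span_induction with
  | mem x hx =>
    rcases hx with rfl | rfl | rfl | rfl | rfl | rfl
    · exact h1
    · exact h2
    · exact h3
    · exact h4
    · exact h5
    · exact h6
  | zero => rw [zero_div]; exact zero_mem _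
  | add x y _ _ hx hy => rw [add_div]; exact add_mem hx hy
  | smul r x _ hx =>
    rw [smul_div_assoc]
    exact A.smul_mem hx r

theorem inT_z (i : Var N) : S.InT 1 (algebraMap k' K' (S.v .r))
    (Algebra.adjoin (sq k') (Set.range S.vz)) (algebraMap k' K' (S.v i)) := by
  have := S.charPK
  unfold InT
  cases i with
  | r =>
    rw [S.δr, div_one, mul_one, CharTwo.add_self_eq_zero]
    exact ⟨zero_mem _, one_mem _⟩
  | s =>
    rw [S.δs, div_one]
    exact ⟨gen_mem (w := S.vz) (.inr .s), pow_mem (gen_mem (w := S.vz) (.inl 0)) 2⟩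
  | t =>
    rw [S.δt, div_one]
    exact ⟨gen_mem (w := S.vz) (.inr .t), pow_mem (gen_mem (w := S.vz) (.inl 1)) 2⟩
  | e i =>
    rw [S.δ_e, div_one]
    exact ⟨gen_mem (w := S.vz) (.inr (.e i)), S.f_mem_z i i.2.le⟩

theorem inT_x (i : Var N) : S.InT (S.X ^ 2) (algebraMap k' K' (S.v .s))
    (Algebra.adjoin (sq k') (Set.range S.vx)) (algebraMap k' K' (S.v i)) := by
  have := S.charPK
  have hX := S.X_ne_zero
  unfold InT
  cases i with
  | r =>
    rw [S.δr, mul_one_div, ← one_div_pow]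
    exact ⟨gen_mem (w := S.vx) (.inr .s), pow_mem (gen_mem (w := S.vx) (.inl 0)) 2⟩
  | s =>
    rw [S.δs, div_self (pow_ne_zero 2 hX), mul_one, CharTwo.add_self_eq_zero]
    exact ⟨zero_mem _, one_mem _⟩
  | t =>
    rw [S.δt, ← mul_div_assoc, ← div_pow]
    exact ⟨gen_mem (w := S.vx) (.inr .t), pow_mem (gen_mem (w := S.vx) (.inl 1)) 2⟩
  | e i =>
    rw [S.δ_e, ← mul_div_assoc]
    exact ⟨gen_mem (w := S.vx) (.inr (.e i)), S.f_mem_x i i.2.le⟩

theorem inT_y (i : Var N) : S.InT (S.Y ^ 2) (algebraMap k' K' (S.v .t))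
    (Algebra.adjoin (sq k') (Set.range S.vy)) (algebraMap k' K' (S.v i)) := by
  have := S.charPK
  have hY := S.Y_ne_zero
  unfold InT
  cases i with
  | r =>
    rw [S.δr, mul_one_div, ← one_div_pow]
    exact ⟨gen_mem (w := S.vy) (.inr .t), pow_mem (gen_mem (w := S.vy) (.inl 1)) 2⟩
  | s =>
    rw [S.δs, ← mul_div_assoc, ← div_pow]
    exact ⟨gen_mem (w := S.vy) (.inr .s), pow_mem (gen_mem (w := S.vy) (.inl 0)) 2⟩
  | t =>
    rw [S.δt, div_self (pow_ne_zero 2 hY), mul_one, CharTwo.add_self_eq_zero]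
    exact ⟨zero_mem _, one_mem _⟩
  | e i =>
    rw [S.δ_e, ← mul_div_assoc]
    exact ⟨gen_mem (w := S.vy) (.inr (.e i)), S.f_mem_y i i.2.le⟩

theorem chart_one_aux : S.chart 1 = Algebra.adjoin (sq k') (Set.range S.vz) ∧
    ∀ g, g ∈ S.chart 1 ↔ S.δ g = 0 ∧ g ∈ Algebra.adjoin k' {S.X, S.Y} := by
  have hX : S.X ∈ Algebra.adjoin k' {S.X, S.Y} := Algebra.subset_adjoin (by simp)
  have hY : S.Y ∈ Algebra.adjoin k' {S.X, S.Y} := Algebra.subset_adjoin (by simp)
  refine S.chart_eq_of 1 (algebraMap k' K' (S.v .r)) S.vz S.X S.Y (by simp) (alg_mem_G _) S.inT_z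
    (gen_mem (w := S.vz) (.inl 0)) (gen_mem (w := S.vz) (.inl 1)) S.δX S.δY ?_ S.vz_mem_chart
  apply S.M_div_mem
  · rw [div_one]; exact one_mem _
  · rw [div_one]; exact hX
  · rw [div_one]; exact hY
  · rw [div_one]; exact pow_mem hX 2
  · rw [div_one]; exact mul_mem hX hY
  · rw [div_one]; exact pow_mem hY 2

theorem chart_X_aux : S.chart (S.X ^ 2) = Algebra.adjoin (sq k') (Set.range S.vx) ∧
    ∀ g, g ∈ S.chart (S.X ^ 2) ↔ S.δ g = 0 ∧ g ∈ Algebra.adjoin k' {S.Y / S.X, 1 / S.X} := by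
  have h0 := S.X_ne_zero
  have hp : S.Y / S.X ∈ Algebra.adjoin k' {S.Y / S.X, 1 / S.X} := Algebra.subset_adjoin (by simp)
  have hq : 1 / S.X ∈ Algebra.adjoin k' {S.Y / S.X, 1 / S.X} := Algebra.subset_adjoin (by simp)
  refine S.chart_eq_of (S.X ^ 2) (algebraMap k' K' (S.v .s)) S.vx _ _ S.δ_X_sq (alg_mem_G _)
    S.inT_x (gen_mem (w := S.vx) (.inl 1)) (gen_mem (w := S.vx) (.inl 0)) ?_ ?_ ?_ S.vx_mem_chart
  · rw [S.δ_div _ _ S.δX, S.δY, zero_div]
  · rw [S.δ_div _ _ S.δX]
    simp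
  apply S.M_div_mem
  · have e : 1 / S.X ^ 2 = (1 / S.X) ^ 2 := by field_simp
    rw [e]; exact pow_mem hq 2
  · have e : S.X / S.X ^ 2 = 1 / S.X := by field_simp
    rw [e]; exact hq
  · have e : S.Y / S.X ^ 2 = (S.Y / S.X) * (1 / S.X) := by field_simp
    rw [e]; exact mul_mem hp hq
  · rw [div_self (pow_ne_zero 2 h0)]; exact one_mem _
  · have e : S.X * S.Y / S.X ^ 2 = S.Y / S.X := by field_simp
    rw [e]; exact hp
  · rw [← div_pow]; exact pow_mem hp 2

theorem chart_Y_aux : S.chart (S.Y ^ 2) = Algebra.adjoin (sq k') (Set.range S.vy) ∧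
    ∀ g, g ∈ S.chart (S.Y ^ 2) ↔ S.δ g = 0 ∧ g ∈ Algebra.adjoin k' {S.X / S.Y, 1 / S.Y} := by
  have h0 := S.Y_ne_zero
  have hp : S.X / S.Y ∈ Algebra.adjoin k' {S.X / S.Y, 1 / S.Y} := Algebra.subset_adjoin (by simp)
  have hq : 1 / S.Y ∈ Algebra.adjoin k' {S.X / S.Y, 1 / S.Y} := Algebra.subset_adjoin (by simp)
  refine S.chart_eq_of (S.Y ^ 2) (algebraMap k' K' (S.v .t)) S.vy _ _ S.δ_Y_sq (alg_mem_G _)
    S.inT_y (gen_mem (w := S.vy) (.inl 0)) (gen_mem (w := S.vy) (.inl 1)) ?_ ?_ ?_ S.vy_mem_chart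
  · rw [S.δ_div _ _ S.δY, S.δX, zero_div]
  · rw [S.δ_div _ _ S.δY]
    simp
  apply S.M_div_mem
  · have e : 1 / S.Y ^ 2 = (1 / S.Y) ^ 2 := by field_simp
    rw [e]; exact pow_mem hq 2
  · have e : S.X / S.Y ^ 2 = (S.X / S.Y) * (1 / S.Y) := by field_simp
    rw [e]; exact mul_mem hp hq
  · have e : S.Y / S.Y ^ 2 = 1 / S.Y := by field_simp
    rw [e]; exact hq
  · rw [← div_pow]; exact pow_mem hp 2
  · have e : S.X * S.Y / S.Y ^ 2 = S.X / S.Y := by field_simp
    rw [e]; exact hp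
  · rw [div_self (pow_ne_zero 2 h0)]; exact one_mem _

/-! ### The statements of piece Alg2b -/

theorem chart_one_eq_adjoin : S.chart 1 = Algebra.adjoin (sq k') (Set.range S.vz) :=
  S.chart_one_aux.1

theorem chart_X_eq_adjoin : S.chart (S.X ^ 2) = Algebra.adjoin (sq k') (Set.range S.vx) :=
  S.chart_X_aux.1

theorem chart_Y_eq_adjoin : S.chart (S.Y ^ 2) = Algebra.adjoin (sq k') (Set.range S.vy) :=
  S.chart_Y_aux.1

theorem mem_chart_one (g : K') :
    g ∈ S.chart 1 ↔ S.δ g = 0 ∧ g ∈ Algebra.adjoin k' {S.X, S.Y} :=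
  S.chart_one_aux.2 g

theorem mem_chart_X (g : K') :
    g ∈ S.chart (S.X ^ 2) ↔ S.δ g = 0 ∧ g ∈ Algebra.adjoin k' {S.Y / S.X, 1 / S.X} :=
  S.chart_X_aux.2 g

theorem mem_chart_Y (g : K') :
    g ∈ S.chart (S.Y ^ 2) ↔ S.δ g = 0 ∧ g ∈ Algebra.adjoin k' {S.X / S.Y, 1 / S.Y} :=
  S.chart_Y_aux.2 g

end Frame

end Pool.Agent.MP_4d8271_ag
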