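import Pool.Agent.MP_4d8271_ag.PieceA1

open MvPolynomial

namespace Pool.Agent.MP_4d8271_ag

section General

variable {k' K' : Type} [Field k'] [Field K'] [Algebra (ZMod 2) k'] [Algebra k' K']

omit [Algebra (ZMod 2) k'] in
lemma adjoin_pair_eq (a b : K') :
    Algebra.adjoin k' {a, b} = Algebra.adjoin k' (Set.range ![a, b]) := by
  congr 1
  ext x
  simp [eq_comm, or_comm]

omit [Algebra (ZMod 2) k'] in
lemma mem_adjoin_pair (a b : K') (g : K') :
    g ∈ Algebra.adjoin k' {a, b} ↔ ∃ p : MvPolynomial (Fin 2) k', aeval ![a, b] p = g := by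
  rw [adjoin_pair_eq, Algebra.adjoin_range_eq_range_aeval]
  rfl

lemma derivation_sq [CharP K' 2] (δ : Derivation ℤ K' K') (z : K') : δ (z ^ 2) = 0 := by
  rw [Derivation.leibniz_pow]
  simp [CharTwo.two_eq_zero]

lemma derivation_div_eq_zero (δ : Derivation ℤ K' K') {p q : K'} (hp : δ p = 0) (hq : δ q = 0) :
    δ (p / q) = 0 := by
  rw [Derivation.leibniz_div, hp, hq]
  simp

section
variable {a b : K'} (hindep : AlgebraicIndependent k' ![a, b])
  (hgen : ∀ f : K', ∃ p q : MvPolynomial (Fin 2) k', aeval ![a, b] q ≠ 0 ∧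
    f = aeval ![a, b] p / aeval ![a, b] q)
  {δ : Derivation ℤ K' K'} {A : Subalgebra (Frame.sq k') K'}
  (hA : ∀ g, g ∈ A ↔ δ g = 0 ∧ g ∈ Algebra.adjoin k' {a, b})

include hindep hA

/-- The chart as a subring of the polynomial ring. -/
lemma exists_toPoly : ∃ ι : A →+* MvPolynomial (Fin 2) k', ∀ g : A, aeval ![a, b] (ι g) = (g : K') := by
  have h : ∀ x : A, algebraMap A K' x ∈ Algebra.adjoin k' (Set.range ![a, b]) := by
    intro x
    rw [← adjoin_pair_eq]
    exact ((hA x).1 x.2).2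
  refine ⟨(hindep.aevalEquiv.symm : _ →+* _).comp
    ((algebraMap A K').codRestrict (Algebra.adjoin k' (Set.range ![a, b])) h), fun g => ?_⟩
  rw [← hindep.algebraMap_aevalEquiv]
  simp only [RingHom.coe_comp, Function.comp_apply]
  change algebraMap _ K' (hindep.aevalEquiv (hindep.aevalEquiv.symm _)) = _
  rw [AlgEquiv.apply_symm_apply]
  rfl

include hgen in
theorem isIntegrallyClosed_of_mem_iff : IsIntegrallyClosed A := by
  let _ : Algebra (MvPolynomial (Fin 2) k') K' := (aeval ![a, b]).toAlgebra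
  have hfr : IsFractionRing (MvPolynomial (Fin 2) k') K' := isFractionRing_aeval _ hindep hgen
  obtain ⟨ι, hι⟩ := exists_toPoly hindep hA
  rw [isIntegrallyClosed_iff (FractionRing A)]
  intro x hx
  have hinj : Function.Injective (algebraMap A K') := Subtype.val_injective
  let φ : FractionRing A →+* K' := IsFractionRing.lift hinj
  have hφ : ∀ y : A, φ (algebraMap A (FractionRing A) y) = (y : K') := fun y =>
    IsFractionRing.lift_algebraMap hinj y
  have hφinj : Function.Injective φ := φ.injective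
  have hint : IsIntegral (MvPolynomial (Fin 2) k') (φ x) := by
    apply IsIntegral.map_of_comp_eq ι φ _ hx
    ext g
    simp only [RingHom.coe_comp, Function.comp_apply]
    rw [hφ]
    exact hι g
  obtain ⟨y, hy⟩ := IsIntegrallyClosed.isIntegral_iff.1 hint
  have h1 : φ x ∈ Algebra.adjoin k' {a, b} := (mem_adjoin_pair a b _).2 ⟨y, hy⟩
  have h2 : δ (φ x) = 0 := by
    obtain ⟨p, q, _, hpq⟩ := IsFractionRing.div_surjective (A := A) x
    rw [← hpq, map_div₀, hφ, hφ]
    exact derivation_div_eq_zero δ ((hA p).1 p.2).1 ((hA q).1 q.2).1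
  refine ⟨⟨φ x, (hA _).2 ⟨h2, h1⟩⟩, ?_⟩
  apply hφinj
  rw [hφ]

theorem ringKrullDim_of_mem_iff : ringKrullDim A = 2 := by
  have : CharP k' 2 := charP_of_injective_algebraMap (algebraMap (ZMod 2) k').injective 2
  have : CharP K' 2 := charP_of_injective_algebraMap (algebraMap k' K').injective 2
  obtain ⟨ι, hι⟩ := exists_toPoly hindep hA
  have hker : RingHom.ker ι ≤ nilradical A := by
    intro g hg
    rw [RingHom.mem_ker] at hg
    have h := hι g
    rw [hg, map_zero] at h
    have : g = 0 := Subtype.ext h.symm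
    rw [this]
    exact zero_mem _
  have hH : ∀ x : MvPolynomial (Fin 2) k', ∃ n > 0, x ^ n ∈ ι.range := by
    intro x
    refine ⟨2, by norm_num, ⟨⟨aeval ![a, b] x ^ 2, (hA _).2 ⟨derivation_sq δ _, ?_⟩⟩, ?_⟩⟩
    · rw [mem_adjoin_pair]
      exact ⟨x ^ 2, map_pow _ _ _⟩
    · apply hindep
      exact (hι _).trans (map_pow (aeval ![a, b]) x 2).symm
  have h := PrimeSpectrum.isHomeomorph_comap ι hH hker
  have h1 := IsHomeomorph.topologicalKrullDim_eq _ h
  rw [PrimeSpectrum.topologicalKrullDim_eq_ringKrullDim,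
    PrimeSpectrum.topologicalKrullDim_eq_ringKrullDim] at h1
  rw [← h1, MvPolynomial.ringKrullDim_of_isNoetherianRing, ringKrullDim_eq_zero_of_field]
  simp

end

include k' in
/-- every constant is a quotient of constants in the polynomial ring -/
theorem exists_div_of_mem_iff {a b : K'}
    (hgen : ∀ f : K', ∃ p q : MvPolynomial (Fin 2) k', aeval ![a, b] q ≠ 0 ∧
      f = aeval ![a, b] p / aeval ![a, b] q)
    {δ : Derivation ℤ K' K'} {A : Subalgebra (Frame.sq k') K'}
    (hA : ∀ g, g ∈ A ↔ δ g = 0 ∧ g ∈ Algebra.adjoin k' {a, b}) (g : K') (hg : δ g = 0) :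
    ∃ x ∈ A, ∃ y ∈ A, y ≠ 0 ∧ g = x / y := by
  have : CharP k' 2 := charP_of_injective_algebraMap (algebraMap (ZMod 2) k').injective 2
  have : CharP K' 2 := charP_of_injective_algebraMap (algebraMap k' K').injective 2
  obtain ⟨p, q, hq, hgpq⟩ := hgen g
  have hy : aeval ![a, b] q ^ 2 ∈ A := by
    rw [hA]
    refine ⟨derivation_sq δ _, ?_⟩
    rw [mem_adjoin_pair]
    exact ⟨q ^ 2, map_pow _ _ _⟩
  have hx' : aeval ![a, b] (p * q) = g * aeval ![a, b] q ^ 2 := by
    rw [map_mul, hgpq]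
    field_simp
  refine ⟨aeval ![a, b] (p * q), ?_, aeval ![a, b] q ^ 2, hy, pow_ne_zero 2 hq, ?_⟩
  · rw [hA]
    constructor
    · rw [hx', Derivation.leibniz, hg, derivation_sq]
      simp
    · rw [mem_adjoin_pair]
      exact ⟨p * q, rfl⟩
  · rw [hx', mul_div_assoc, div_self (pow_ne_zero 2 hq), mul_one]

end General

end Pool.Agent.MP_4d8271_ag
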