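import Pool.Agent.MP_4d8271_ag.PieceAlg3Core

open MvPolynomial

namespace Pool.Agent.MP_4d8271_ag

section Pairs

variable {k' K' : Type} [Field k'] [Field K'] [Algebra k' K']

lemma isAlgebraic_of_gen {ι : Type} (v : ι → K')
    (hgen : ∀ f : K', ∃ p q : MvPolynomial ι k', aeval v q ≠ 0 ∧ f = aeval v p / aeval v q) :
    Algebra.IsAlgebraic (Algebra.adjoin k' (Set.range v)) K' := by
  constructor
  intro f
  obtain ⟨p, q, hq, rfl⟩ := hgen f
  have hmem : ∀ p : MvPolynomial ι k', aeval v p ∈ Algebra.adjoin k' (Set.range v) := by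
    intro p
    rw [Algebra.adjoin_range_eq_range_aeval]
    exact ⟨p, rfl⟩
  have h1 : ∀ p : MvPolynomial ι k', IsAlgebraic (Algebra.adjoin k' (Set.range v)) (aeval v p) := by
    intro p
    exact isAlgebraic_algebraMap (⟨aeval v p, hmem p⟩ : Algebra.adjoin k' (Set.range v))
  rw [div_eq_mul_inv]
  exact (h1 p).mul (h1 q).inv

/-- a pair generating `K' = k'(X, Y)` is algebraically independent -/
lemma algebraicIndependent_of_gen {x : Fin 2 → K'} (hx : AlgebraicIndependent k' x)
    (hgenx : ∀ f : K', ∃ p q : MvPolynomial (Fin 2) k', aeval x q ≠ 0 ∧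
      f = aeval x p / aeval x q)
    {y : Fin 2 → K'}
    (hgeny : ∀ f : K', ∃ p q : MvPolynomial (Fin 2) k', aeval y q ≠ 0 ∧
      f = aeval y p / aeval y q) : AlgebraicIndependent k' y := by
  have h1 := isAlgebraic_of_gen x hgenx
  have h2 := isAlgebraic_of_gen y hgeny
  have hb : IsTranscendenceBasis k' x := hx.isTranscendenceBasis_iff_isAlgebraic.2 h1
  have h3 := hb.cardinalMk_eq_trdeg
  exact (Algebra.IsAlgebraic.isTranscendenceBasis_of_le_trdeg_of_finite k' y h3.le).1

lemma gen_transfer {x y : Fin 2 → K'}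
    (hgenx : ∀ f : K', ∃ p q : MvPolynomial (Fin 2) k', aeval x q ≠ 0 ∧
      f = aeval x p / aeval x q)
    (h : ∀ i, x i ∈ IntermediateField.adjoin k' (Set.range y)) :
    ∀ f : K', ∃ p q : MvPolynomial (Fin 2) k', aeval y q ≠ 0 ∧ f = aeval y p / aeval y q := by
  rw [forall_exists_aeval_div_iff] at hgenx ⊢
  rw [eq_top_iff, ← hgenx, IntermediateField.adjoin_le_iff]
  rintro _ ⟨i, rfl⟩
  exact h i

/-- homogenisation -/
lemma exists_homog {X Y : K'} (hX : X ≠ 0) (q : MvPolynomial (Fin 2) k') (n : ℕ)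
    (hn : q.totalDegree ≤ n) : ∃ h : MvPolynomial (Fin 2) k', h.totalDegree ≤ n ∧
      aeval ![X, Y] h = X ^ n * aeval ![Y / X, 1 / X] q := by
  refine ⟨∑ m ∈ q.support, C (coeff m q) * MvPolynomial.X 0 ^ (n - (m 0 + m 1)) *
    MvPolynomial.X 1 ^ (m 0), ?_, ?_⟩
  · apply MvPolynomial.totalDegree_finsetSum_le
    intro m hm
    have hm2 : m 0 + m 1 ≤ n := by
      have := le_totalDegree hm
      rw [Finsupp.sum_fintype _ _ (fun _ => rfl), Fin.sum_univ_two] at this
      omega
    calc (C (coeff m q) * MvPolynomial.X 0 ^ (n - (m 0 + m 1)) *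
          MvPolynomial.X 1 ^ (m 0) : MvPolynomial (Fin 2) k').totalDegree
        ≤ (C (coeff m q) * MvPolynomial.X 0 ^ (n - (m 0 + m 1)) :
            MvPolynomial (Fin 2) k').totalDegree + (MvPolynomial.X 1 ^ (m 0) :
            MvPolynomial (Fin 2) k').totalDegree := totalDegree_mul _ _
      _ ≤ ((C (coeff m q) : MvPolynomial (Fin 2) k').totalDegree +
            (MvPolynomial.X 0 ^ (n - (m 0 + m 1)) : MvPolynomial (Fin 2) k').totalDegree) +
            (MvPolynomial.X 1 ^ (m 0) : MvPolynomial (Fin 2) k').totalDegree := by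
          gcongr
          exact totalDegree_mul _ _
      _ ≤ n := by
          rw [totalDegree_C, totalDegree_X_pow, totalDegree_X_pow]
          omega
  · rw [map_sum]
    conv_rhs => rw [aeval_def, eval₂_eq', Finset.mul_sum]
    apply Finset.sum_congr rfl
    intro m hm
    have hm2 : m 0 + m 1 ≤ n := by
      have := le_totalDegree hm
      rw [Finsupp.sum_fintype _ _ (fun _ => rfl), Fin.sum_univ_two] at this
      omega
    simp only [map_mul, map_pow, aeval_X, Matrix.cons_val_zero, Matrix.cons_val_one,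
      Fin.prod_univ_two, algHom_C]
    have e : X ^ n = X ^ (n - (m 0 + m 1)) * X ^ (m 0) * X ^ (m 1) := by
      rw [mul_assoc, ← pow_add, ← pow_add]
      congr 1
      omega
    rw [e, div_pow, div_pow, one_pow]
    field_simp

/-- only the constants are regular on both charts -/
lemma inter_adjoin {X Y : K'} (hX : X ≠ 0) (hindep : AlgebraicIndependent k' ![X, Y]) {g : K'}
    (h1 : g ∈ Algebra.adjoin k' {X, Y}) (h2 : g ∈ Algebra.adjoin k' {Y / X, 1 / X}) :
    ∃ c : k', g = algebraMap k' K' c := by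
  rw [mem_adjoin_pair] at h1 h2
  obtain ⟨p, hp⟩ := h1
  obtain ⟨q, hq⟩ := h2
  obtain ⟨h, hh1, hh2⟩ := exists_homog (X := X) (Y := Y) hX q q.totalDegree le_rfl
  rw [hq, ← hp] at hh2
  have e : h = MvPolynomial.X 0 ^ q.totalDegree * p := by
    apply hindep
    rw [map_mul, map_pow, aeval_X]
    exact hh2
  by_cases hp0 : p = 0
  · refine ⟨0, ?_⟩
    rw [← hp, hp0, map_zero, map_zero]
  · rw [e, totalDegree_mul_of_isDomain (pow_ne_zero _ (X_ne_zero 0)) hp0, totalDegree_X_pow] at hh1
    have hd : p.totalDegree = 0 := by omega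
    rw [totalDegree_eq_zero_iff_eq_C] at hd
    refine ⟨coeff 0 p, ?_⟩
    rw [← hp]
    conv_lhs => rw [hd]
    rw [algHom_C]

end Pairs

end Pool.Agent.MP_4d8271_ag
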