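import Pool.Agent.MP_4d8271_ag.SecRing

open AlgebraicGeometry CategoryTheory CategoryTheory.Limits Polynomial

namespace Pool.Agent.MP_4d8271_ag

variable {k K : Type} [Field k] [Field K] [Algebra k K] (V : Submodule k K)

/-- Evaluation at `T = 1`. -/
noncomputable def ev : secAlg V →+* K := (Polynomial.evalRingHom (1 : K)).comp (secAlg V).toSubring.subtype

@[simp] lemma ev_mono (n : ℕ) (a : K) (ha : a ∈ V ^ n) : ev V (mono V n a ha) = a := by
  change Polynomial.eval 1 (monomial n a) = a
  simp

lemma ev_injOn {n : ℕ} {f : secAlg V} (hf : f ∈ secGr V n) (h : ev V f = 0) : f = 0 := by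
  rw [eq_mono_of_mem V hf, ev_mono] at h
  rw [eq_mono_of_mem V hf]
  apply Subtype.ext
  rw [coe_mono, h]
  simp

/-- the map `(A_f)₀ → K`, `a / fⁿ ↦ ev a / ev f ^ n`. -/
noncomputable def evAway (f : secAlg V) (hf : ev V f ≠ 0) :
    HomogeneousLocalization.Away (secGr V) f →+* K :=
  (IsLocalization.Away.lift (S := Localization.Away f) f (g := ev V) (isUnit_iff_ne_zero.mpr hf)).comp
    (algebraMap (HomogeneousLocalization.Away (secGr V) f) (Localization.Away f))

lemma evAway_mk {d : ℕ} (f : secAlg V) (hf : ev V f ≠ 0) (hd : f ∈ secGr V d) (n : ℕ) (a : secAlg V)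
    (ha : a ∈ secGr V (n • d)) :
    evAway V f hf (HomogeneousLocalization.Away.mk _ hd n a ha) = ev V a / ev V f ^ n := by
  rw [eq_div_iff (pow_ne_zero _ hf)]
  simp only [evAway, RingHom.comp_apply, HomogeneousLocalization.algebraMap_apply,
    HomogeneousLocalization.Away.val_mk]
  rw [← map_pow, ← IsLocalization.Away.lift_eq (S := Localization.Away f) f
    (g := ev V) (isUnit_iff_ne_zero.mpr hf) (f ^ n), ← map_mul]
  rw [← IsLocalization.Away.lift_eq (S := Localization.Away f) f
    (g := ev V) (isUnit_iff_ne_zero.mpr hf) a]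
  congr 1
  rw [Localization.mk_eq_mk']
  exact IsLocalization.mk'_spec (Localization.Away f) a (⟨f ^ n, n, rfl⟩ : Submonoid.powers f)

lemma evAway_injective {d : ℕ} (f : secAlg V) (hf : ev V f ≠ 0) (hd : f ∈ secGr V d) :
    Function.Injective (evAway V f hf) := by
  rw [injective_iff_map_eq_zero]
  intro x hx
  obtain ⟨n, a, ha, rfl⟩ := HomogeneousLocalization.Away.mk_surjective _ hd x
  rw [evAway_mk V f hf hd, div_eq_zero_iff, or_iff_left (pow_ne_zero _ hf)] at hx
  have := ev_injOn V ha hx
  subst this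
  ext
  rw [HomogeneousLocalization.Away.val_mk, HomogeneousLocalization.val_zero]
  exact Localization.mk_zero _

lemma evAway_awayMap {d e : ℕ} {f g x : secAlg V} (hf : ev V f ≠ 0) (hd : f ∈ secGr V d)
    (hg : g ∈ secGr V e) (hx : x = f * g) (hx0 : ev V x ≠ 0)
    (a : HomogeneousLocalization.Away (secGr V) f) :
    evAway V x hx0 (HomogeneousLocalization.awayMap (secGr V) hg hx a) = evAway V f hf a := by
  obtain ⟨n, a, ha, rfl⟩ := HomogeneousLocalization.Away.mk_surjective _ hd a
  rw [HomogeneousLocalization.awayMap_mk, evAway_mk V f hf hd, evAway_mk]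
  have hg0 : ev V g ≠ 0 := by
    rw [hx, map_mul] at hx0
    exact right_ne_zero_of_mul hx0
  rw [hx, map_mul, map_mul, map_pow, mul_pow, mul_div_mul_right _ _ (pow_ne_zero _ hg0)]

/-- The scheme `Proj (⨁ Vⁿ Tⁿ)`. -/
noncomputable abbrev PX : Scheme.{0} := Proj (secGr V)

section
variable {V}

lemma relevant_bot (hV : V ≠ ⊥) :
    ¬ HomogeneousIdeal.irrelevant (secGr V) ≤ (⊥ : HomogeneousIdeal (secGr V)) := by
  intro h
  obtain ⟨v, hv, hv0⟩ := Submodule.exists_mem_ne_zero_of_ne_bot hV
  have h1 : v ∈ V ^ 1 := by simpa using hv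
  have h2 : mono V 1 v h1 ∈ HomogeneousIdeal.irrelevant (secGr V) := by
    rw [HomogeneousIdeal.mem_irrelevant_iff, GradedRing.proj_apply,
      DirectSum.decompose_of_mem_ne (secGr V) (mono_mem V 1 v h1) one_ne_zero]
  have h3 := h h2
  have h4 : mono V 1 v h1 = 0 := h3
  have h5 := congrArg (ev V) h4
  rw [ev_mono, map_zero] at h5
  exact hv0 h5

/-- the generic point -/
noncomputable def gen (hV : V ≠ ⊥) : ProjectiveSpectrum (secGr V) where
  asHomogeneousIdeal := ⊥
  isPrime := by
    change (⊥ : Ideal (secAlg V)).IsPrime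
    exact Ideal.isPrime_bot
  not_irrelevant_le := relevant_bot hV

lemma irreducible_PX (hV : V ≠ ⊥) : IrreducibleSpace (PX V) := by
  have h : closure {gen hV} = (Set.univ : Set (ProjectiveSpectrum (secGr V))) := by
    rw [Set.eq_univ_iff_forall]
    intro x
    exact (ProjectiveSpectrum.le_iff_mem_closure (secGr V) (gen hV) x).mp
      ((ProjectiveSpectrum.as_ideal_le_as_ideal (secGr V) (gen hV) x).mp bot_le)
  have : IsIrreducible (Set.univ : Set (ProjectiveSpectrum (secGr V))) := by
    rw [← h]
    exact isIrreducible_singleton.closure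
  exact (irreducibleSpace_def (ProjectiveSpectrum (secGr V))).mpr this

end

lemma isReduced_atPrime {k A : Type} [CommRing k] [CommRing A] [IsDomain A] [Algebra k A]
    (𝒜 : ℕ → Submodule k A) [GradedAlgebra 𝒜] (P : Ideal A) [P.IsPrime] :
    _root_.IsReduced (HomogeneousLocalization.AtPrime 𝒜 P) := by
  have : IsDomain (Localization.AtPrime P) :=
    IsLocalization.isDomain_localization (Ideal.primeCompl_le_nonZeroDivisors P)
  refine isReduced_of_injective (algebraMap (HomogeneousLocalization.AtPrime 𝒜 P)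
    (Localization.AtPrime P)) ?_
  intro a b h
  rw [HomogeneousLocalization.algebraMap_apply, HomogeneousLocalization.algebraMap_apply] at h
  exact HomogeneousLocalization.val_injective _ h

section
variable {V}

lemma isReduced_PX : IsReduced (PX V) := by
  have : ∀ x : PX V, _root_.IsReduced ((PX V).presheaf.stalk x) := by
    intro x
    have hp : x.asHomogeneousIdeal.toIdeal.IsPrime := x.isPrime
    have h1 : Function.Injective (Proj.stalkIso (secGr V) x).hom.hom :=
      (ConcreteCategory.bijective_of_isIso (Proj.stalkIso (secGr V) x).hom).1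
    have h2 := isReduced_atPrime (secGr V) x.asHomogeneousIdeal.toIdeal
    let φ : (PX V).presheaf.stalk x →+*
        HomogeneousLocalization.AtPrime (secGr V) x.asHomogeneousIdeal.toIdeal :=
      (Proj.stalkIso (secGr V) x).hom.hom
    exact @isReduced_of_injective _ _ _ _ _ _ _ φ h1 h2
  exact isReduced_of_isReduced_stalk _

lemma isIntegral_PX (hV : V ≠ ⊥) : IsIntegral (PX V) := by
  have := irreducible_PX hV
  have := isReduced_PX (V := V)
  exact isIntegral_of_irreducibleSpace_of_isReduced _

end

end Pool.Agent.MP_4d8271_ag
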