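import Pool.Agent.MP_4d8271_ag.Defs

open AlgebraicGeometry CategoryTheory CategoryTheory.Limits Polynomial

namespace Pool.Agent.MP_4d8271_ag

variable {k K : Type} [Field k] [Field K] [Algebra k K] (V : Submodule k K)

/-- The graded algebra `⨁ Vⁿ Tⁿ ⊆ K[T]`. -/
noncomputable def secAlg : Subalgebra k K[X] where
  carrier := {f | ∀ n, f.coeff n ∈ V ^ n}
  mul_mem' {f g} hf hg n := by
    rw [coeff_mul]
    refine Submodule.sum_mem _ ?_
    rintro ⟨i, j⟩ hij
    rw [← Finset.HasAntidiagonal.mem_antidiagonal.mp hij, pow_add]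
    exact Submodule.mul_mem_mul (hf i) (hg j)
  add_mem' {f g} hf hg n := by
    rw [coeff_add]
    exact add_mem (hf n) (hg n)
  algebraMap_mem' c n := by
    rw [Polynomial.algebraMap_apply, coeff_C]
    split_ifs with h
    · subst h
      rw [pow_zero]
      exact Submodule.mem_one.mpr ⟨c, rfl⟩
    · exact zero_mem _

lemma mem_secAlg {f : K[X]} : f ∈ secAlg V ↔ ∀ n, f.coeff n ∈ V ^ n := Iff.rfl

lemma monomial_mem_secAlg {n : ℕ} {a : K} (ha : a ∈ V ^ n) : monomial n a ∈ secAlg V := by
  intro m
  rw [coeff_monomial]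
  split_ifs with h
  · subst h; exact ha
  · exact zero_mem _

/-- The degree `n` part. -/
noncomputable def secGr (n : ℕ) : Submodule k (secAlg V) where
  carrier := {f | ∀ m, m ≠ n → (f : K[X]).coeff m = 0}
  add_mem' {f g} hf hg m hm := by simp [hf m hm, hg m hm]
  zero_mem' m _ := by simp
  smul_mem' c f hf m hm := by simp [hf m hm]

lemma mem_secGr {n : ℕ} {f : secAlg V} : f ∈ secGr V n ↔ ∀ m, m ≠ n → (f : K[X]).coeff m = 0 :=
  Iff.rfl

/-- The homogeneous element `a Tⁿ`. -/
noncomputable def mono (n : ℕ) (a : K) (ha : a ∈ V ^ n) : secAlg V :=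
  ⟨monomial n a, monomial_mem_secAlg V ha⟩

@[simp] lemma coe_mono (n : ℕ) (a : K) (ha : a ∈ V ^ n) :
    (mono V n a ha : K[X]) = monomial n a := rfl

lemma mono_mem (n : ℕ) (a : K) (ha : a ∈ V ^ n) : mono V n a ha ∈ secGr V n := by
  intro m hm
  rw [coe_mono, coeff_monomial, if_neg (Ne.symm hm)]

lemma eq_mono_of_mem {n : ℕ} {f : secAlg V} (hf : f ∈ secGr V n) :
    f = mono V n ((f : K[X]).coeff n) (f.2 n) := by
  apply Subtype.ext
  ext m
  rw [coe_mono, coeff_monomial]
  split_ifs with h
  · rw [h]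
  · exact hf m (Ne.symm h)

instance : SetLike.GradedMonoid (secGr V) where
  one_mem m hm := by
    rw [OneMemClass.coe_one, coeff_one, if_neg hm]
  mul_mem {i j f g} hf hg := by
    rw [eq_mono_of_mem V hf, eq_mono_of_mem V hg]
    intro m hm
    rw [MulMemClass.coe_mul, coe_mono, coe_mono, monomial_mul_monomial, coeff_monomial,
      if_neg (Ne.symm hm)]

lemma coeff_coeAddMonoidHom (x : DirectSum ℕ fun n => secGr V n) (n : ℕ) :
    ((DirectSum.coeAddMonoidHom (secGr V) x : secAlg V) : K[X]).coeff n =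
      ((x n : secAlg V) : K[X]).coeff n := by
  classical
  induction x using DirectSum.induction_on with
  | zero => simp
  | of i y =>
    rw [DirectSum.coeAddMonoidHom_of, DirectSum.of_apply]
    split_ifs with h
    · subst h; rfl
    · rw [y.2 n (Ne.symm h)]
      simp
  | add x y hx hy => simp [hx, hy]

lemma coeAddMonoidHom_injective :
    Function.Injective (DirectSum.coeAddMonoidHom (secGr V)) := by
  intro x y hxy
  refine DFinsupp.ext fun n => Subtype.ext ?_
  rw [eq_mono_of_mem V (x n).2, eq_mono_of_mem V (y n).2]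
  have h := coeff_coeAddMonoidHom V x n
  rw [hxy, coeff_coeAddMonoidHom V y n] at h
  apply Subtype.ext
  rw [coe_mono, coe_mono, h]

noncomputable instance : DirectSum.Decomposition (secGr V) where
  decompose' f := ∑ n ∈ (f : K[X]).support, DirectSum.of (fun n => secGr V n) n
    ⟨mono V n ((f : K[X]).coeff n) (f.2 n), mono_mem V _ _ _⟩
  left_inv f := by
    rw [map_sum]
    simp_rw [DirectSum.coeAddMonoidHom_of]
    apply Subtype.ext
    rw [AddSubmonoidClass.coe_finsetSum]
    simp_rw [coe_mono]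
    exact (f : K[X]).as_sum_support.symm
  right_inv x := by
    apply coeAddMonoidHom_injective V
    rw [map_sum]
    simp_rw [DirectSum.coeAddMonoidHom_of]
    apply Subtype.ext
    rw [AddSubmonoidClass.coe_finsetSum]
    simp_rw [coe_mono]
    exact (DirectSum.coeAddMonoidHom (secGr V) x : K[X]).as_sum_support.symm

noncomputable instance : GradedAlgebra (secGr V) where

end Pool.Agent.MP_4d8271_ag
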