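import Pool.Agent.MP_4d8271_ag.Charts

open AlgebraicGeometry CategoryTheory CategoryTheory.Limits Polynomial

namespace Pool.Agent.MP_4d8271_ag

section General

variable {X : Scheme.{0}} [IsIntegral X]

lemma algebraMap_stalk_injective (x : X) :
    Function.Injective (algebraMap (X.presheaf.stalk x) X.functionField) :=
  IsFractionRing.injective _ _

lemma germ_mem_localRing {U : X.Opens} [Nonempty U] {x : X} (hx : x ∈ U) (s : Γ(X, U)) :
    X.germToFunctionField U s ∈ localRing X x :=
  ⟨X.presheaf.germ U x hx s, Scheme.algebraMap_germ_eq_germToFunctionField X hx s⟩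

lemma isUnitIn_localRing_iff {x : X} (a : X.presheaf.stalk x) :
    IsUnitIn (localRing X x) (algebraMap _ X.functionField a) ↔ IsUnit a := by
  constructor
  · rintro ⟨h0, -, b, hb⟩
    refine IsUnit.of_mul_eq_one b (algebraMap_stalk_injective x ?_)
    rw [map_mul, hb, mul_inv_cancel₀ h0, map_one]
  · rintro ⟨u, rfl⟩
    have h0 : algebraMap (X.presheaf.stalk x) X.functionField (u : X.presheaf.stalk x) ≠ 0 := by
      intro h
      exact u.ne_zero (algebraMap_stalk_injective x (by rw [h, map_zero]))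
    refine ⟨h0, ⟨_, rfl⟩, ⟨((u⁻¹ : (X.presheaf.stalk x)ˣ) : X.presheaf.stalk x), ?_⟩⟩
    refine eq_inv_of_mul_eq_one_left ?_
    rw [← map_mul, Units.inv_mul, map_one]

lemma exists_div_of_mem_localRing {U : X.Opens} (hU : IsAffineOpen U) {x : X} (hx : x ∈ U)
    [Nonempty U] {g : X.functionField} (hg : g ∈ localRing X x) :
    ∃ s t : Γ(X, U), IsUnitIn (localRing X x) (X.germToFunctionField U t) ∧
      g = X.germToFunctionField U s / X.germToFunctionField U t := by
  obtain ⟨a, rfl⟩ := hg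
  let := TopCat.Presheaf.algebra_section_stalk X.presheaf (⟨x, hx⟩ : U)
  have hloc := hU.isLocalization_stalk ⟨x, hx⟩
  obtain ⟨s, t, rfl⟩ := IsLocalization.exists_mk'_eq (hU.primeIdealOf ⟨x, hx⟩).asIdeal.primeCompl a
  have ht : IsUnit (X.presheaf.germ U x hx (t : Γ(X, U))) :=
    IsLocalization.map_units (X.presheaf.stalk x) t
  refine ⟨s, t, ?_, ?_⟩
  · rw [← Scheme.algebraMap_germ_eq_germToFunctionField X hx]
    exact (isUnitIn_localRing_iff _).mpr ht
  · rw [← Scheme.algebraMap_germ_eq_germToFunctionField X hx,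
      ← Scheme.algebraMap_germ_eq_germToFunctionField X hx, eq_div_iff, ← map_mul]
    · congr 1
      exact IsLocalization.mk'_spec (X.presheaf.stalk x) s t
    · exact ((isUnitIn_localRing_iff _).mpr ht).1

end General

variable {k K : Type} [Field k] [Field K] [Algebra k K] {V : Submodule k K}

section
variable [IsIntegral (PX V)] (h1 : (1 : K) ∈ V)

lemma chartF_le_localRing {c : K} (hcV : c ∈ V) (hc : c ≠ 0) {x : PX V} (hx : x ∈ Dc c hcV) :
    chartF h1 c ≤ localRing (PX V) x := by
  intro g hg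
  have := nonempty_Dc h1 hcV hc
  obtain ⟨s, rfl⟩ := exists_germ_eq_of_mem_chartF h1 hcV hc hg
  exact germ_mem_localRing hx s

lemma exists_div_chartF {c : K} (hcV : c ∈ V) (hc : c ≠ 0) {x : PX V} (hx : x ∈ Dc c hcV)
    {g : (PX V).functionField} (hg : g ∈ localRing (PX V) x) :
    ∃ a ∈ chartF h1 c, ∃ b ∈ chartF h1 c, IsUnitIn (localRing (PX V) x) b ∧ g = a / b := by
  have := nonempty_Dc h1 hcV hc
  obtain ⟨s, t, ht, h⟩ := exists_div_of_mem_localRing (isAffineOpen_Dc c hcV) hx hg
  exact ⟨_, germ_mem_chartF h1 hcV hc s, _, germ_mem_chartF h1 hcV hc t, ht, h⟩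

lemma exists_toK_eq_div {c c' : K} (hcV : c ∈ V) (hc : c ≠ 0) (hc' : c' ∈ V) :
    ∃ u : (PX V).functionField, u ∈ chartF h1 c ∧ toK h1 u = c' / c := by
  have := nonempty_Dc h1 hcV hc
  have hf0 : ev V (el c hcV) ≠ 0 := by simpa using hc
  obtain ⟨a, ha⟩ := exists_evAway_eq hcV hc hf0 (g := c' / c)
    (Algebra.subset_adjoin ⟨c', hc', rfl⟩)
  have h : toK h1 ((PX V).germToFunctionField (Dc c hcV)
      ((Proj.awayToSection (secGr V) (el c hcV)).hom a)) = c' / c := by
    rw [toK_germ h1 (el c hcV) (el_mem c hcV) hf0, ha]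
  exact ⟨_, germ_mem_chartF h1 hcV hc _, h⟩

omit [IsIntegral (PX V)] in
lemma germ_eq_stalkIso_symm {f : secAlg V} {x : PX V} (hx : x ∈ Proj.basicOpen (secGr V) f)
    (a : HomogeneousLocalization.Away (secGr V) f) :
    (PX V).presheaf.germ (Proj.basicOpen (secGr V) f) x hx
      ((Proj.awayToSection (secGr V) f).hom a) =
    (Proj.stalkIso (secGr V) x).inv.hom
      (HomogeneousLocalization.mapId (secGr V) (Submonoid.powers_le.mpr hx) a) := by
  exact congr($(ProjectiveSpectrum.Proj.awayToSection_germ (secGr V) f x hx).hom a)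

omit [IsIntegral (PX V)] in
lemma mem_basicOpen_of_isUnit {f g : secAlg V} (hf : f ∈ secGr V 1) (hg : g ∈ secGr V (1 • 1))
    {x : PX V} (hx : x ∈ Proj.basicOpen (secGr V) f)
    (hu : IsUnit ((PX V).presheaf.germ (Proj.basicOpen (secGr V) f) x hx
      ((Proj.awayToSection (secGr V) f).hom (HomogeneousLocalization.Away.mk _ hf 1 g hg)))) :
    x ∈ Proj.basicOpen (secGr V) g := by
  have hp : x.asHomogeneousIdeal.toIdeal.IsPrime := x.isPrime
  rw [germ_eq_stalkIso_symm] at hu
  have h2 := hu.map (Proj.stalkIso (secGr V) x).hom.hom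
  have h3 : (Proj.stalkIso (secGr V) x).hom.hom ((Proj.stalkIso (secGr V) x).inv.hom
      (HomogeneousLocalization.mapId (secGr V) (Submonoid.powers_le.mpr hx)
        (HomogeneousLocalization.Away.mk _ hf 1 g hg))) =
      HomogeneousLocalization.mapId (secGr V) (Submonoid.powers_le.mpr hx)
        (HomogeneousLocalization.Away.mk _ hf 1 g hg) :=
    (Proj.stalkIso (secGr V) x).inv_hom_id_apply _
  rw [h3] at h2
  have h4 := (HomogeneousLocalization.isUnit_iff_isUnit_val (secGr V)
    x.asHomogeneousIdeal.toIdeal _).mpr h2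
  have h5 : IsUnit (Localization.mk g ⟨f ^ 1, fun h => hx (hp.mem_of_pow_mem 1 h)⟩ :
      Localization.AtPrime x.asHomogeneousIdeal.toIdeal) := h4
  rw [Localization.mk_eq_mk'] at h5
  have h6 := (IsLocalization.AtPrime.isUnit_mk'_iff
    (Localization.AtPrime x.asHomogeneousIdeal.toIdeal) x.asHomogeneousIdeal.toIdeal g _).mp h5
  exact (Proj.mem_basicOpen (secGr V) g x).mpr h6

/-- On the chart of `c`, the chart of `c'` is the locus where `c' / c` is invertible. -/
lemma mem_Dc_iff {c c' : K} (hcV : c ∈ V) (hc : c ≠ 0) (hcV' : c' ∈ V) (hc' : c' ≠ 0) {x : PX V}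
    (hx : x ∈ Dc c hcV) {u : (PX V).functionField} (hu : toK h1 u = c' / c) :
    x ∈ Dc c' hcV' ↔ IsUnitIn (localRing (PX V) x) u := by
  have hne := nonempty_Dc h1 hcV hc
  have hf0 : ev V (el c hcV) ≠ 0 := by simpa using hc
  constructor
  · intro hx'
    obtain ⟨u1, hu1, hu1'⟩ := exists_toK_eq_div h1 hcV hc hcV'
    obtain ⟨u2, hu2, hu2'⟩ := exists_toK_eq_div h1 hcV' hc' hcV
    have e1 : u1 = u := toK_injective h1 (by rw [hu1', hu])
    have e2 : u2 = u⁻¹ := toK_injective h1 (by rw [hu2', map_inv₀, hu, inv_div])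
    refine ⟨?_, e1 ▸ chartF_le_localRing h1 hcV hc hx hu1,
      e2 ▸ chartF_le_localRing h1 hcV' hc' hx' hu2⟩
    rintro rfl
    rw [map_zero] at hu
    exact div_ne_zero hc' hc hu.symm
  · intro hu'
    have hg : el c' hcV' ∈ secGr V (1 • 1) := by
      rw [nsmul_one, Nat.cast_id]; exact el_mem c' hcV'
    refine mem_basicOpen_of_isUnit (el_mem c hcV) hg hx ?_
    rw [← isUnitIn_localRing_iff, Scheme.algebraMap_germ_eq_germToFunctionField]
    have e : (PX V).germToFunctionField (Dc c hcV) ((Proj.awayToSection (secGr V) (el c hcV)).hom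
        (HomogeneousLocalization.Away.mk _ (el_mem c hcV) 1 (el c' hcV') hg)) = u := by
      apply toK_injective h1
      rw [toK_germ h1 (el c hcV) (el_mem c hcV) hf0, evAway_mk V _ hf0 (el_mem c hcV), hu]
      simp
    rw [e]
    exact hu'

end

end Pool.Agent.MP_4d8271_ag
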